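import Pool.Agent.Lib.MP_779fbc_ag.Base

/-! # E1 Liou: Liouville for elliptic functions, surjectivity of `(℘, ℘')` -/

open Set Topology Filter

noncomputable section

namespace Pool.Agent.AO

theorem elliptic_const (L : PeriodPair) {f : ℂ → ℂ} (hf : Differentiable ℂ f)
    (hper : ∀ z, ∀ l ∈ L.lattice, f (z + l) = f z) (z w : ℂ) : f z = f w :=
  hf.apply_eq_apply_of_bounded (IsZLattice.isCompact_range_of_periodic L.lattice _
    hf.continuous fun z l hl => hper z l hl).isBounded z w

theorem liou_aux_surj (L : PeriodPair) (u : ℂ) : ∃ z, z ∉ L.lattice ∧ L.weierstrassP z = u := by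
  classical
  by_contra hcon
  push Not at hcon
  let f : ℂ → ℂ := fun z => if z ∈ L.lattice then 0 else (L.weierstrassP z - u)⁻¹
  have hfd : Differentiable ℂ f := by
    intro x
    by_cases hx : x ∈ L.lattice
    · have hA : AnalyticAt ℂ (L.weierstrassPExcept x) x := L.analyticAt_weierstrassPExcept x
      have hB : DifferentiableAt ℂ (fun z => (z - x) ^ 2 * L.weierstrassPExcept x z + 1
          - (z - x) ^ 2 / x ^ 2 - u * (z - x) ^ 2) x := by
        have h1 := hA.differentiableAt
        have h2 : DifferentiableAt ℂ (fun z : ℂ => (z - x) ^ 2 / x ^ 2) x :=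
          DifferentiableAt.div_const (by fun_prop) _
        exact (((((differentiableAt_id.sub_const x).pow 2).mul h1).add_const 1).sub h2).sub
          (((differentiableAt_id.sub_const x).pow 2).const_mul u)
      have hB1 : (x - x) ^ 2 * L.weierstrassPExcept x x + 1
          - (x - x) ^ 2 / x ^ 2 - u * (x - x) ^ 2 ≠ 0 := by simp
      have hC : DifferentiableAt ℂ (fun z => (z - x) ^ 2 / ((z - x) ^ 2 * L.weierstrassPExcept x z
          + 1 - (z - x) ^ 2 / x ^ 2 - u * (z - x) ^ 2)) x :=
        DifferentiableAt.fun_div (by fun_prop) hB hB1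
      refine hC.congr_of_eventuallyEq ?_
      have hne : ∀ᶠ z in 𝓝 x, (z - x) ^ 2 * L.weierstrassPExcept x z
          + 1 - (z - x) ^ 2 / x ^ 2 - u * (z - x) ^ 2 ≠ 0 :=
        hB.continuousAt.eventually_ne hB1
      filter_upwards [L.compl_lattice_sdiff_singleton_mem_nhds x, hne] with z hz hz'
      by_cases hzx : z = x
      · subst hzx
        simp [f, hx]
      · have hzL : z ∉ L.lattice := by
          intro h
          exact hz ⟨h, hzx⟩
        have hk := L.ite_eq_one_sub_sq_mul_weierstrassP x hx z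
        rw [if_neg hzx] at hk
        have hk' : (z - x) ^ 2 * L.weierstrassPExcept x z + 1 - (z - x) ^ 2 / x ^ 2
            - u * (z - x) ^ 2 = (z - x) ^ 2 * (L.weierstrassP z - u) := by
          rw [← hk]; ring
        have hzx' : (z - x) ^ 2 ≠ 0 := pow_ne_zero _ (sub_ne_zero.2 hzx)
        simp only [f, if_neg hzL]
        rw [hk', div_mul_eq_div_div, div_self hzx', one_div]
    · have h1 : DifferentiableAt ℂ L.weierstrassP x :=
        (L.analyticOnNhd_weierstrassP x hx).differentiableAt
      have h2 : DifferentiableAt ℂ (fun z => (L.weierstrassP z - u)⁻¹) x :=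
        (h1.sub_const u).inv (sub_ne_zero.2 (hcon x hx))
      refine h2.congr_of_eventuallyEq ?_
      filter_upwards [L.isClosed_lattice.isOpen_compl.mem_nhds hx] with z hz
      have hz' : z ∉ L.lattice := hz
      simp [f, hz']
  have hper : ∀ z, ∀ l ∈ L.lattice, f (z + l) = f z := by
    intro z l hl
    have h1 : (z + l ∈ L.lattice) ↔ (z ∈ L.lattice) := L.lattice.add_mem_iff_left hl
    have h2 : L.weierstrassP (z + l) = L.weierstrassP z := L.weierstrassP_add_coe z ⟨l, hl⟩
    simp only [f, h1, h2]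
  have h := elliptic_const L hfd hper (L.ω₁ / 2) 0
  have h1 : f (L.ω₁ / 2) = (L.weierstrassP (L.ω₁ / 2) - u)⁻¹ :=
    if_neg L.ω₁_div_two_notMem_lattice
  have h2 : f 0 = 0 := if_pos (zero_mem _)
  rw [h1, h2, inv_eq_zero, sub_eq_zero] at h
  exact hcon _ L.ω₁_div_two_notMem_lattice h

theorem exists_weierstrass (L : PeriodPair) {u v : ℂ} (h : v ^ 2 = 4 * u ^ 3 - L.g₂ * u - L.g₃) :
    ∃ z, z ∉ L.lattice ∧ L.weierstrassP z = u ∧ L.derivWeierstrassP z = v := by
  obtain ⟨z, hz, hzu⟩ := liou_aux_surj L u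
  have h1 := L.derivWeierstrassP_sq z hz
  rw [hzu, ← h] at h1
  rcases sq_eq_sq_iff_eq_or_eq_neg.1 h1 with h2 | h2
  · exact ⟨z, hz, hzu, h2⟩
  · refine ⟨-z, ?_, ?_, ?_⟩
    · intro hneg
      apply hz
      have := L.lattice.neg_mem hneg
      rwa [neg_neg] at this
    · rw [L.weierstrassP_neg, hzu]
    · rw [L.derivWeierstrassP_neg, h2, neg_neg]

end Pool.Agent.AO
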