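import Pool.Agent.Lib.MP_779fbc_ag.HalfPeriods
import Pool.Agent.Lib.MP_779fbc_ag.Liou

/-! # MP_779fbc_ag, piece E8: the square lattice -/

open Set Topology Filter

noncomputable section

namespace Pool.Agent.AO


/-- multiplication by `c` maps one lattice onto the other -/
def cmb_equiv (L L' : PeriodPair) (c : ℂ) (hc : c ≠ 0)
    (h : ∀ z, z ∈ L.lattice ↔ c * z ∈ L'.lattice) : L.lattice ≃ L'.lattice where
  toFun l := ⟨c * l.1, (h l.1).1 l.2⟩
  invFun l := ⟨c⁻¹ * l.1, (h _).2 (by rw [mul_inv_cancel_left₀ hc]; exact l.2)⟩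
  left_inv l := by
    apply Subtype.ext
    exact inv_mul_cancel_left₀ hc _
  right_inv l := by
    apply Subtype.ext
    exact mul_inv_cancel_left₀ hc _

theorem cmb_scale (L L' : PeriodPair) (c : ℂ) (hc : c ≠ 0)
    (h : ∀ z, z ∈ L.lattice ↔ c * z ∈ L'.lattice) (z : ℂ) :
    L'.weierstrassP (c * z) = (c ^ 2)⁻¹ * L.weierstrassP z := by
  simp only [PeriodPair.weierstrassP]
  rw [← (cmb_equiv L L' c hc h).tsum_eq, ← tsum_mul_left]
  congr 1
  funext l
  change 1 / (c * z - c * l.1) ^ 2 - 1 / (c * l.1) ^ 2 = (c ^ 2)⁻¹ * (1 / (z - l.1) ^ 2 - 1 / l.1 ^ 2)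
  rw [← mul_sub, mul_pow, mul_pow, mul_sub]
  simp only [one_div, mul_inv]

/-- the lattice `c (ℤ + ℤ i)` -/
def cmb_pair (c : ℂ) (hc : c ≠ 0) : PeriodPair where
  ω₁ := c
  ω₂ := c * Complex.I
  indep := by
    rw [LinearIndependent.pair_iff]
    intro s t h
    have h' : c * ((s : ℂ) + (t : ℂ) * Complex.I) = 0 := by
      rw [← h, Complex.real_smul, Complex.real_smul]
      ring
    have h'' := (mul_eq_zero.1 h').resolve_left hc
    constructor
    · have := congrArg Complex.re h''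
      simpa using this
    · have := congrArg Complex.im h''
      simpa using this

theorem cmb_mem (c : ℂ) (hc : c ≠ 0) (x : ℂ) :
    x ∈ (cmb_pair c hc).lattice ↔ ∃ m n : ℤ, (m : ℂ) * c + n * (c * Complex.I) = x :=
  PeriodPair.mem_lattice

theorem cmb_mem_scale (c : ℂ) (hc : c ≠ 0) (z : ℂ) :
    z ∈ (cmb_pair 1 one_ne_zero).lattice ↔ c * z ∈ (cmb_pair c hc).lattice := by
  rw [cmb_mem, cmb_mem]
  constructor
  · rintro ⟨m, n, rfl⟩
    exact ⟨m, n, by ring⟩
  · rintro ⟨m, n, h⟩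
    refine ⟨m, n, ?_⟩
    apply mul_left_cancel₀ hc
    rw [← h]
    ring

theorem cmb_mem_I (z : ℂ) :
    z ∈ (cmb_pair 1 one_ne_zero).lattice ↔ Complex.I * z ∈ (cmb_pair 1 one_ne_zero).lattice := by
  rw [cmb_mem, cmb_mem]
  constructor
  · rintro ⟨m, n, rfl⟩
    refine ⟨-n, m, ?_⟩
    push_cast
    linear_combination (-(n : ℂ)) * Complex.I_mul_I
  · rintro ⟨m, n, h⟩
    refine ⟨n, -m, ?_⟩
    apply mul_left_cancel₀ Complex.I_ne_zero
    rw [← h]
    push_cast
    linear_combination (-(m : ℂ)) * Complex.I_mul_I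

-- E8 (file CMBase)
theorem cm_base : CMTriple 1 (-1) 0 := by
  set L := cmb_pair 1 one_ne_zero with hL
  have hI : ∀ z, L.weierstrassP (Complex.I * z) = -L.weierstrassP z := by
    intro z
    rw [cmb_scale L L Complex.I Complex.I_ne_zero cmb_mem_I z, Complex.I_sq]
    norm_num
  have hω1 : L.ω₁ = 1 := rfl
  have hω2 : L.ω₂ = 1 * Complex.I := rfl
  have h2 : L.weierstrassP (L.ω₂ / 2) = -L.weierstrassP (L.ω₁ / 2) := by
    rw [← hI, hω1, hω2]
    congr 1
    ring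
  have h3 : L.weierstrassP ((L.ω₁ + L.ω₂) / 2) = 0 := by
    have e1 := hI ((L.ω₁ + L.ω₂) / 2)
    have e2 : Complex.I * ((L.ω₁ + L.ω₂) / 2) + ((⟨L.ω₁, L.ω₁_mem_lattice⟩ : L.lattice) : ℂ)
        = (L.ω₁ + L.ω₂) / 2 := by
      change Complex.I * ((L.ω₁ + L.ω₂) / 2) + L.ω₁ = (L.ω₁ + L.ω₂) / 2
      rw [hω1, hω2]
      linear_combination (1 / 2 : ℂ) * Complex.I_mul_I
    have e3 := L.weierstrassP_add_coe (Complex.I * ((L.ω₁ + L.ω₂) / 2))
      ⟨L.ω₁, L.ω₁_mem_lattice⟩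
    rw [e2, e1] at e3
    have e4 : (2 : ℂ) * L.weierstrassP ((L.ω₁ + L.ω₂) / 2) = 0 := by linear_combination e3
    exact (mul_eq_zero.1 e4).resolve_left two_ne_zero
  have hne : L.weierstrassP (L.ω₁ / 2) ≠ 0 := by
    intro h0
    have := (half_periods L rfl rfl rfl).1.1
    rw [h2, h0, neg_zero] at this
    exact this rfl
  obtain ⟨c, hc⟩ := IsAlgClosed.exists_pow_nat_eq (L.weierstrassP (L.ω₁ / 2)) (n := 2) two_pos
  have hc0 : c ≠ 0 := by
    rintro rfl
    apply hne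
    rw [← hc]
    norm_num
  refine ⟨cmb_pair c hc0, c, ?_, ?_, ?_, ?_⟩
  · intro l hl
    obtain ⟨m, n, h⟩ := (cmb_mem c hc0 l).1 hl
    refine ⟨(m : ℂ) + n * Complex.I, ?_, ?_⟩
    · have hIalg : IsAlgebraic ℚ Complex.I := by
        refine ⟨Polynomial.X ^ 2 + 1, ?_, ?_⟩
        · intro h
          have := congrArg (Polynomial.eval (0 : ℚ)) h
          simp at this
        · simp
      exact (isAlgebraic_intCast m).add ((isAlgebraic_intCast n).mul hIalg)
    · rw [← h]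
      ring
  · change (cmb_pair c hc0).weierstrassP (c / 2) = 1
    have := cmb_scale L (cmb_pair c hc0) c hc0 (cmb_mem_scale c hc0) (L.ω₁ / 2)
    rw [← hc, inv_mul_cancel₀ (pow_ne_zero 2 hc0), hω1] at this
    rw [← this]
    congr 1
    ring
  · change (cmb_pair c hc0).weierstrassP (c * Complex.I / 2) = -1
    have := cmb_scale L (cmb_pair c hc0) c hc0 (cmb_mem_scale c hc0) (L.ω₂ / 2)
    rw [h2, ← hc, mul_neg, inv_mul_cancel₀ (pow_ne_zero 2 hc0), hω2] at this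
    rw [← this]
    congr 1
    ring
  · change (cmb_pair c hc0).weierstrassP ((c + c * Complex.I) / 2) = 0
    have := cmb_scale L (cmb_pair c hc0) c hc0 (cmb_mem_scale c hc0) ((L.ω₁ + L.ω₂) / 2)
    rw [h3, mul_zero, hω1, hω2] at this
    rw [← this]
    congr 1
    ring

end Pool.Agent.AO
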