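import Pool.Agent.Lib.MP_779fbc_ag.Base
import Pool.Agent.Lib.MP_779fbc_ag.Liou

/-! # Piece E2: injectivity of `(℘, ℘')` modulo the lattice -/

open Set Topology Filter

noncomputable section

namespace Pool.Agent.AO

theorem inj_aux_countable (L : PeriodPair) : (L.lattice : Set ℂ).Countable := by
  have : Countable L.lattice := Countable.of_equiv _ L.latticeEquivProd.toEquiv.symm
  exact Set.countable_coe_iff.mp this

theorem inj_aux_preconn {S : Set ℂ} (hS : S.Countable) : IsPreconnected Sᶜ :=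
  (hS.isPathConnected_compl_of_one_lt_rank (by simp [Complex.rank_real_complex])).isConnected.isPreconnected

theorem inj_aux_open (L : PeriodPair) : IsOpen ((L.lattice : Set ℂ)ᶜ) := L.isClosed_lattice.isOpen_compl

theorem inj_aux_tendsto (L : PeriodPair) : Tendsto L.weierstrassP (𝓝[≠] 0) (Bornology.cobounded ℂ) := by
  rw [tendsto_cobounded_iff_meromorphicOrderAt_neg (L.meromorphic_weierstrassP 0)]
  rw [L.order_weierstrassP 0 (by simp)]
  exact WithTop.coe_lt_coe.mpr (show (-2 : ℤ) < 0 by norm_num)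

theorem inj_aux_hasDerivAt (L : PeriodPair) {z : ℂ} (hz : z ∉ L.lattice) :
    HasDerivAt L.weierstrassP (L.derivWeierstrassP z) z := by
  have h := (L.analyticOnNhd_weierstrassP z hz).differentiableAt.hasDerivAt
  rwa [L.deriv_weierstrassP] at h

theorem inj_aux_not_zero (L : PeriodPair) {z : ℂ} (hz : z ∉ L.lattice) :
    ¬ ∀ᶠ w in 𝓝 z, L.derivWeierstrassP w = 0 := by
  intro h
  have h0 : EqOn L.derivWeierstrassP 0 ((L.lattice : Set ℂ)ᶜ) :=
    L.analyticOnNhd_derivWeierstrassP.eqOn_zero_of_preconnected_of_eventuallyEq_zero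
      (inj_aux_preconn (inj_aux_countable L)) hz h
  have hc : ∀ w ∈ ((L.lattice : Set ℂ)ᶜ), L.weierstrassP w = L.weierstrassP z := by
    intro w hw
    refine (inj_aux_open L).is_const_of_deriv_eq_zero (inj_aux_preconn (inj_aux_countable L))
      L.differentiableOn_weierstrassP ?_ hw hz
    rw [L.deriv_weierstrassP]
    exact h0
  have hev : ∀ᶠ w in 𝓝[≠] (0 : ℂ), L.weierstrassP w = L.weierstrassP z := by
    have := L.compl_lattice_sdiff_singleton_mem_nhds 0
    filter_upwards [mem_nhdsWithin_of_mem_nhds this, self_mem_nhdsWithin] with w hw hw'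
    apply hc
    intro hwl
    exact hw ⟨hwl, hw'⟩
  have h1 := inj_aux_tendsto L
  have h2 : Tendsto L.weierstrassP (𝓝[≠] 0) (𝓝 (L.weierstrassP z)) :=
    tendsto_const_nhds.congr' (hev.mono fun w hw => hw.symm)
  exact h1.not_tendsto (Metric.disjoint_nhds_cobounded _).symm h2

theorem hasDerivAt_derivWeierstrassP (L : PeriodPair) {z : ℂ} (hz : z ∉ L.lattice) :
    HasDerivAt L.derivWeierstrassP (6 * L.weierstrassP z ^ 2 - L.g₂ / 2) z := by
  have hA := L.analyticOnNhd_derivWeierstrassP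
  have hP := L.analyticOnNhd_weierstrassP
  -- the product relation
  have hrel : ∀ w ∈ ((L.lattice : Set ℂ)ᶜ), L.derivWeierstrassP w *
      (deriv L.derivWeierstrassP w - (6 * L.weierstrassP w ^ 2 - L.g₂ / 2)) = 0 := by
    intro w hw
    have h1 : HasDerivAt (fun x => L.derivWeierstrassP x ^ 2)
        (2 * L.derivWeierstrassP w * deriv L.derivWeierstrassP w) w := by
      exact ((hA w hw).differentiableAt.hasDerivAt.fun_pow 2).congr_deriv (by norm_num)
    have h2 : HasDerivAt (fun x => 4 * L.weierstrassP x ^ 3 - L.g₂ * L.weierstrassP x - L.g₃)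
        (4 * (3 * L.weierstrassP w ^ 2 * L.derivWeierstrassP w) - L.g₂ * L.derivWeierstrassP w) w := by
      have hd := inj_aux_hasDerivAt L hw
      exact ((((hd.fun_pow 3).const_mul 4).fun_sub (hd.const_mul L.g₂)).sub_const L.g₃).congr_deriv
        (by norm_num)
    have heq : (fun x => L.derivWeierstrassP x ^ 2) =ᶠ[𝓝 w]
        (fun x => 4 * L.weierstrassP x ^ 3 - L.g₂ * L.weierstrassP x - L.g₃) := by
      filter_upwards [(inj_aux_open L).mem_nhds hw] with x hx
      exact L.derivWeierstrassP_sq x hx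
    have h3 := h1.unique (h2.congr_of_eventuallyEq heq)
    linear_combination h3 / 2
  have hd : AnalyticAt ℂ (fun w => deriv L.derivWeierstrassP w -
      (6 * L.weierstrassP w ^ 2 - L.g₂ / 2)) z := by
    have h1 := (hA z hz).deriv
    have h2 := hP z hz
    fun_prop
  have hne : ∀ᶠ w in 𝓝[≠] z, L.derivWeierstrassP w ≠ 0 :=
    (hA z hz).eventually_eq_zero_or_eventually_ne_zero.resolve_left (inj_aux_not_zero L hz)
  have hz0 : ∀ᶠ w in 𝓝[≠] z, deriv L.derivWeierstrassP w -
      (6 * L.weierstrassP w ^ 2 - L.g₂ / 2) = 0 := by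
    filter_upwards [hne, mem_nhdsWithin_of_mem_nhds ((inj_aux_open L).mem_nhds hz)] with w hw hwU
    exact (mul_eq_zero.mp (hrel w hwU)).resolve_left hw
  have hval : deriv L.derivWeierstrassP z - (6 * L.weierstrassP z ^ 2 - L.g₂ / 2) = 0 := by
    have h1 := hd.continuousAt.continuousWithinAt (s := {z}ᶜ)
    have h2 : Tendsto (fun w => deriv L.derivWeierstrassP w -
      (6 * L.weierstrassP w ^ 2 - L.g₂ / 2)) (𝓝[≠] z) (𝓝 0) :=
      tendsto_const_nhds.congr' (hz0.mono fun w hw => hw.symm)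
    exact tendsto_nhds_unique h1 h2
  have := (hA z hz).differentiableAt.hasDerivAt
  rwa [sub_eq_zero.mp hval] at this

/-- Uniqueness for `y'' = 6 y² - c` at the level of orders of vanishing. -/
theorem inj_aux_unique {f g : ℂ → ℂ} {z c : ℂ} (hf : AnalyticAt ℂ f z) (hg : AnalyticAt ℂ g z)
    (h0 : f z = g z) (h1 : deriv f z = deriv g z)
    (hf2 : ∀ᶠ w in 𝓝 z, deriv (deriv f) w = 6 * f w ^ 2 - c)
    (hg2 : ∀ᶠ w in 𝓝 z, deriv (deriv g) w = 6 * g w ^ 2 - c) :
    ∀ᶠ w in 𝓝 z, f w = g w := by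
  set u : ℂ → ℂ := fun w => f w - g w with hu
  have hua : AnalyticAt ℂ u z := hf.sub hg
  have hu0 : u z = 0 := by simp [hu, h0]
  have hdu : deriv u =ᶠ[𝓝 z] fun w => deriv f w - deriv g w := by
    filter_upwards [hf.eventually_analyticAt, hg.eventually_analyticAt] with w hw hw'
    exact deriv_sub hw.differentiableAt hw'.differentiableAt
  have hdu0 : deriv u z = 0 := by
    have := hdu.self_of_nhds
    simp only at this
    rw [this, h1, sub_self]
  have hddu : deriv (deriv u) =ᶠ[𝓝 z] fun w => (6 * (f w + g w)) * u w := by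
    have h2 := hdu.deriv
    filter_upwards [h2, hf2, hg2, hf.eventually_analyticAt, hg.eventually_analyticAt]
      with w hw hw1 hw2 hw3 hw4
    rw [hw]
    rw [deriv_fun_sub hw3.deriv.differentiableAt hw4.deriv.differentiableAt, hw1, hw2]
    simp only [hu]
    ring
  have ho1 := hua.analyticOrderAt_deriv_add_one
  have ho2 := hua.deriv.analyticOrderAt_deriv_add_one
  simp only [hu0, hdu0, sub_zero] at ho1 ho2
  have ho3 : analyticOrderAt (deriv (deriv u)) z = analyticOrderAt (fun w => 6 * (f w + g w)) z +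
      analyticOrderAt u z := by
    rw [analyticOrderAt_congr hddu]
    exact analyticOrderAt_mul (by fun_prop) hua
  have htop : analyticOrderAt u z = ⊤ := by
    by_contra hne
    have h4 : analyticOrderAt u z = analyticOrderAt (fun w => 6 * (f w + g w)) z +
      analyticOrderAt u z + 1 + 1 := by
      rw [← ho3, ho2, ho1]
    generalize analyticOrderAt u z = a at h4 hne
    generalize analyticOrderAt (fun w => 6 * (f w + g w)) z = b at h4
    lift a to ℕ using hne
    induction b using ENat.recTopCoe with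
    | top => simp at h4
    | coe b =>
      have : a = b + a + 1 + 1 := by exact_mod_cast h4
      omega
  rw [analyticOrderAt_eq_top] at htop
  exact htop.mono fun w hw => sub_eq_zero.mp hw

theorem weierstrass_inj (L : PeriodPair) {z w : ℂ} (hz : z ∉ L.lattice) (hw : w ∉ L.lattice)
    (h : L.weierstrassP z = L.weierstrassP w) (h' : L.derivWeierstrassP z = L.derivWeierstrassP w) :
    z - w ∈ L.lattice := by
  by_contra hd
  -- compare ζ ↦ ℘ ζ and ζ ↦ ℘ (ζ + (z - w)) at ζ = w
  set d := z - w with hddef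
  have hzd : w + d = z := by rw [hddef]; ring
  set V : Set ℂ := (((L.lattice : Set ℂ)) ∪ (fun ζ => ζ + d) ⁻¹' (L.lattice : Set ℂ)) with hV
  have hVc : V.Countable := by
    refine (inj_aux_countable L).union ?_
    exact (inj_aux_countable L).preimage (add_left_injective d)
  have hVopen : IsOpen Vᶜ := by
    rw [hV, compl_union]
    exact (inj_aux_open L).inter ((inj_aux_open L).preimage (by fun_prop : Continuous fun ζ : ℂ => ζ + d))
  have hmem : ∀ ζ, ζ ∈ Vᶜ ↔ ζ ∉ L.lattice ∧ ζ + d ∉ L.lattice := by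
    intro ζ
    simp [hV]
  have hf : AnalyticOnNhd ℂ (fun ζ => L.weierstrassP (ζ + d)) Vᶜ := by
    intro ζ hζ
    have := L.analyticOnNhd_weierstrassP (ζ + d) ((hmem ζ).1 hζ).2
    exact AnalyticAt.fun_comp (g := L.weierstrassP) (f := fun ζ : ℂ => ζ + d) this (by fun_prop)
  have hg : AnalyticOnNhd ℂ L.weierstrassP Vᶜ := fun ζ hζ =>
    L.analyticOnNhd_weierstrassP ζ ((hmem ζ).1 hζ).1
  have hwV : w ∈ Vᶜ := (hmem w).2 ⟨hw, by rw [hzd]; exact hz⟩
  have hderivf : ∀ ζ ∈ Vᶜ, HasDerivAt (fun ζ => L.weierstrassP (ζ + d)) (L.derivWeierstrassP (ζ + d)) ζ := by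
    intro ζ hζ
    have := (inj_aux_hasDerivAt L ((hmem ζ).1 hζ).2)
    exact this.comp_add_const ζ d
  have hderivf2 : ∀ ζ ∈ Vᶜ, HasDerivAt (fun ζ => L.derivWeierstrassP (ζ + d))
      (6 * L.weierstrassP (ζ + d) ^ 2 - L.g₂ / 2) ζ := by
    intro ζ hζ
    have := (hasDerivAt_derivWeierstrassP L ((hmem ζ).1 hζ).2)
    exact this.comp_add_const ζ d
  have hVw : Vᶜ ∈ 𝓝 w := hVopen.mem_nhds hwV
  have hloc : ∀ᶠ ζ in 𝓝 w, L.weierstrassP (ζ + d) = L.weierstrassP ζ := by
    refine inj_aux_unique (c := L.g₂ / 2) (hf w hwV) (hg w hwV) (by rw [hzd, h]) ?_ ?_ ?_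
    · rw [(hderivf w hwV).deriv, L.deriv_weierstrassP, hzd, h']
    · have h1 : deriv (fun ζ => L.weierstrassP (ζ + d)) =ᶠ[𝓝 w] fun ζ => L.derivWeierstrassP (ζ + d) := by
        filter_upwards [hVw] with ζ hζ
        exact (hderivf ζ hζ).deriv
      filter_upwards [h1.deriv, hVw] with ζ hζ hζ'
      rw [hζ, (hderivf2 ζ hζ').deriv]
    · filter_upwards [hVw] with ζ hζ
      rw [L.deriv_weierstrassP, (hasDerivAt_derivWeierstrassP L ((hmem ζ).1 hζ).1).deriv]
  have heq : EqOn (fun ζ => L.weierstrassP (ζ + d)) L.weierstrassP Vᶜ :=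
    hf.eqOn_of_preconnected_of_eventuallyEq hg (inj_aux_preconn hVc) hwV hloc
  -- near zero
  have hcont : Tendsto (fun ζ => L.weierstrassP (ζ + d)) (𝓝[≠] 0) (𝓝 (L.weierstrassP d)) := by
    have h1 : ContinuousAt L.weierstrassP (0 + d) := by
      rw [zero_add]
      exact (L.analyticOnNhd_weierstrassP d hd).continuousAt
    have h2 : ContinuousAt (fun ζ => L.weierstrassP (ζ + d)) 0 :=
      ContinuousAt.comp (f := fun ζ : ℂ => ζ + d) (x := (0 : ℂ)) h1 (by fun_prop)
    have h3 := h2.continuousWithinAt (s := {0}ᶜ)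
    unfold ContinuousWithinAt at h3
    simpa using h3
  have hev : ∀ᶠ ζ in 𝓝[≠] (0 : ℂ), L.weierstrassP (ζ + d) = L.weierstrassP ζ := by
    have h1 := L.compl_lattice_sdiff_singleton_mem_nhds 0
    have h2 : (fun ζ : ℂ => ζ + d) ⁻¹' ((L.lattice : Set ℂ)ᶜ) ∈ 𝓝 (0 : ℂ) := by
      apply ((inj_aux_open L).preimage (by fun_prop : Continuous fun ζ : ℂ => ζ + d)).mem_nhds
      simpa using hd
    filter_upwards [mem_nhdsWithin_of_mem_nhds h1, mem_nhdsWithin_of_mem_nhds h2, self_mem_nhdsWithin]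
      with ζ h3 h4 h5
    apply heq
    rw [hmem]
    exact ⟨fun hl => h3 ⟨hl, h5⟩, h4⟩
  exact (inj_aux_tendsto L).not_tendsto (Metric.disjoint_nhds_cobounded _).symm (hcont.congr' hev)

end Pool.Agent.AO
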