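import Pool.Agent.Lib.MP_779fbc_ag.Liou
import Pool.Agent.Lib.MP_779fbc_ag.Inj

/-! # E6: the Weierstrass function of the lattice `(ω₁ / 2, ω₂)` -/

open Set Topology Filter

noncomputable section

namespace Pool.Agent.AO

theorem half_aux_mem (L L' : PeriodPair) (h1 : L'.ω₁ = L.ω₁ / 2) (h2 : L'.ω₂ = L.ω₂) {x : ℂ}
    (hx : x ∈ L.lattice) : x ∈ L'.lattice := by
  rw [PeriodPair.mem_lattice] at hx ⊢
  obtain ⟨m, n, rfl⟩ := hx
  refine ⟨2 * m, n, ?_⟩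
  rw [h1, h2]
  push_cast
  ring

theorem half_aux_w (L L' : PeriodPair) (h1 : L'.ω₁ = L.ω₁ / 2) (h2 : L'.ω₂ = L.ω₂) {x : ℂ}
    (hx : x ∈ L.lattice) : x - L.ω₁ / 2 ∈ L'.lattice := by
  rw [← h1]
  exact L'.lattice.sub_mem (half_aux_mem L L' h1 h2 hx) L'.ω₁_mem_lattice

/-- The map `L ⊕ L → L'` whose components are the inclusion and its translate. -/
def halfAuxMap (L L' : PeriodPair) (h1 : L'.ω₁ = L.ω₁ / 2) (h2 : L'.ω₂ = L.ω₂) :
    L.lattice ⊕ L.lattice → L'.lattice :=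
  Sum.elim (fun l => ⟨l.1, half_aux_mem L L' h1 h2 l.2⟩)
    (fun l => ⟨l.1 - L.ω₁ / 2, half_aux_w L L' h1 h2 l.2⟩)

theorem half_aux_bij (L L' : PeriodPair) (h1 : L'.ω₁ = L.ω₁ / 2) (h2 : L'.ω₂ = L.ω₂) :
    Function.Bijective (halfAuxMap L L' h1 h2) := by
  constructor
  · rintro (a | a) (b | b) hab
    · have h := congrArg Subtype.val hab
      exact congrArg Sum.inl (Subtype.ext h)
    · exfalso
      have h : a.1 = b.1 - L.ω₁ / 2 := congrArg Subtype.val hab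
      refine L.ω₁_div_two_notMem_lattice ?_
      have e : L.ω₁ / 2 = b.1 - a.1 := by rw [h]; ring
      rw [e]
      exact L.lattice.sub_mem b.2 a.2
    · exfalso
      have h : a.1 - L.ω₁ / 2 = b.1 := congrArg Subtype.val hab
      refine L.ω₁_div_two_notMem_lattice ?_
      have e : L.ω₁ / 2 = a.1 - b.1 := by rw [← h]; ring
      rw [e]
      exact L.lattice.sub_mem a.2 b.2
    · have h : a.1 - L.ω₁ / 2 = b.1 - L.ω₁ / 2 := congrArg Subtype.val hab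
      exact congrArg Sum.inr (Subtype.ext (sub_left_injective h))
  · rintro ⟨x, hx⟩
    obtain ⟨m, n, hmn⟩ := PeriodPair.mem_lattice.1 hx
    rcases Int.even_or_odd' m with ⟨k, hk | hk⟩
    · refine ⟨Sum.inl ⟨x, PeriodPair.mem_lattice.2 ⟨k, n, ?_⟩⟩, rfl⟩
      rw [← hmn, hk, h1, h2]
      push_cast
      ring
    · have hy : x + L.ω₁ / 2 ∈ L.lattice := by
        refine PeriodPair.mem_lattice.2 ⟨k + 1, n, ?_⟩
        rw [← hmn, hk, h1, h2]
        push_cast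
        ring
      refine ⟨Sum.inr ⟨x + L.ω₁ / 2, hy⟩, ?_⟩
      apply Subtype.ext
      show x + L.ω₁ / 2 - L.ω₁ / 2 = x
      ring

theorem weierstrass_half (L L' : PeriodPair) (h1 : L'.ω₁ = L.ω₁ / 2) (h2 : L'.ω₂ = L.ω₂) {z : ℂ}
    (hz : z ∉ L'.lattice) :
    L'.weierstrassP z = L.weierstrassP z + L.weierstrassP (z + L.ω₁ / 2)
      - L.weierstrassP (L.ω₁ / 2) := by
  have _ := hz
  have hA := L.hasSum_weierstrassP z
  have hB := (L.hasSum_weierstrassP (z + L.ω₁ / 2)).sub (L.hasSum_weierstrassP (L.ω₁ / 2))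
  have hs : HasSum ((fun l : L'.lattice => (1 / (z - l) ^ 2 - 1 / (l : ℂ) ^ 2)) ∘
      (Equiv.ofBijective _ (half_aux_bij L L' h1 h2)))
      (L.weierstrassP z + (L.weierstrassP (z + L.ω₁ / 2) - L.weierstrassP (L.ω₁ / 2))) := by
    refine HasSum.sum ?_ ?_
    · exact hA
    · have hfun : (fun l : L.lattice => 1 / (z + L.ω₁ / 2 - (l : ℂ)) ^ 2 - 1 / (l : ℂ) ^ 2 -
          (1 / (L.ω₁ / 2 - (l : ℂ)) ^ 2 - 1 / (l : ℂ) ^ 2)) =
          ((fun l : L'.lattice => (1 / (z - l) ^ 2 - 1 / (l : ℂ) ^ 2)) ∘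
            (Equiv.ofBijective _ (half_aux_bij L L' h1 h2))) ∘ Sum.inr := by
        funext l
        show _ = 1 / (z - (l.1 - L.ω₁ / 2)) ^ 2 - 1 / (l.1 - L.ω₁ / 2) ^ 2
        have e1 : z - (l.1 - L.ω₁ / 2) = z + L.ω₁ / 2 - l.1 := by ring
        have e2 : (l.1 - L.ω₁ / 2) ^ 2 = (L.ω₁ / 2 - l.1) ^ 2 := by ring
        rw [e1, e2]
        ring
      rw [← hfun]
      exact hB
  have h := (Equiv.hasSum_iff _).1 hs
  rw [(L'.hasSum_weierstrassP z).unique h]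
  ring

end Pool.Agent.AO
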