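import Pool.Agent.Lib.MP_779fbc_ag.Liou
import Pool.Agent.Lib.MP_779fbc_ag.Inj

open Set Topology Filter

noncomputable section

namespace Pool.Agent.AO

theorem translate_aux_add (L : PeriodPair) (z : ℂ) {l : ℂ} (hl : l ∈ L.lattice) :
    L.weierstrassP (z + l) = L.weierstrassP z := L.weierstrassP_add_coe z ⟨l, hl⟩

theorem translate_aux_mem_iff (L : PeriodPair) (z : ℂ) {l : ℂ} (hl : l ∈ L.lattice) :
    z + l ∈ L.lattice ↔ z ∈ L.lattice :=
  ⟨fun h => by simpa using sub_mem h hl, fun h => add_mem h hl⟩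

theorem translate_aux_deriv (L : PeriodPair) : L.derivWeierstrassP (L.ω₁ / 2) = 0 := by
  have h1 : L.derivWeierstrassP (-(L.ω₁ / 2)) = - L.derivWeierstrassP (L.ω₁ / 2) :=
    L.derivWeierstrassP_neg _
  have h2 := L.derivWeierstrassP_add_coe (-(L.ω₁ / 2)) ⟨L.ω₁, L.ω₁_mem_lattice⟩
  have h3 : -(L.ω₁ / 2) + L.ω₁ = L.ω₁ / 2 := by ring
  simp only [h3] at h2
  rw [h1] at h2
  exact self_eq_neg.mp h2

/-- the singular set -/
def translate_aux_S (L : PeriodPair) : Set ℂ := {z | z ∈ L.lattice ∨ z + L.ω₁ / 2 ∈ L.lattice}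

theorem translate_aux_S_sub (L : PeriodPair) {z0 : ℂ} (h0 : z0 ∈ translate_aux_S L) (z : ℂ) :
    z - z0 ∈ translate_aux_S L ↔ z ∈ translate_aux_S L := by
  have hw : L.ω₁ / 2 + L.ω₁ / 2 ∈ L.lattice := by
    rw [add_halves]; exact L.ω₁_mem_lattice
  rcases h0 with h0 | h0
  · constructor
    · rintro (h | h)
      · left; simpa using add_mem h h0
      · right
        have := add_mem h h0
        have e : z - z0 + L.ω₁ / 2 + z0 = z + L.ω₁ / 2 := by ring
        rwa [e] at this
    · rintro (h | h)
      · left; exact sub_mem h h0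
      · right
        have := sub_mem h h0
        have e : z + L.ω₁ / 2 - z0 = z - z0 + L.ω₁ / 2 := by ring
        rwa [e] at this
  · constructor
    · rintro (h | h)
      · right
        have := add_mem h h0
        have e : z - z0 + (z0 + L.ω₁ / 2) = z + L.ω₁ / 2 := by ring
        rwa [e] at this
      · left
        have := sub_mem (add_mem h h0) hw
        have e : z - z0 + L.ω₁ / 2 + (z0 + L.ω₁ / 2) - (L.ω₁ / 2 + L.ω₁ / 2) = z := by ring
        rwa [e] at this
    · rintro (h | h)
      · right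
        have := add_mem (sub_mem h h0) hw
        have e : z - (z0 + L.ω₁ / 2) + (L.ω₁ / 2 + L.ω₁ / 2) = z - z0 + L.ω₁ / 2 := by ring
        rwa [e] at this
      · left
        have := sub_mem h h0
        have e : z + L.ω₁ / 2 - (z0 + L.ω₁ / 2) = z - z0 := by ring
        rwa [e] at this

/-- the product off the singular set -/
def translate_aux_F (L : PeriodPair) (e : ℂ) (z : ℂ) : ℂ :=
  (L.weierstrassP z - e) * (L.weierstrassP (z + L.ω₁ / 2) - e)

theorem translate_aux_F_sub (L : PeriodPair) (e : ℂ) {z0 : ℂ} (h0 : z0 ∈ translate_aux_S L)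
    (z : ℂ) : translate_aux_F L e (z - z0) = translate_aux_F L e z := by
  have hP : ∀ z l : ℂ, l ∈ L.lattice → L.weierstrassP (z - l) = L.weierstrassP z :=
    fun z l hl => L.weierstrassP_sub_coe z ⟨l, hl⟩
  unfold translate_aux_F
  rcases h0 with h0 | h0
  · rw [hP z z0 h0]
    have e1 : z - z0 + L.ω₁ / 2 = (z + L.ω₁ / 2) - z0 := by ring
    rw [e1, hP _ z0 h0]
  · have e1 : z - z0 = (z + L.ω₁ / 2) - (z0 + L.ω₁ / 2) := by ring
    have e2 : z - z0 + L.ω₁ / 2 = z - (z0 + L.ω₁ / 2) + L.ω₁ := by ring
    rw [e2, translate_aux_add L _ L.ω₁_mem_lattice, hP _ _ h0, e1, hP _ _ h0, mul_comm]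

open Classical in
theorem weierstrass_translate (L : PeriodPair) {e₁ e₂ e₃ : ℂ} (h1 : L.weierstrassP (L.ω₁ / 2) = e₁)
    (h2 : L.weierstrassP (L.ω₂ / 2) = e₂) (h3 : L.weierstrassP ((L.ω₁ + L.ω₂) / 2) = e₃) {z : ℂ}
    (hz : z ∉ L.lattice) (hz' : z + L.ω₁ / 2 ∉ L.lattice) :
    (L.weierstrassP z - e₁) * (L.weierstrassP (z + L.ω₁ / 2) - e₁) = (e₁ - e₂) * (e₁ - e₃) := by
  set g : ℂ → ℂ := fun z => L.weierstrassP (z + L.ω₁ / 2) with hg
  set h : ℂ → ℂ := dslope (dslope g 0) 0 with hh
  set S := translate_aux_S L with hS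
  set G : ℂ → ℂ := fun z => if z ∈ S then h 0 else translate_aux_F L e₁ z with hG
  have hw : L.ω₁ / 2 ∉ L.lattice := L.ω₁_div_two_notMem_lattice
  -- expansion of g
  have hg0 : g 0 = e₁ := by simp [hg, h1]
  have hgd : deriv g 0 = 0 := by
    have : deriv g 0 = deriv L.weierstrassP (0 + L.ω₁ / 2) := by
      rw [hg]; exact deriv_comp_add_const _ _ _
    rw [this, L.deriv_weierstrassP, zero_add, translate_aux_deriv]
  have hgexp : ∀ z, g z = e₁ + z ^ 2 * h z := by
    intro z
    have a1 : g z = g 0 + z * dslope g 0 z := by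
      have := sub_smul_dslope g 0 z
      simp only [sub_zero, smul_eq_mul] at this
      rw [this]; ring
    have a2 : dslope g 0 z = z * h z := by
      have := sub_smul_dslope (dslope g 0) 0 z
      simp only [sub_zero, smul_eq_mul] at this
      rw [hh, this, dslope_same, hgd, sub_zero]
    rw [a1, a2, hg0]; ring
  -- the neighbourhood
  set U : Set ℂ := ((L.lattice : Set ℂ) \ {0})ᶜ ∩ (fun z => z + L.ω₁ / 2) ⁻¹' ((L.lattice : Set ℂ)ᶜ)
    with hU
  have hUo : IsOpen U := by
    refine IsOpen.inter L.isOpen_compl_lattice_sdiff ?_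
    exact L.isClosed_lattice.isOpen_compl.preimage (by fun_prop)
  have h0U : (0 : ℂ) ∈ U := by
    refine ⟨by simp, ?_⟩
    simpa using hw
  have hUn : U ∈ 𝓝 (0 : ℂ) := hUo.mem_nhds h0U
  have hgU : DifferentiableOn ℂ g U := by
    refine DifferentiableOn.comp (g := L.weierstrassP) L.differentiableOn_weierstrassP (by fun_prop) ?_
    intro z hz
    exact hz.2
  have hhU : DifferentiableOn ℂ h U := by
    rw [hh, Complex.differentiableOn_dslope hUn, Complex.differentiableOn_dslope hUn]
    exact hgU
  have hPU : DifferentiableOn ℂ (L.weierstrassPExcept 0) U :=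
    (L.differentiableOn_weierstrassPExcept 0).mono inter_subset_left
  have hGU : ∀ z ∈ U, G z = (1 + z ^ 2 * (L.weierstrassPExcept 0 z - e₁)) * h z := by
    intro z hz
    by_cases hz0 : z = 0
    · subst hz0
      have : (0 : ℂ) ∈ S := Or.inl (zero_mem _)
      simp [hG, this]
    · have hz1 : z ∉ L.lattice := fun hh => hz.1 ⟨hh, hz0⟩
      have hz2 : z + L.ω₁ / 2 ∉ L.lattice := hz.2
      have hzS : z ∉ S := by
        rintro (h | h)
        · exact hz1 h
        · exact hz2 h
      have e : L.weierstrassP z = L.weierstrassPExcept 0 z + 1 / z ^ 2 := by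
        have := L.weierstrassPExcept_add 0 z
        simp only [ZeroMemClass.coe_zero, sub_zero] at this
        rw [← this]; simp
      have e2 : L.weierstrassP (z + L.ω₁ / 2) = e₁ + z ^ 2 * h z := hgexp z
      simp only [hG, hzS, if_false, translate_aux_F]
      rw [e, e2]
      field_simp
      ring
  have hG0 : DifferentiableAt ℂ G 0 := by
    have : DifferentiableOn ℂ G U := by
      refine DifferentiableOn.congr ?_ hGU
      fun_prop
    exact this.differentiableAt hUn
  have hGsub : ∀ z0 ∈ S, ∀ z, G (z - z0) = G z := by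
    intro z0 h0 z
    simp only [hG]
    rw [translate_aux_F_sub L e₁ h0 z]
    have := translate_aux_S_sub L h0 z
    by_cases hzS : z ∈ S
    · rw [if_pos hzS, if_pos (this.2 hzS)]
    · rw [if_neg hzS, if_neg (fun hh => hzS (this.1 hh))]
  have hSclosed : IsClosed S := by
    have : S = (L.lattice : Set ℂ) ∪ (fun z => z + L.ω₁ / 2) ⁻¹' (L.lattice : Set ℂ) := by
      ext z; simp [hS, translate_aux_S]
    rw [this]
    exact L.isClosed_lattice.union (L.isClosed_lattice.preimage (by fun_prop))
  have hGd : Differentiable ℂ G := by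
    intro z0
    by_cases hz0 : z0 ∈ S
    · have : G = fun z => G (z - z0) := by
        funext z; exact (hGsub z0 hz0 z).symm
      rw [this]
      have h0 : DifferentiableAt ℂ G (z0 - z0) := by rw [sub_self]; exact hG0
      exact DifferentiableAt.comp (g := G) (f := fun z => z - z0) z0 h0 (by fun_prop)
    · have hn : Sᶜ ∈ 𝓝 z0 := hSclosed.isOpen_compl.mem_nhds hz0
      have : DifferentiableOn ℂ G Sᶜ := by
        refine DifferentiableOn.congr (f := translate_aux_F L e₁) ?_ ?_
        · unfold translate_aux_F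
          refine DifferentiableOn.mul ?_ ?_
          · refine DifferentiableOn.sub_const (L.differentiableOn_weierstrassP.mono ?_) _
            intro z hz hh
            exact hz (Or.inl hh)
          · refine DifferentiableOn.sub_const ?_ _
            refine DifferentiableOn.comp (g := L.weierstrassP) L.differentiableOn_weierstrassP
              (by fun_prop) ?_
            intro z hz hh
            exact hz (Or.inr hh)
        · intro z hz
          simp only [hG]
          rw [if_neg hz]
      exact this.differentiableAt hn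
  have hGper : ∀ z, ∀ l ∈ L.lattice, G (z + l) = G z := by
    intro z l hl
    have := hGsub (-l) (Or.inl (neg_mem hl)) z
    simpa using this
  have hconst := elliptic_const L hGd hGper z (L.ω₂ / 2)
  have hzS : z ∉ S := by
    rintro (h | h)
    · exact hz h
    · exact hz' h
  have hwS : L.ω₂ / 2 ∉ S := by
    rintro (h | h)
    · exact L.ω₂_div_two_notMem_lattice h
    · have := (L.mul_ω₁_add_mul_ω₂_mem_lattice (α := 1 / 2) (β := 1 / 2)).not.mpr (by norm_num)
      apply this
      convert h using 1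
      push_cast
      ring
  simp only [hG] at hconst
  rw [if_neg hzS, if_neg hwS] at hconst
  unfold translate_aux_F at hconst
  rw [hconst, h2]
  have e : L.ω₂ / 2 + L.ω₁ / 2 = (L.ω₁ + L.ω₂) / 2 := by ring
  rw [e, h3]
  ring

end Pool.Agent.AO
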