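import Pool.Agent.Lib.MP_779fbc_ag.HalfPeriods
import Pool.Agent.Lib.MP_779fbc_ag.Translate
import Pool.Agent.Lib.MP_779fbc_ag.HalfLattice

open Set Topology

noncomputable section

namespace Pool.Agent.AO

/-- the Weierstrass function depends only on the lattice -/
theorem cmstep_congr (L L' : PeriodPair) (h : L.lattice = L'.lattice) (z : ℂ) :
    L.weierstrassP z = L'.weierstrassP z := by
  unfold PeriodPair.weierstrassP
  rw [h]

theorem cmstep_quarter (L : PeriodPair) :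
    L.weierstrassP (L.ω₁ / 4 + L.ω₁ / 2) = L.weierstrassP (L.ω₁ / 4) := by
  have h := L.weierstrassP_add_coe (-(L.ω₁ / 4)) ⟨L.ω₁, L.ω₁_mem_lattice⟩
  rw [L.weierstrassP_neg] at h
  rw [← h]
  congr 1
  simp only
  ring

theorem cmstep_quarter_notMem (L : PeriodPair) : L.ω₁ / 4 ∉ L.lattice := by
  have h := (L.mul_ω₁_add_mul_ω₂_mem_lattice (α := 1 / 4) (β := 0)).not.mpr (by norm_num)
  intro h'
  apply h
  convert h' using 1
  push_cast
  ring

theorem cmstep_quarter_notMem' (L : PeriodPair) : L.ω₁ / 4 + L.ω₁ / 2 ∉ L.lattice := by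
  have h := (L.mul_ω₁_add_mul_ω₂_mem_lattice (α := 3 / 4) (β := 0)).not.mpr (by norm_num)
  intro h'
  apply h
  convert h' using 1
  push_cast
  ring

theorem cmstep_indep (L : PeriodPair) : LinearIndependent ℝ ![L.ω₁ / 2, L.ω₂] := by
  rw [LinearIndependent.pair_iff]
  intro s t hst
  have h := LinearIndependent.pair_iff.mp L.indep (s / 2) t (by
    rw [← hst]
    simp only [Complex.real_smul]
    push_cast
    ring)
  exact ⟨by linarith [h.1], h.2⟩

theorem cmstep_indep' (L : PeriodPair) : LinearIndependent ℝ ![L.ω₁ / 2 + L.ω₂, L.ω₂] := by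
  rw [LinearIndependent.pair_iff]
  intro s t hst
  have h := LinearIndependent.pair_iff.mp L.indep (s / 2) (s + t) (by
    rw [← hst]
    simp only [Complex.real_smul]
    push_cast
    ring)
  have h1 : s = 0 := by linarith [h.1]
  exact ⟨h1, by linarith [h.2]⟩

/-- the lattice spanned by `ω₁ / 2` and `ω₂` -/
def cmstepPair (L : PeriodPair) : PeriodPair := ⟨L.ω₁ / 2, L.ω₂, cmstep_indep L⟩

/-- the same lattice with the basis `ω₁ / 2 + ω₂`, `ω₂` -/
def cmstepPair' (L : PeriodPair) : PeriodPair := ⟨L.ω₁ / 2 + L.ω₂, L.ω₂, cmstep_indep' L⟩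

theorem cmstep_lattice (L : PeriodPair) : (cmstepPair' L).lattice = (cmstepPair L).lattice := by
  ext x
  rw [PeriodPair.mem_lattice, PeriodPair.mem_lattice]
  constructor
  · rintro ⟨m, n, rfl⟩
    refine ⟨m, m + n, ?_⟩
    simp only [cmstepPair, cmstepPair']
    push_cast
    ring
  · rintro ⟨m, n, rfl⟩
    refine ⟨m, n - m, ?_⟩
    simp only [cmstepPair, cmstepPair']
    push_cast
    ring

theorem cmstep_alg (L : PeriodPair) {p : ℂ}
    (hp : ∀ l ∈ L.lattice, ∃ b : ℂ, IsAlgebraic ℚ b ∧ l = b * p) :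
    ∀ l ∈ (cmstepPair L).lattice, ∃ b : ℂ, IsAlgebraic ℚ b ∧ l = b * p := by
  intro l hl
  obtain ⟨m, n, rfl⟩ := PeriodPair.mem_lattice.1 hl
  obtain ⟨b₁, hb₁, h₁⟩ := hp _ L.ω₁_mem_lattice
  obtain ⟨b₂, hb₂, h₂⟩ := hp _ L.ω₂_mem_lattice
  have hm : IsAlgebraic ℚ ((m : ℂ) / 2) := by
    have := isAlgebraic_algebraMap (R := ℚ) (A := ℂ) ((m : ℚ) / 2)
    simpa using this
  have hn : IsAlgebraic ℚ (n : ℂ) := isAlgebraic_intCast n
  refine ⟨(m : ℂ) / 2 * b₁ + n * b₂, (hm.mul hb₁).add (hn.mul hb₂), ?_⟩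
  simp only [cmstepPair]
  rw [h₁, h₂]
  ring

theorem cm_step {e₁ e₂ e₃ r : ℂ} (h : CMTriple e₁ e₂ e₃) (hr : r ^ 2 = (e₁ - e₂) * (e₁ - e₃)) :
    CMTriple (e₁ + 2 * r) (-2 * e₁) (e₁ - 2 * r) := by
  obtain ⟨L, p, hp, h1, h2, h3⟩ := h
  have hsum : e₁ + e₂ + e₃ = 0 := (half_periods L h1 h2 h3).2.1
  have hhalf : ∀ z, z ∉ (cmstepPair L).lattice → (cmstepPair L).weierstrassP z =
      L.weierstrassP z + L.weierstrassP (z + L.ω₁ / 2) - L.weierstrassP (L.ω₁ / 2) :=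
    fun z hz => weierstrass_half L (cmstepPair L) rfl rfl hz
  -- the value at `ω₂ / 2`
  have v2 : (cmstepPair L).weierstrassP (L.ω₂ / 2) = -2 * e₁ := by
    have h0 : L.ω₂ / 2 ∉ (cmstepPair L).lattice := (cmstepPair L).ω₂_div_two_notMem_lattice
    rw [hhalf _ h0, h1, h2,
      show L.ω₂ / 2 + L.ω₁ / 2 = (L.ω₁ + L.ω₂) / 2 by ring, h3]
    linear_combination hsum
  -- the value at `ω₁ / 4`
  have v1 : (cmstepPair L).weierstrassP (L.ω₁ / 2 / 2) = 2 * L.weierstrassP (L.ω₁ / 4) - e₁ := by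
    have h0 : L.ω₁ / 2 / 2 ∉ (cmstepPair L).lattice := (cmstepPair L).ω₁_div_two_notMem_lattice
    rw [hhalf _ h0, h1,
      show L.ω₁ / 2 / 2 = L.ω₁ / 4 by ring, cmstep_quarter]
    ring
  have hq : (L.weierstrassP (L.ω₁ / 4) - e₁) ^ 2 = r ^ 2 := by
    have := weierstrass_translate L h1 h2 h3 (cmstep_quarter_notMem L) (cmstep_quarter_notMem' L)
    rw [cmstep_quarter] at this
    rw [hr, ← this]
    ring
  -- the third value
  have v3 := (half_periods (cmstepPair L) (e₃ := (cmstepPair L).weierstrassP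
    (((cmstepPair L).ω₁ + (cmstepPair L).ω₂) / 2)) v1 v2 rfl).2.1
  rcases eq_or_eq_neg_of_sq_eq_sq _ _ hq with hq | hq
  · refine ⟨cmstepPair L, p, cmstep_alg L hp, ?_, v2, ?_⟩
    · change (cmstepPair L).weierstrassP (L.ω₁ / 2 / 2) = _
      rw [v1]
      linear_combination 2 * hq
    · linear_combination v3 - 2 * hq
  · refine ⟨cmstepPair' L, p, ?_, ?_, ?_, ?_⟩
    · rw [cmstep_lattice]
      exact cmstep_alg L hp
    · rw [cmstep_congr _ _ (cmstep_lattice L)]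
      change (cmstepPair L).weierstrassP ((L.ω₁ / 2 + L.ω₂) / 2) = _
      change _ + _ + (cmstepPair L).weierstrassP ((L.ω₁ / 2 + L.ω₂) / 2) = 0 at v3
      linear_combination v3 - 2 * hq
    · rw [cmstep_congr _ _ (cmstep_lattice L)]
      exact v2
    · rw [cmstep_congr _ _ (cmstep_lattice L)]
      change (cmstepPair L).weierstrassP ((L.ω₁ / 2 + L.ω₂ + L.ω₂) / 2) = _
      have h4 := (cmstepPair L).weierstrassP_add_coe (L.ω₁ / 2 / 2)
        ⟨(cmstepPair L).ω₂, (cmstepPair L).ω₂_mem_lattice⟩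
      rw [v1] at h4
      have h5 : (L.ω₁ / 2 + L.ω₂ + L.ω₂) / 2 = L.ω₁ / 2 / 2 + (cmstepPair L).ω₂ := by
        change _ = L.ω₁ / 2 / 2 + L.ω₂
        ring
      rw [h5]
      simp only at h4
      rw [h4]
      linear_combination 2 * hq

end Pool.Agent.AO
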