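import Pool.Agent.Lib.MP_779fbc_ag.Base

open Set Topology Filter

noncomputable section

namespace Pool.Agent.AO

/-! # E9: the real sequence of half period values -/

theorem eseq_aux_pos {a b c : ℝ} (h1 : b < c) (h2 : c < a) (h3 : a + b + c = 0) :
    0 < a ∧ 0 < Real.sqrt ((a - b) * (a - c)) ∧
      4 * Real.sqrt ((a - b) * (a - c)) ^ 2 = 9 * a ^ 2 - (b - c) ^ 2 ∧
      2 * Real.sqrt ((a - b) * (a - c)) < 3 * a := by
  have ha : 0 < a := by linarith
  have hprod : 0 < (a - b) * (a - c) := mul_pos (by linarith) (by linarith)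
  have hr : 0 < Real.sqrt ((a - b) * (a - c)) := Real.sqrt_pos.2 hprod
  have hsq : 4 * Real.sqrt ((a - b) * (a - c)) ^ 2 = 9 * a ^ 2 - (b - c) ^ 2 := by
    rw [Real.sq_sqrt hprod.le]
    have hc : c = -a - b := by linarith
    subst hc; ring
  refine ⟨ha, hr, hsq, ?_⟩
  refine lt_of_pow_lt_pow_left₀ 2 (by linarith) ?_
  have h4 : 0 < (b - c) ^ 2 := by
    have : b - c ≠ 0 := by intro h; linarith
    positivity
  nlinarith

theorem eseq_order (n : ℕ) : (eseq n).2.1 < (eseq n).2.2 ∧ (eseq n).2.2 < (eseq n).1 ∧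
    (eseq n).1 + (eseq n).2.1 + (eseq n).2.2 = 0 := by
  induction n with
  | zero => simp [eseq]
  | succ n ih =>
    obtain ⟨h1, h2, h3⟩ := ih
    obtain ⟨ha, hr, -, hlt⟩ := eseq_aux_pos h1 h2 h3
    simp only [eseq]
    refine ⟨by linarith, by linarith, by ring⟩

theorem eseq_algebraic (n : ℕ) : IsAlgebraic ℚ (eseq n).1 ∧ IsAlgebraic ℚ (eseq n).2.1 ∧
    IsAlgebraic ℚ (eseq n).2.2 := by
  induction n with
  | zero =>
    simp only [eseq]
    exact ⟨isAlgebraic_one, isAlgebraic_one.neg, isAlgebraic_zero⟩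
  | succ n ih =>
    obtain ⟨h1, h2, h3⟩ := ih
    obtain ⟨o1, o2, o3⟩ := eseq_order n
    have hprod : 0 ≤ ((eseq n).1 - (eseq n).2.1) * ((eseq n).1 - (eseq n).2.2) :=
      (mul_pos (by linarith) (by linarith)).le
    have hs : IsAlgebraic ℚ
        (Real.sqrt (((eseq n).1 - (eseq n).2.1) * ((eseq n).1 - (eseq n).2.2))) := by
      refine IsAlgebraic.of_pow (n := 2) (by norm_num) ?_
      rw [Real.sq_sqrt hprod]
      exact (h1.sub h2).mul (h1.sub h3)
    have h22 : IsAlgebraic ℚ (2 : ℝ) := by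
      have := isAlgebraic_algebraMap (R := ℚ) (A := ℝ) 2
      simpa using this
    simp only [eseq]
    exact ⟨h1.add (h22.mul hs), h22.neg.mul h1, h1.sub (h22.mul hs)⟩

theorem eseq_aux_ksq_pos (n : ℕ) : 0 < ksq n ∧ ksq n < 1 := by
  obtain ⟨o1, o2, o3⟩ := eseq_order n
  have h : 0 < (eseq n).1 - (eseq n).2.1 := by linarith
  refine ⟨div_pos (by linarith) h, ?_⟩
  rw [ksq, div_lt_one h]; linarith

theorem eseq_aux_ksq_succ (n : ℕ) : ksq (n + 1) < ksq n := by
  obtain ⟨o1, o2, o3⟩ := eseq_order n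
  obtain ⟨k1, k2⟩ := eseq_aux_ksq_pos n
  obtain ⟨ha, hr, hsq, hlt⟩ := eseq_aux_pos o1 o2 o3
  set r := Real.sqrt (((eseq n).1 - (eseq n).2.1) * ((eseq n).1 - (eseq n).2.2)) with hrdef
  set a := (eseq n).1
  set b := (eseq n).2.1
  set c := (eseq n).2.2
  have e1 : ksq (n + 1) = (3 * a - 2 * r) / (3 * a + 2 * r) := by
    simp only [ksq, eseq]
    change (a - 2 * r - -2 * a) / (a + 2 * r - -2 * a) = _
    congr 1 <;> ring
  have e2 : ksq n = (c - b) / (a - b) := rfl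
  have hab : 0 < a - b := by linarith
  have hden : 0 < 3 * a + 2 * r := by linarith
  have h1 : ksq (n + 1) = ((c - b) / (3 * a + 2 * r)) ^ 2 := by
    rw [e1, div_pow, div_eq_div_iff hden.ne' (pow_pos hden 2).ne']
    have : (c - b) ^ 2 = (3 * a - 2 * r) * (3 * a + 2 * r) := by nlinarith
    rw [this]; ring
  have h2 : (c - b) / (3 * a + 2 * r) < (c - b) / (a - b) :=
    div_lt_div_of_pos_left (by linarith) hab (by linarith)
  have h3 : 0 < (c - b) / (3 * a + 2 * r) := div_pos (by linarith) hden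
  rw [h1]
  rw [e2] at k1 k2 ⊢
  calc ((c - b) / (3 * a + 2 * r)) ^ 2 < ((c - b) / (a - b)) ^ 2 :=
        pow_lt_pow_left₀ h2 h3.le (by norm_num)
    _ ≤ (c - b) / (a - b) := by nlinarith

theorem ksq_strictAnti : StrictAnti ksq := strictAnti_nat_of_succ_lt eseq_aux_ksq_succ

theorem ksq_mem (n : ℕ) : 0 < ksq (n + 1) ∧ ksq (n + 1) < 1 / 2 := by
  refine ⟨(eseq_aux_ksq_pos _).1, ?_⟩
  have h := ksq_strictAnti (Nat.succ_pos n)
  have h0 : ksq 0 = 1 / 2 := by
    simp only [ksq, eseq]; norm_num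
  rw [← h0]; exact h

end Pool.Agent.AO
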