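import Pool.Agent.Lib.MP_779fbc_ag.Base

/-! # The family: polynomial identities -/

open Set Topology Filter

noncomputable section

namespace Pool.Agent.AO

theorem quintic_fam (h x : ℂ) :
    quintic (fam h) x = (x + h) * ((x + h) ^ 2 - 1) * ((x + h) ^ 2 - 5 * h * (x + h) + 1) := by
  simp only [quintic, fam, Matrix.cons_val_zero, Matrix.cons_val_one, Matrix.cons_val]
  ring

theorem quintic_scale (l : ℂ) (a : Fin 4 → ℂ) (x : ℂ) :
    quintic (scale l a) (l * x) = l ^ 5 * quintic a x := by
  simp only [quintic, scale]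
  norm_num
  ring

theorem fam_aux_quintic'_scale (l : ℂ) (a : Fin 4 → ℂ) (x : ℂ) :
    quintic' (scale l a) (l * x) = l ^ 4 * quintic' a x := by
  simp only [quintic', scale]
  norm_num
  ring

theorem fam_aux_quintic'_fam (h x : ℂ) :
    quintic' (fam h) x = (3 * (x + h) ^ 2 - 1) * ((x + h) ^ 2 - 5 * h * (x + h) + 1)
      + (x + h) * ((x + h) ^ 2 - 1) * (2 * (x + h) - 5 * h) := by
  simp only [quintic', fam, Matrix.cons_val_zero, Matrix.cons_val_one, Matrix.cons_val]
  ring

theorem quintic_hh {m : ℂ} (hm : m ≠ 0) (x : ℂ) :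
    quintic (fam (hh m)) x
      = (x - (-1 - hh m)) * (x - (0 - hh m)) * (x - (m - hh m)) * (x - (1 - hh m))
        * (x - (1 / m - hh m)) := by
  rw [quintic_fam]
  have h : 5 * hh m = m + 1 / m := by unfold hh; ring
  rw [h]
  have h2 : (x + hh m) ^ 2 - (m + 1 / m) * (x + hh m) + 1
      = (x - (m - hh m)) * (x - (1 / m - hh m)) := by
    field_simp
    ring
  rw [h2]
  ring

theorem squareFree_fam {h : ℂ} (hh : 25 * h ^ 2 ≠ 4) : SquareFree (fam h) := by
  intro x hx hx'
  rw [quintic_fam] at hx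
  rw [fam_aux_quintic'_fam] at hx'
  set w := x + h with hw
  apply hh
  have h5 : ∀ a b : ℂ, a = 0 → b = 0 → a * b = 0 := fun a b h _ => by rw [h, zero_mul]
  rcases mul_eq_zero.1 hx with h1 | h1
  · rcases mul_eq_zero.1 h1 with h2 | h2
    · rw [h2] at hx'
      norm_num at hx'
    · -- w^2 = 1
      have hw2 : w ^ 2 = 1 := by linear_combination h2
      have h3 : (w ^ 2 - 5 * h * w + 1) = 0 := by
        have : 2 * (w ^ 2 - 5 * h * w + 1) = 0 := by
          linear_combination hx' - (3 * (w ^ 2 - 5 * h * w + 1) + w * (2 * w - 5 * h)) * h2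
        simpa using this
      have h4 : 5 * h * w = 2 := by linear_combination -h3 + hw2
      linear_combination (5 * h * w + 2) * h4 - 25 * h ^ 2 * hw2
  · have h6 : w * (w ^ 2 - 1) * (2 * w - 5 * h) = 0 := by
      linear_combination hx' - (3 * w ^ 2 - 1) * h1
    rcases mul_eq_zero.1 h6 with h7 | h7
    · rcases mul_eq_zero.1 h7 with h8 | h8
      · rw [h8] at h1
        norm_num at h1
      · have hw2 : w ^ 2 = 1 := by linear_combination h8
        have h4 : 5 * h * w = 2 := by linear_combination -h1 + hw2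
        linear_combination (5 * h * w + 2) * h4 - 25 * h ^ 2 * hw2
    · have h9 : 5 * h = 2 * w := by linear_combination -h7
      have h10 : w ^ 2 = 1 := by
        have : w ^ 2 - (2 * w) * w + 1 = 0 := by rw [← h9]; exact h1
        linear_combination -this
      linear_combination (5 * h + 2 * w) * h9 + 4 * h10

theorem squareFree_scale {l : ℂ} (hl : l ≠ 0) {a : Fin 4 → ℂ} (ha : SquareFree a) :
    SquareFree (scale l a) := by
  intro x hx hx'
  obtain ⟨z, rfl⟩ : ∃ z, x = l * z := ⟨x / l, by field_simp⟩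
  rw [quintic_scale] at hx
  rw [fam_aux_quintic'_scale] at hx'
  exact ha z ((mul_eq_zero.1 hx).resolve_left (pow_ne_zero _ hl))
    ((mul_eq_zero.1 hx').resolve_left (pow_ne_zero _ hl))

theorem scale_scale (l m : ℂ) (a : Fin 4 → ℂ) : scale l (scale m a) = scale (l * m) a := by
  funext i
  simp only [scale, mul_pow]
  ring

theorem mem_famW {l h : ℂ} (hl : l ≠ 0) (hh : 25 * h ^ 2 ≠ 4) : scale l (fam h) ∈ famW :=
  ⟨squareFree_scale hl (squareFree_fam hh), fun _ hg => hg l h⟩

end Pool.Agent.AO
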