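import Pool.Agent.Lib.MP_779fbc_ag.Inj
import Pool.Agent.Lib.MP_779fbc_ag.Liou

/-! # E4: the half periods -/

open Set Topology Filter

noncomputable section

namespace Pool.Agent.AO


theorem halfper_deriv (L : PeriodPair) {w : ℂ} (hw : 2 * w ∈ L.lattice) :
    L.derivWeierstrassP w = 0 := by
  have h1 := L.derivWeierstrassP_add_coe (-w) ⟨2 * w, hw⟩
  have e : -w + 2 * w = w := by ring
  simp only [e, L.derivWeierstrassP_neg] at h1
  linear_combination h1 / 2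

theorem halfper_ne (L : PeriodPair) {a b : ℚ} (h : ¬ (a.den = 1 ∧ b.den = 1)) {z w : ℂ}
    (hz : z ∉ L.lattice) (hw : w ∉ L.lattice)
    (hz2 : 2 * z ∈ L.lattice) (hw2 : 2 * w ∈ L.lattice) (e : z - w = a * L.ω₁ + b * L.ω₂) :
    L.weierstrassP z ≠ L.weierstrassP w := by
  intro hcon
  have h2 := weierstrass_inj L hz hw hcon (by rw [halfper_deriv L hz2, halfper_deriv L hw2])
  rw [e, L.mul_ω₁_add_mul_ω₂_mem_lattice] at h2
  exact h h2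

-- E4 (file HalfPeriods)
theorem half_periods (L : PeriodPair) {e₁ e₂ e₃ : ℂ} (h1 : L.weierstrassP (L.ω₁ / 2) = e₁)
    (h2 : L.weierstrassP (L.ω₂ / 2) = e₂) (h3 : L.weierstrassP ((L.ω₁ + L.ω₂) / 2) = e₃) :
    (e₁ ≠ e₂ ∧ e₂ ≠ e₃ ∧ e₁ ≠ e₃) ∧ e₁ + e₂ + e₃ = 0 ∧
      L.g₂ = -4 * (e₁ * e₂ + e₂ * e₃ + e₃ * e₁) ∧ L.g₃ = 4 * (e₁ * e₂ * e₃) := by
  have n1 : L.ω₁ / 2 ∉ L.lattice := L.ω₁_div_two_notMem_lattice
  have n2 : L.ω₂ / 2 ∉ L.lattice := L.ω₂_div_two_notMem_lattice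
  have n3 : (L.ω₁ + L.ω₂) / 2 ∉ L.lattice := by
    have e : (L.ω₁ + L.ω₂) / 2 = ((1 / 2 : ℚ) : ℂ) * L.ω₁ + ((1 / 2 : ℚ) : ℂ) * L.ω₂ := by
      push_cast
      ring
    rw [e, L.mul_ω₁_add_mul_ω₂_mem_lattice]
    norm_num
  have m1 : 2 * (L.ω₁ / 2) ∈ L.lattice := by
    rw [mul_div_cancel₀ _ (two_ne_zero)]
    exact L.ω₁_mem_lattice
  have m2 : 2 * (L.ω₂ / 2) ∈ L.lattice := by
    rw [mul_div_cancel₀ _ (two_ne_zero)]
    exact L.ω₂_mem_lattice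
  have m3 : 2 * ((L.ω₁ + L.ω₂) / 2) ∈ L.lattice := by
    rw [mul_div_cancel₀ _ (two_ne_zero)]
    exact add_mem L.ω₁_mem_lattice L.ω₂_mem_lattice
  have d12 : e₁ ≠ e₂ := by
    rw [← h1, ← h2]
    refine halfper_ne L (a := 1 / 2) (b := -(1 / 2)) (by norm_num) n1 n2 m1 m2 ?_
    push_cast
    ring
  have d23 : e₂ ≠ e₃ := by
    rw [← h2, ← h3]
    refine halfper_ne L (a := -(1 / 2)) (b := 0) (by norm_num) n2 n3 m2 m3 ?_
    push_cast
    ring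
  have d13 : e₁ ≠ e₃ := by
    rw [← h1, ← h3]
    refine halfper_ne L (a := 0) (b := -(1 / 2)) (by norm_num) n1 n3 m1 m3 ?_
    push_cast
    ring
  have q1 := L.derivWeierstrassP_sq _ n1
  have q2 := L.derivWeierstrassP_sq _ n2
  have q3 := L.derivWeierstrassP_sq _ n3
  rw [halfper_deriv L m1, h1] at q1
  rw [halfper_deriv L m2, h2] at q2
  rw [halfper_deriv L m3, h3] at q3
  have r12 : 4 * (e₁ ^ 2 + e₁ * e₂ + e₂ ^ 2) = L.g₂ := by
    have : (e₁ - e₂) * (4 * (e₁ ^ 2 + e₁ * e₂ + e₂ ^ 2) - L.g₂) = 0 := by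
      linear_combination q2 - q1
    rcases mul_eq_zero.1 this with h | h
    · exact absurd (sub_eq_zero.1 h) d12
    · linear_combination h
  have r13 : 4 * (e₁ ^ 2 + e₁ * e₃ + e₃ ^ 2) = L.g₂ := by
    have : (e₁ - e₃) * (4 * (e₁ ^ 2 + e₁ * e₃ + e₃ ^ 2) - L.g₂) = 0 := by
      linear_combination q3 - q1
    rcases mul_eq_zero.1 this with h | h
    · exact absurd (sub_eq_zero.1 h) d13
    · linear_combination h
  have hs : e₁ + e₂ + e₃ = 0 := by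
    have : (e₂ - e₃) * (e₁ + e₂ + e₃) = 0 := by
      linear_combination (r12 - r13) / 4
    rcases mul_eq_zero.1 this with h | h
    · exact absurd (sub_eq_zero.1 h) d23
    · exact h
  have hg2 : L.g₂ = -4 * (e₁ * e₂ + e₂ * e₃ + e₃ * e₁) := by
    linear_combination -r12 + 4 * (e₁ + e₂) * hs
  have hg3 : L.g₃ = 4 * (e₁ * e₂ * e₃) := by
    linear_combination q1 - e₁ * hg2 + 4 * e₁ ^ 2 * hs
  exact ⟨⟨d12, d23, d13⟩, hs, hg2, hg3⟩

end Pool.Agent.AO
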