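import Pool.Agent.Lib.MP_779fbc_ag.Base
import Pool.Agent.Lib.MP_779fbc_ag.Fam

open Set Topology

noncomputable section

namespace Pool.Agent.AO

theorem reduce_aux_sqrt {y F : ℝ → ℂ} {F' : ℂ} {t : ℝ} (hy : Continuous y)
    (h : ∀ s, y s ^ 2 = F s) (hF : HasDerivAt F F' t) (h0 : y t ≠ 0) :
    HasDerivAt y (F' / (2 * y t)) t := by
  rw [hasDerivAt_iff_tendsto_slope] at hF ⊢
  have hsum : Filter.Tendsto (fun s => y s + y t) (𝓝[≠] t) (𝓝 (2 * y t)) := by
    have h1 : Filter.Tendsto (fun s => y s + y t) (𝓝 t) (𝓝 (y t + y t)) :=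
      (hy.tendsto t).add_const _
    rw [two_mul]
    exact h1.mono_left nhdsWithin_le_nhds
  have h2 : (2 * y t) ≠ 0 := mul_ne_zero two_ne_zero h0
  have hne : ∀ᶠ s in 𝓝[≠] t, y s + y t ≠ 0 := hsum.eventually_ne h2
  have hdiv := hF.div hsum h2
  refine hdiv.congr' ?_
  filter_upwards [hne] with s hs
  change slope F t s / (y s + y t) = slope y t s
  rw [slope_def_module, slope_def_module, ← h, ← h, div_eq_iff hs, smul_mul_assoc]
  congr 1
  ring

theorem reduce_aux_loop {e₁ e₂ e₃ k k' R S m : ℂ} (hsum : e₁ + e₂ + e₃ = 0)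
    (hkk : k ^ 2 + k' ^ 2 = 1) (hm : m = 2 * k * k') (hS0 : S ≠ 0) (hS : S ^ 2 = R)
    (hk' : R * k' ^ 2 = e₁ - e₃) (hk : R * k ^ 2 = e₃ - e₂) {w w' yh : ℝ → ℂ}
    (hw : ∀ t, HasDerivAt w (w' t) t) (hw' : Continuous w') (hyc : Continuous yh)
    (hyh : ∀ t, yh t ^ 2 = w t * (w t ^ 2 - 1) * (w t - m) * (1 - m * w t))
    (hy0 : ∀ t, yh t ≠ 0) (hcl : w 1 = w 0 ∧ yh 1 = yh 0) :
    ELoop (-4 * (e₁ * e₂ + e₂ * e₃ + e₃ * e₁)) (4 * (e₁ * e₂ * e₃))
      (fun t => R * (k' * w t - k) ^ 2 / (w t ^ 2 - 1) + e₃)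
      (fun t => 2 * S ^ 3 * (k' * w t - k) * yh t / (w t ^ 2 - 1) ^ 2)
      (fun t => (k * w t - k') * w' t / (S * yh t)) := by
  subst hS
  have hW : ∀ t, w t ^ 2 - 1 ≠ 0 := by
    intro t h
    have := hyh t
    rw [h] at this
    apply hy0 t
    have h3 : yh t ^ 2 = 0 := by rw [this]; ring
    exact pow_eq_zero_iff (two_ne_zero) |>.1 h3
  have hu1 : ∀ t, S ^ 2 * (k' * w t - k) ^ 2 / (w t ^ 2 - 1) + e₃ - e₁
      = S ^ 2 * (1 - m * w t) / (w t ^ 2 - 1) := by
    intro t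
    have hWt := hW t
    rw [show S ^ 2 * (k' * w t - k) ^ 2 / (w t ^ 2 - 1) + e₃ - e₁
      = (S ^ 2 * (k' * w t - k) ^ 2 + (e₃ - e₁) * (w t ^ 2 - 1)) / (w t ^ 2 - 1) by
        field_simp; ring]
    congr 1
    rw [hm]
    linear_combination S ^ 2 * hkk + (w t ^ 2 - 1) * hk'
  have hu2 : ∀ t, S ^ 2 * (k' * w t - k) ^ 2 / (w t ^ 2 - 1) + e₃ - e₂
      = S ^ 2 * (w t * (w t - m)) / (w t ^ 2 - 1) := by
    intro t
    have hWt := hW t
    rw [show S ^ 2 * (k' * w t - k) ^ 2 / (w t ^ 2 - 1) + e₃ - e₂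
      = (S ^ 2 * (k' * w t - k) ^ 2 + (e₃ - e₂) * (w t ^ 2 - 1)) / (w t ^ 2 - 1) by
        field_simp; ring]
    congr 1
    rw [hm]
    linear_combination S ^ 2 * w t ^ 2 * hkk - (w t ^ 2 - 1) * hk
  have hu3 : ∀ t, S ^ 2 * (k' * w t - k) ^ 2 / (w t ^ 2 - 1) + e₃ - e₃
      = S ^ 2 * (k' * w t - k) ^ 2 / (w t ^ 2 - 1) := fun t => by ring
  have hwsq : ∀ t, HasDerivAt (fun s => w s ^ 2 - 1) (2 * w t * w' t) t := by
    intro t
    refine (((hw t).pow 2).sub_const 1).congr_deriv ?_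
    norm_num
  have ha : ∀ t, HasDerivAt (fun s => k' * w s - k) (k' * w' t) t := fun t =>
    ((hw t).const_mul k').sub_const k
  constructor
  · -- derivative of u
    intro t
    have hWt := hW t
    have h1 : HasDerivAt (fun s => S ^ 2 * (k' * w s - k) ^ 2)
        (S ^ 2 * (2 * (k' * w t - k) * (k' * w' t))) t := by
      refine (((ha t).pow 2).const_mul (S ^ 2)).congr_deriv ?_
      norm_num
    have h2 := (h1.div (hwsq t) hWt).add_const e₃
    refine h2.congr_deriv ?_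
    have hyt := hy0 t
    have hD : ((w t ^ 2 - 1) ^ 2) ≠ 0 := pow_ne_zero _ hWt
    rw [div_eq_iff hD]
    field_simp
    ring
  · -- derivative of v
    intro t
    have hWt := hW t
    have hyt := hy0 t
    have hF : HasDerivAt (fun s => w s * (w s ^ 2 - 1) * (w s - m) * (1 - m * w s))
        (((w' t * (w t ^ 2 - 1) + w t * (2 * w t * w' t)) * (w t - m)
          + w t * (w t ^ 2 - 1) * w' t) * (1 - m * w t)
          + w t * (w t ^ 2 - 1) * (w t - m) * (-(m * w' t))) t := by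
      have h1 := ((hw t).mul (hwsq t)).mul ((hw t).sub_const m)
      have h2 : HasDerivAt (fun s => 1 - m * w s) (-(m * w' t)) t := by
        simpa using ((hw t).const_mul m).const_sub 1
      exact h1.mul h2
    have hyd := reduce_aux_sqrt hyc hyh hF hyt
    set D := (((w' t * (w t ^ 2 - 1) + w t * (2 * w t * w' t)) * (w t - m)
          + w t * (w t ^ 2 - 1) * w' t) * (1 - m * w t)
          + w t * (w t ^ 2 - 1) * (w t - m) * (-(m * w' t))) / (2 * yh t) with hDdef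
    have hD : 2 * yh t * D = (((w' t * (w t ^ 2 - 1) + w t * (2 * w t * w' t)) * (w t - m)
          + w t * (w t ^ 2 - 1) * w' t) * (1 - m * w t)
          + w t * (w t ^ 2 - 1) * (w t - m) * (-(m * w' t))) := by
      rw [hDdef]
      field_simp
    have h1 : HasDerivAt (fun s => 2 * S ^ 3 * (k' * w s - k) * yh s)
        (2 * S ^ 3 * (k' * w' t) * yh t + 2 * S ^ 3 * (k' * w t - k) * D) t :=
      ((ha t).const_mul (2 * S ^ 3)).mul hyd
    have h2 : HasDerivAt (fun s => (w s ^ 2 - 1) ^ 2)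
        (2 * (w t ^ 2 - 1) * (2 * w t * w' t)) t := by
      refine ((hwsq t).pow 2).congr_deriv ?_
      norm_num
    have h3 := h1.div h2 (pow_ne_zero 2 hWt)
    refine h3.congr_deriv ?_
    symm
    have hkey : (6 * (S ^ 2 * (k' * w t - k) ^ 2 / (w t ^ 2 - 1) + e₃) ^ 2
        - -4 * (e₁ * e₂ + e₂ * e₃ + e₃ * e₁) / 2)
        = 2 * S ^ 4 / (w t ^ 2 - 1) ^ 2 * (w t * (w t - m) * (1 - m * w t)
          + (k' * w t - k) ^ 2 * (w t * (w t - m) + (1 - m * w t))) := by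
      have e1 := hu1 t
      have e2 := hu2 t
      have e3 := hu3 t
      set u := S ^ 2 * (k' * w t - k) ^ 2 / (w t ^ 2 - 1) + e₃ with hu
      have : 6 * u ^ 2 - -4 * (e₁ * e₂ + e₂ * e₃ + e₃ * e₁) / 2
          = 2 * ((u - e₁) * (u - e₂) + (u - e₂) * (u - e₃) + (u - e₃) * (u - e₁)) := by
        linear_combination (4 * u) * hsum
      rw [this, e1, e2, e3]
      field_simp
      ring
    rw [hkey]
    have hcan : S * yh t * (w t ^ 2 - 1) ^ 4 ≠ 0 :=
      mul_ne_zero (mul_ne_zero hS0 hyt) (pow_ne_zero _ hWt)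
    apply mul_left_cancel₀ hcan
    have e1 : ∀ G : ℂ, S * yh t * (w t ^ 2 - 1) ^ 4 * ((k * w t - k') * w' t / (S * yh t)
        * (2 * S ^ 4 / (w t ^ 2 - 1) ^ 2 * G))
        = 2 * S ^ 4 * (k * w t - k') * w' t * G * (w t ^ 2 - 1) ^ 2 := by
      intro G
      field_simp
    have e2 : ∀ A : ℂ, S * yh t * (w t ^ 2 - 1) ^ 4 * (A / ((w t ^ 2 - 1) ^ 2) ^ 2)
        = S * yh t * A := by
      intro A
      field_simp
    rw [e1, e2]
    have hY := hyh t
    have hid : (k * w t - k') * (w t * (w t - m) * (1 - m * w t)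
          + (k' * w t - k) ^ 2 * (w t * (w t - m) + (1 - m * w t)))
        = (w t ^ 2 - 1) * (k' * (w t * (w t - m) * (1 - m * w t)) + (k' * w t - k)
          * ((w t - m) * (1 - m * w t) + w t * (1 - m * w t) - m * w t * (w t - m)) / 2)
          - 3 * w t * (k' * w t - k) * (w t * (w t - m) * (1 - m * w t)) := by
      rw [hm]
      linear_combination (-w t ^ 4 * k' + 4 * w t ^ 3 * k * k' ^ 2 + w t ^ 3 * k
        - 4 * w t ^ 2 * k ^ 2 * k' - w t ^ 2 * k' + w t * k) * hkk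
    linear_combination (-(2 * S ^ 4 * (w t ^ 2 - 1) * w' t * ((w t ^ 2 - 1) * k'
      - 4 * (k' * w t - k) * w t))) * hY - (S ^ 4 * (w t ^ 2 - 1) ^ 2 * (k' * w t - k)) * hD
      + 2 * S ^ 4 * (w t ^ 2 - 1) ^ 2 * w' t * hid
  · -- continuity of z
    have hwc : Continuous w := continuous_iff_continuousAt.2 fun t => (hw t).continuousAt
    refine Continuous.div (((continuous_const.mul hwc).sub continuous_const).mul hw')
      (continuous_const.mul hyc) (fun t => mul_ne_zero hS0 (hy0 t))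
  · -- the equation
    intro t
    have hWt := hW t
    have e1 := hu1 t
    have e2 := hu2 t
    have e3 := hu3 t
    set u := S ^ 2 * (k' * w t - k) ^ 2 / (w t ^ 2 - 1) + e₃ with hu
    have : 4 * u ^ 3 - -4 * (e₁ * e₂ + e₂ * e₃ + e₃ * e₁) * u - 4 * (e₁ * e₂ * e₃)
        = 4 * ((u - e₁) * (u - e₂) * (u - e₃)) := by
      linear_combination (4 * u ^ 2) * hsum
    rw [this, e1, e2, e3]
    rw [div_pow, mul_pow, hyh t]
    field_simp
    ring
  · refine ⟨?_, ?_⟩
    · simp only [hcl.1]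
    · simp only [hcl.1, hcl.2]

theorem reduce {e₁ e₂ e₃ k k' R S m l K : ℂ} (hsum : e₁ + e₂ + e₃ = 0) (hkk : k ^ 2 + k' ^ 2 = 1)
    (hne : k ^ 2 ≠ k' ^ 2) (hm : m = 2 * k * k') (hm0 : m ≠ 0) (hS0 : S ≠ 0) (hS : S ^ 2 = R)
    (hk' : R * k' ^ 2 = e₁ - e₃) (hk : R * k ^ 2 = e₃ - e₂) (hl : l ≠ 0) (hK : K ^ 2 = -m / l ^ 5)
    {x y : ℝ → ℂ} (hxy : IsLoop (scale l (fam (hh m))) x y) :
    ∃ u v z u' v' z' : ℝ → ℂ,
      ELoop (-4 * (e₁ * e₂ + e₂ * e₃ + e₃ * e₁)) (4 * (e₁ * e₂ * e₃)) u v z ∧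
      ELoop (-4 * (e₁ * e₂ + e₂ * e₃ + e₃ * e₁)) (4 * (e₁ * e₂ * e₃)) u' v' z' ∧
      period x y = l * K * S / (k ^ 2 - k' ^ 2) *
        (k' * (∫ t in (0 : ℝ)..1, z t) + Complex.I * k * (∫ t in (0 : ℝ)..1, z' t)) := by
  have hK0 : K ≠ 0 := by
    intro h
    rw [h] at hK
    have : m = 0 := by
      have hl5 : l ^ 5 ≠ 0 := pow_ne_zero _ hl
      have h2 : -m / l ^ 5 = 0 := by rw [← hK]; ring
      rw [div_eq_zero_iff] at h2
      rcases h2 with h2 | h2
      · exact neg_eq_zero.1 h2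
      · exact absurd h2 hl5
    exact hm0 this
  have hwd : ∀ t, HasDerivAt (fun s => x s / l + hh m) (deriv x t / l) t := by
    intro t
    have h1 : HasDerivAt x (deriv x t) t :=
      (hxy.smooth.differentiable (by norm_num) t).hasDerivAt
    exact (h1.div_const l).add_const (hh m)
  have hw'c : Continuous (fun t => deriv x t / l) :=
    (hxy.smooth.continuous_deriv le_rfl).div_const l
  have hyc : Continuous (fun t => K * y t) := continuous_const.mul hxy.cont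
  have hy0 : ∀ t, K * y t ≠ 0 := fun t => mul_ne_zero hK0 (hxy.ne t)
  have hyh : ∀ t, (K * y t) ^ 2 = (x t / l + hh m) * ((x t / l + hh m) ^ 2 - 1)
      * ((x t / l + hh m) - m) * (1 - m * (x t / l + hh m)) := by
    intro t
    rw [mul_pow, hK, hxy.curve t]
    have hx : x t = l * (x t / l) := by field_simp
    set X := x t / l with hX
    rw [hx]
    simp only [quintic, scale, fam, hh, Matrix.cons_val_zero, Matrix.cons_val_one,
      Matrix.cons_val]
    simp
    field_simp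
    ring
  have hcl : (x 1 / l + hh m) = (x 0 / l + hh m) ∧ K * y 1 = K * y 0 := by
    rw [hxy.closed.1, hxy.closed.2]
    exact ⟨rfl, rfl⟩
  have L1 := reduce_aux_loop hsum hkk hm hS0 hS hk' hk hwd hw'c hyc hyh hy0 hcl
  have hS2 : (-Complex.I * S) ^ 2 = -R := by
    rw [mul_pow, hS, neg_sq, Complex.I_sq]
    ring
  have hS20 : -Complex.I * S ≠ 0 := mul_ne_zero (neg_ne_zero.2 Complex.I_ne_zero) hS0
  have L2 := reduce_aux_loop (e₁ := e₂) (e₂ := e₁) (e₃ := e₃) (k := k') (k' := k) (R := -R)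
    (S := -Complex.I * S) (m := m) (by rw [← hsum]; ring) (by rw [← hkk]; ring)
    (by rw [hm]; ring) hS20 hS2 (by linear_combination -hk) (by linear_combination -hk')
    hwd hw'c hyc hyh hy0 hcl
  have g2eq : -4 * (e₂ * e₁ + e₁ * e₃ + e₃ * e₂) = -4 * (e₁ * e₂ + e₂ * e₃ + e₃ * e₁) := by ring
  have g3eq : 4 * (e₂ * e₁ * e₃) = 4 * (e₁ * e₂ * e₃) := by ring
  rw [g2eq, g3eq] at L2
  refine ⟨_, _, _, _, _, _, L1, L2, ?_⟩
  have hkne : k ^ 2 - k' ^ 2 ≠ 0 := sub_ne_zero.2 hne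
  have i1 : IntervalIntegrable (fun t => (k * (x t / l + hh m) - k') * (deriv x t / l)
      / (S * (K * y t))) MeasureTheory.volume 0 1 := L1.hz.intervalIntegrable _ _
  have i2 : IntervalIntegrable (fun t => (k' * (x t / l + hh m) - k) * (deriv x t / l)
      / (-Complex.I * S * (K * y t))) MeasureTheory.volume 0 1 := L2.hz.intervalIntegrable _ _
  rw [← intervalIntegral.integral_const_mul, ← intervalIntegral.integral_const_mul,
    ← intervalIntegral.integral_add (i1.const_mul _) (i2.const_mul _),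
    ← intervalIntegral.integral_const_mul]
  unfold period
  apply intervalIntegral.integral_congr
  intro t _
  have hyt := hxy.ne t
  simp only
  have hI : Complex.I ≠ 0 := Complex.I_ne_zero
  field_simp
  ring_nf
  try simp
  try ring

end Pool.Agent.AO
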