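import Pool.Agent.Lib.MP_779fbc_ag.ELoopPeriod
import Pool.Agent.Lib.MP_779fbc_ag.HalfPeriods
import Pool.Agent.Lib.MP_779fbc_ag.CMStep
import Pool.Agent.Lib.MP_779fbc_ag.CMBase
import Pool.Agent.Lib.MP_779fbc_ag.Eseq
import Pool.Agent.Lib.MP_779fbc_ag.Reduce
import Pool.Agent.Lib.MP_779fbc_ag.Fam

/-!
# R2: the arithmetic points of the family
-/

open Set Topology Filter

noncomputable section

namespace Pool.Agent.AO


/-! ## algebraic numbers -/

theorem arith_aux_nat (n : ℕ) : IsAlgebraic ℚ (n : ℂ) := isAlgebraic_natCast n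

theorem arith_aux_real {x : ℝ} (hx : IsAlgebraic ℚ x) : IsAlgebraic ℚ (x : ℂ) := by
  have := hx.algebraMap (A := ℂ)
  exact this

theorem arith_aux_sqrt {x : ℝ} (h0 : 0 ≤ x) (hx : IsAlgebraic ℚ x) :
    IsAlgebraic ℚ (Real.sqrt x) := by
  refine IsAlgebraic.of_pow (n := 2) (by norm_num) ?_
  rw [Real.sq_sqrt h0]
  exact hx

theorem arith_aux_I : IsAlgebraic ℚ Complex.I := by
  refine IsAlgebraic.of_pow (n := 2) (by norm_num) ?_
  rw [Complex.I_sq]
  exact isAlgebraic_one.neg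

theorem arith_aux_hh {m : ℂ} (hm : IsAlgebraic ℚ m) : IsAlgebraic ℚ (hh m) := by
  unfold hh
  have h5 := arith_aux_nat 5
  have : (m + 1 / m) / 5 = (m + m⁻¹) * ((5 : ℕ) : ℂ)⁻¹ := by
    push_cast
    rw [div_eq_mul_inv, one_div]
  rw [this]
  exact (hm.add hm.inv).mul h5.inv

theorem arith_aux_fam {h : ℂ} (hh : IsAlgebraic ℚ h) (i : Fin 4) : IsAlgebraic ℚ (fam h i) := by
  have h10 := arith_aux_nat 10
  have h5 := arith_aux_nat 5
  have h20 := arith_aux_nat 20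
  have h15 := arith_aux_nat 15
  have h4 := arith_aux_nat 4
  have h1 := arith_aux_nat 1
  push_cast at h10 h5 h20 h15 h4 h1
  fin_cases i
  · show IsAlgebraic ℚ (-10 * h ^ 2)
    exact h10.neg.mul (hh.pow 2)
  · show IsAlgebraic ℚ (5 * h - 20 * h ^ 3)
    exact (h5.mul hh).sub (h20.mul (hh.pow 3))
  · show IsAlgebraic ℚ (-1 + 10 * h ^ 2 - 15 * h ^ 4)
    exact (h1.neg.add (h10.mul (hh.pow 2))).sub (h15.mul (hh.pow 4))
  · show IsAlgebraic ℚ (-h + 5 * h ^ 3 - 4 * h ^ 5)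
    exact (hh.neg.add (h5.mul (hh.pow 3))).sub (h4.mul (hh.pow 5))

/-! ## the moduli -/

theorem arith_aux_cm (n : ℕ) : CMTriple ((eseq n).1 : ℂ) ((eseq n).2.1 : ℂ) ((eseq n).2.2 : ℂ) := by
  induction n with
  | zero =>
    have h := cm_base
    simpa [eseq] using h
  | succ n ih =>
    obtain ⟨h1, h2, h3⟩ := eseq_order n
    have hpos : 0 ≤ ((eseq n).1 - (eseq n).2.1) * ((eseq n).1 - (eseq n).2.2) :=
      mul_nonneg (by linarith) (by linarith)
    have hr : ((Real.sqrt (((eseq n).1 - (eseq n).2.1) * ((eseq n).1 - (eseq n).2.2)) : ℝ) : ℂ) ^ 2 =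
        (((eseq n).1 : ℂ) - ((eseq n).2.1 : ℂ)) * (((eseq n).1 : ℂ) - ((eseq n).2.2 : ℂ)) := by
      rw [← Complex.ofReal_pow, Real.sq_sqrt hpos]
      push_cast
      ring
    have h := cm_step ih hr
    have e1 : (((eseq (n + 1)).1 : ℝ) : ℂ) = ((eseq n).1 : ℂ) + 2 *
        ((Real.sqrt (((eseq n).1 - (eseq n).2.1) * ((eseq n).1 - (eseq n).2.2)) : ℝ) : ℂ) := by
      simp only [eseq]
      push_cast
      ring
    have e2 : (((eseq (n + 1)).2.1 : ℝ) : ℂ) = -2 * ((eseq n).1 : ℂ) := by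
      simp only [eseq]
      push_cast
      ring
    have e3 : (((eseq (n + 1)).2.2 : ℝ) : ℂ) = ((eseq n).1 : ℂ) - 2 *
        ((Real.sqrt (((eseq n).1 - (eseq n).2.1) * ((eseq n).1 - (eseq n).2.2)) : ℝ) : ℂ) := by
      simp only [eseq]
      push_cast
      ring
    rw [e1, e2, e3]
    exact h

/-- `k_n` -/
def arith_aux_k (n : ℕ) : ℝ := Real.sqrt (ksq (n + 1))

/-- `k_n'` -/
def arith_aux_k' (n : ℕ) : ℝ := Real.sqrt (1 - ksq (n + 1))

/-- `m_n` -/
def arith_aux_m (n : ℕ) : ℝ := 2 * arith_aux_k n * arith_aux_k' n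

theorem arith_aux_ksq (n : ℕ) : arith_aux_k n ^ 2 = ksq (n + 1) :=
  Real.sq_sqrt (ksq_mem n).1.le

theorem arith_aux_ksq' (n : ℕ) : arith_aux_k' n ^ 2 = 1 - ksq (n + 1) :=
  Real.sq_sqrt (by linarith [(ksq_mem n).2])

theorem arith_aux_msq (n : ℕ) : arith_aux_m n ^ 2 = 4 * ksq (n + 1) * (1 - ksq (n + 1)) := by
  unfold arith_aux_m
  rw [mul_pow, mul_pow, arith_aux_ksq, arith_aux_ksq']
  ring

theorem arith_aux_m_pos (n : ℕ) : 0 < arith_aux_m n := by
  have h1 : 0 < arith_aux_k n := Real.sqrt_pos.2 (ksq_mem n).1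
  have h2 : 0 < arith_aux_k' n := Real.sqrt_pos.2 (by linarith [(ksq_mem n).2])
  unfold arith_aux_m
  positivity

theorem arith_aux_m_lt (n : ℕ) : arith_aux_m n < 1 := by
  have h1 := arith_aux_msq n
  have h2 := arith_aux_m_pos n
  have h3 := (ksq_mem n).2
  have h4 : (1 - 2 * ksq (n + 1)) ^ 2 = 1 - arith_aux_m n ^ 2 := by rw [h1]; ring
  have h5 : 0 < (1 - 2 * ksq (n + 1)) ^ 2 := by
    have : 0 < 1 - 2 * ksq (n + 1) := by linarith
    positivity
  nlinarith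

theorem arith_aux_m_inj : Function.Injective arith_aux_m := by
  intro a b hab
  have h1 := arith_aux_msq a
  have h2 := arith_aux_msq b
  rw [hab, h2] at h1
  have ha := (ksq_mem a).2
  have hb := (ksq_mem b).2
  have h3 : (ksq (a + 1) - ksq (b + 1)) * (1 - ksq (a + 1) - ksq (b + 1)) = 0 := by linarith
  rcases mul_eq_zero.1 h3 with h | h
  · have := ksq_strictAnti.injective (sub_eq_zero.1 h)
    omega
  · linarith

theorem arith_aux_ksq_alg (n : ℕ) : IsAlgebraic ℚ (ksq n) := by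
  obtain ⟨h1, h2, h3⟩ := eseq_algebraic n
  unfold ksq
  rw [div_eq_mul_inv]
  exact (h3.sub h2).mul (h1.sub h2).inv

theorem arith_aux_k_alg (n : ℕ) : IsAlgebraic ℚ (arith_aux_k n) :=
  arith_aux_sqrt (ksq_mem n).1.le (arith_aux_ksq_alg _)

theorem arith_aux_k'_alg (n : ℕ) : IsAlgebraic ℚ (arith_aux_k' n) :=
  arith_aux_sqrt (by linarith [(ksq_mem n).2]) (isAlgebraic_one.sub (arith_aux_ksq_alg _))

theorem arith_aux_m_alg (n : ℕ) : IsAlgebraic ℚ (arith_aux_m n) := by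
  unfold arith_aux_m
  have h2 : IsAlgebraic ℚ (2 : ℝ) := by exact_mod_cast isAlgebraic_natCast (R := ℚ) (A := ℝ) 2
  exact (h2.mul (arith_aux_k_alg n)).mul (arith_aux_k'_alg n)

theorem arith_aux_hh_cast (m : ℝ) : hh (m : ℂ) = (((m + 1 / m) / 5 : ℝ) : ℂ) := by
  unfold hh
  push_cast
  ring

theorem arith_aux_hh_inj : Function.Injective (fun n => hh (arith_aux_m n : ℂ)) := by
  intro a b hab
  simp only [arith_aux_hh_cast] at hab
  have h1 : (arith_aux_m a + 1 / arith_aux_m a) / 5 = (arith_aux_m b + 1 / arith_aux_m b) / 5 := by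
    exact_mod_cast hab
  have ha := arith_aux_m_pos a
  have hb := arith_aux_m_pos b
  have ha1 := arith_aux_m_lt a
  have hb1 := arith_aux_m_lt b
  apply arith_aux_m_inj
  have h2 : (arith_aux_m a - arith_aux_m b) * (arith_aux_m a * arith_aux_m b - 1) = 0 := by
    field_simp at h1
    linarith
  rcases mul_eq_zero.1 h2 with h | h
  · linarith
  · nlinarith

theorem arith_aux_hh_ne (n : ℕ) : 25 * (hh (arith_aux_m n : ℂ)) ^ 2 ≠ 4 := by
  rw [arith_aux_hh_cast]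
  intro h
  have h1 : 25 * ((arith_aux_m n + 1 / arith_aux_m n) / 5) ^ 2 = 4 := by exact_mod_cast h
  have ha := arith_aux_m_pos n
  have ha1 := arith_aux_m_lt n
  have h2 : 2 < arith_aux_m n + 1 / arith_aux_m n := by
    have : arith_aux_m n + 1 / arith_aux_m n - 2 = (1 - arith_aux_m n) ^ 2 / arith_aux_m n := by
      field_simp
      ring
    have h3 : 0 < (1 - arith_aux_m n) ^ 2 / arith_aux_m n := by
      have : 0 < 1 - arith_aux_m n := by linarith
      positivity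
    linarith
  nlinarith

theorem arith_aux_point (n : ℕ) {l : ℂ} (hl : l ≠ 0) :
    IsArithmetic (scale l (fam (hh (arith_aux_m n : ℂ)))) := by
  constructor
  · refine ⟨l⁻¹, inv_ne_zero hl, fun i => ?_⟩
    have e : scale l⁻¹ (scale l (fam (hh (arith_aux_m n : ℂ)))) i =
        fam (hh (arith_aux_m n : ℂ)) i := by
      unfold scale
      rw [← mul_assoc, ← mul_pow, inv_mul_cancel₀ hl, one_pow, one_mul]
    rw [e]
    exact arith_aux_fam (arith_aux_hh (arith_aux_real (arith_aux_m_alg n))) i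
  · obtain ⟨L, p, hp, h1, h2, h3⟩ := arith_aux_cm (n + 1)
    obtain ⟨-, hsum, hg2, hg3⟩ := half_periods L h1 h2 h3
    obtain ⟨o1, o2, o3⟩ := eseq_order (n + 1)
    set E := eseq (n + 1) with hE
    have hR : 0 < E.1 - E.2.1 := by linarith
    have hkdef : ksq (n + 1) = (E.2.2 - E.2.1) / (E.1 - E.2.1) := rfl
    obtain ⟨K, hK⟩ := IsAlgClosed.exists_pow_nat_eq (-(arith_aux_m n : ℂ) / l ^ 5)
      (n := 2) (by norm_num)
    have hkC : ((arith_aux_k n : ℝ) : ℂ) ^ 2 = ((ksq (n + 1) : ℝ) : ℂ) := by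
      rw [← arith_aux_ksq n]; push_cast; ring
    have hkC' : ((arith_aux_k' n : ℝ) : ℂ) ^ 2 = ((1 - ksq (n + 1) : ℝ) : ℂ) := by
      rw [← arith_aux_ksq' n]; push_cast; ring
    have hne : ((arith_aux_k n : ℝ) : ℂ) ^ 2 ≠ ((arith_aux_k' n : ℝ) : ℂ) ^ 2 := by
      rw [hkC, hkC']
      intro h
      have h' : ksq (n + 1) = 1 - ksq (n + 1) := by exact_mod_cast h
      have := (ksq_mem n).2
      linarith
    refine ⟨l * K * ((Real.sqrt (E.1 - E.2.1) : ℝ) : ℂ) /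
      (((arith_aux_k n : ℝ) : ℂ) ^ 2 - ((arith_aux_k' n : ℝ) : ℂ) ^ 2) * p, fun x y hxy => ?_⟩
    obtain ⟨u, v, z, u', v', z', hu, hu', hper⟩ := reduce (e₁ := (E.1 : ℂ)) (e₂ := (E.2.1 : ℂ))
      (e₃ := (E.2.2 : ℂ)) (k := (arith_aux_k n : ℂ)) (k' := (arith_aux_k' n : ℂ))
      (R := ((E.1 - E.2.1 : ℝ) : ℂ)) (S := ((Real.sqrt (E.1 - E.2.1) : ℝ) : ℂ))
      (m := (arith_aux_m n : ℂ)) (l := l) (K := K) hsum
      (by rw [hkC, hkC']; push_cast; ring) hne
      (by unfold arith_aux_m; push_cast; ring)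
      (by exact_mod_cast (arith_aux_m_pos n).ne')
      (by exact_mod_cast (Real.sqrt_pos.2 hR).ne')
      (by rw [← Complex.ofReal_pow, Real.sq_sqrt hR.le])
      (by
        rw [hkC', ← Complex.ofReal_mul, ← Complex.ofReal_sub, hkdef]
        congr 1
        field_simp
        ring)
      (by
        rw [hkC, ← Complex.ofReal_mul, ← Complex.ofReal_sub, hkdef]
        congr 1
        field_simp)
      hl hK hxy
    rw [← hg2, ← hg3] at hu hu'
    obtain ⟨b, hb, hzb⟩ := hp _ (eloop_period L hu)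
    obtain ⟨b', hb', hzb'⟩ := hp _ (eloop_period L hu')
    refine ⟨(arith_aux_k' n : ℂ) * b + Complex.I * (arith_aux_k n : ℂ) * b', ?_, ?_⟩
    · exact ((arith_aux_real (arith_aux_k'_alg n)).mul hb).add
        ((arith_aux_I.mul (arith_aux_real (arith_aux_k_alg n))).mul hb')
    · rw [hper, hzb, hzb']
      ring

theorem exists_arithmetic : ∃ H : Set ℂ, H.Infinite ∧ (∀ h ∈ H, 25 * h ^ 2 ≠ 4) ∧
    ∀ h ∈ H, ∀ l : ℂ, l ≠ 0 → IsArithmetic (scale l (fam h)) := by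
  refine ⟨Set.range (fun n => hh (arith_aux_m n : ℂ)),
    Set.infinite_range_of_injective arith_aux_hh_inj, ?_, ?_⟩
  · rintro h ⟨n, rfl⟩
    exact arith_aux_hh_ne n
  · rintro h ⟨n, rfl⟩ l hl
    exact arith_aux_point n hl

end Pool.Agent.AO
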