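import Pool.Agent.Lib.MP_779fbc_ag.Defs

/-! # Internal definitions for MP_779fbc_ag -/

open Set Topology

noncomputable section

namespace Pool.Agent.AO

/-- `quintic (fam h) x = w (w² - 1) (w² - 5 h w + 1)` with `w = x + h`. -/
def fam (h : ℂ) : Fin 4 → ℂ :=
  ![-10 * h ^ 2, 5 * h - 20 * h ^ 3, -1 + 10 * h ^ 2 - 15 * h ^ 4, -h + 5 * h ^ 3 - 4 * h ^ 5]

/-- the counterexample: Zariski closure (in the stratum) of the family -/
def famW : Set (Fin 4 → ℂ) :=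
  {a | SquareFree a ∧ ∀ g : MvPolynomial (Fin 4) ℂ,
    (∀ l h : ℂ, MvPolynomial.eval (scale l (fam h)) g = 0) → MvPolynomial.eval a g = 0}

/-- `quintic (fam (hh m)) x = w (w² - 1) (w - m) (w - 1/m)` with `w = x + hh m`. -/
def hh (m : ℂ) : ℂ := (m + 1 / m) / 5

/-- A closed curve on the affine curve `v² = 4 u³ - g₂ u - g₃` (points with `v = 0` allowed);
`z dt` is the pull-back of `du / v`. -/
structure ELoop (g₂ g₃ : ℂ) (u v z : ℝ → ℂ) : Prop where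
  hu : ∀ t, HasDerivAt u (z t * v t) t
  hv : ∀ t, HasDerivAt v (z t * (6 * u t ^ 2 - g₂ / 2)) t
  hz : Continuous z
  curve : ∀ t, v t ^ 2 = 4 * u t ^ 3 - g₂ * u t - g₃
  closed : u 1 = u 0 ∧ v 1 = v 0

/-- `(e₁, e₂, e₃)` are the values of `℘` at the three half periods, for a lattice all of whose elements
are algebraic multiples of one number. -/
def CMTriple (e₁ e₂ e₃ : ℂ) : Prop :=
  ∃ (L : PeriodPair) (p : ℂ), (∀ l ∈ L.lattice, ∃ b : ℂ, IsAlgebraic ℚ b ∧ l = b * p) ∧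
    L.weierstrassP (L.ω₁ / 2) = e₁ ∧ L.weierstrassP (L.ω₂ / 2) = e₂ ∧
      L.weierstrassP ((L.ω₁ + L.ω₂) / 2) = e₃

/-- the real sequence of triples `(e₁, e₂, e₃)`, `e₁ > e₃ > e₂` -/
def eseq : ℕ → ℝ × ℝ × ℝ
  | 0 => (1, -1, 0)
  | n + 1 =>
    ((eseq n).1 + 2 * Real.sqrt (((eseq n).1 - (eseq n).2.1) * ((eseq n).1 - (eseq n).2.2)),
      -2 * (eseq n).1,
      (eseq n).1 - 2 * Real.sqrt (((eseq n).1 - (eseq n).2.1) * ((eseq n).1 - (eseq n).2.2)))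

/-- the squared modulus -/
def ksq (n : ℕ) : ℝ := ((eseq n).2.2 - (eseq n).2.1) / ((eseq n).1 - (eseq n).2.1)

/-- principal square root -/
def csq (z : ℂ) : ℂ := z ^ (1 / 2 : ℂ)

/-- `cos² (π t)` -/
def cc (t : ℝ) : ℝ := Real.cos (Real.pi * t) ^ 2

/-- integral over the cut `[-1, 0]` -/
def G1 (m : ℂ) : ℂ := ∫ t in (0 : ℝ)..1, (csq (1 + cc t) * csq (m + cc t) * csq (1 + m * cc t))⁻¹

/-- integral over the cut `[0, m]` -/
def G2 (m : ℂ) : ℂ :=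
  ∫ t in (0 : ℝ)..1, (csq (1 + m * cc t) * csq (1 - m * cc t) * csq (1 - m ^ 2 * cc t))⁻¹

/-- integral over the cut `[m, 1]` -/
def G3 (m : ℂ) : ℂ :=
  ∫ t in (0 : ℝ)..1, (csq (1 + (m + (1 - m) * cc t)) * csq (m + (1 - m) * cc t) *
    csq (1 - m * (m + (1 - m) * cc t)))⁻¹

/-- `(p + q) / 2 + (q - p) / 2 * cos (2 π ζ)` -/
def segx (p q ζ : ℂ) : ℂ := (p + q) / 2 + (q - p) / 2 * Complex.cos (2 * Real.pi * ζ)

/-- integral over the cut `[p, q]` -/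
def cutInt (s : Fin 3 → ℝ) (p q : ℂ) (b : Fin 3 → ℂ) : ℂ :=
  ∫ t in (0 : ℝ)..1, (∏ j, csq (s j * (segx p q t - b j)))⁻¹

end Pool.Agent.AO
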