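import Pool.Agent.Lib.MP_779fbc_ag.Base

/-! # T6: bounds for `G1` near `0` -/

open Set Topology Filter

noncomputable section

namespace Pool.Agent.AO

/-- the real integrand -/
def b1_gr (m t : ℝ) : ℝ := (Real.sqrt (1 + cc t) * Real.sqrt (m + cc t) * Real.sqrt (1 + m * cc t))⁻¹

lemma b1_cc_nonneg (t : ℝ) : 0 ≤ cc t := sq_nonneg _

lemma b1_cc_le_one (t : ℝ) : cc t ≤ 1 := Real.cos_sq_le_one _

lemma b1_csq {a : ℝ} (ha : 0 ≤ a) : csq (a : ℂ) = ((Real.sqrt a : ℝ) : ℂ) := by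
  unfold csq
  rw [Real.sqrt_eq_rpow, Complex.ofReal_cpow ha]
  norm_num

lemma b1_cc_cont : Continuous cc := by
  unfold cc
  fun_prop

lemma b1_gr_cont {m : ℝ} (hm : 0 < m) : Continuous (b1_gr m) := by
  unfold b1_gr
  have h1 := b1_cc_cont
  refine Continuous.inv₀ (by fun_prop) fun t => ?_
  have h2 := b1_cc_nonneg t
  have e1 : 0 < Real.sqrt (1 + cc t) := Real.sqrt_pos.2 (by linarith)
  have e2 : 0 < Real.sqrt (m + cc t) := Real.sqrt_pos.2 (by linarith)
  have e3 : 0 < Real.sqrt (1 + m * cc t) := Real.sqrt_pos.2 (by nlinarith)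
  positivity

lemma b1_gr_nonneg (m t : ℝ) : 0 ≤ b1_gr m t := by
  unfold b1_gr
  positivity

lemma b1_G1 {m : ℝ} (hm : 0 < m) :
    G1 (m : ℂ) = ((∫ t in (0 : ℝ)..1, b1_gr m t : ℝ) : ℂ) := by
  unfold G1
  rw [← intervalIntegral.integral_ofReal]
  refine intervalIntegral.integral_congr fun t _ => ?_
  have h2 := b1_cc_nonneg t
  have e1 : csq (1 + (cc t : ℂ)) = ((Real.sqrt (1 + cc t) : ℝ) : ℂ) := by
    rw [← b1_csq (by linarith)]
    push_cast
    rfl
  have e2 : csq ((m : ℂ) + (cc t : ℂ)) = ((Real.sqrt (m + cc t) : ℝ) : ℂ) := by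
    rw [← b1_csq (by linarith)]
    push_cast
    rfl
  have e3 : csq (1 + (m : ℂ) * (cc t : ℂ)) = ((Real.sqrt (1 + m * cc t) : ℝ) : ℂ) := by
    rw [← b1_csq (by nlinarith)]
    push_cast
    rfl
  unfold b1_gr
  simp only [e1, e2, e3]
  push_cast
  rfl

lemma b1_norm {m : ℝ} (hm : 0 < m) : ‖G1 (m : ℂ)‖ = ∫ t in (0 : ℝ)..1, b1_gr m t := by
  rw [b1_G1 hm, Complex.norm_real, Real.norm_of_nonneg]
  exact intervalIntegral.integral_nonneg (by norm_num) fun t _ => b1_gr_nonneg m t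

lemma b1_cc_eq (t : ℝ) : cc t = Real.sin (Real.pi * (t - 1 / 2)) ^ 2 := by
  unfold cc
  have : Real.pi * (t - 1 / 2) = Real.pi * t - Real.pi / 2 := by ring
  rw [this, Real.sin_sub_pi_div_two]
  ring

lemma b1_cc_le (t : ℝ) : cc t ≤ (Real.pi * (t - 1 / 2)) ^ 2 := by
  rw [b1_cc_eq]
  exact sq_le_sq.2 Real.abs_sin_le_abs

lemma b1_le_cc {t : ℝ} (h0 : 0 ≤ t) (h1 : t ≤ 1) : (2 * (t - 1 / 2)) ^ 2 ≤ cc t := by
  rw [b1_cc_eq]
  refine sq_le_sq.2 ?_
  have hpi := Real.pi_pos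
  have habs : |Real.pi * (t - 1 / 2)| = Real.pi * |t - 1 / 2| := by
    rw [abs_mul, abs_of_pos hpi]
  have hle : |t - 1 / 2| ≤ 1 / 2 := abs_le.2 ⟨by linarith, by linarith⟩
  have h2 : |Real.pi * (t - 1 / 2)| ≤ Real.pi / 2 := by
    rw [habs]
    nlinarith
  have h3 := Real.mul_abs_le_abs_sin h2
  rw [habs] at h3
  have h4 : 2 / Real.pi * (Real.pi * |t - 1 / 2|) = |2 * (t - 1 / 2)| := by
    rw [abs_mul, abs_two]
    field_simp
  rw [← h4]
  exact h3

/-- the lower comparison function -/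
lemma b1_lower_pt {m t : ℝ} (hm : 0 < m) (hm1 : m < 1) (ht : 1 / 2 ≤ t) :
    (1 / 2) * (Real.sqrt m + Real.pi * (t - 1 / 2))⁻¹ ≤ b1_gr m t := by
  unfold b1_gr
  have h0 := b1_cc_nonneg t
  have h1 := b1_cc_le_one t
  have hs : 0 < Real.sqrt m := Real.sqrt_pos.2 hm
  have hp : 0 ≤ Real.pi * (t - 1 / 2) := mul_nonneg Real.pi_pos.le (by linarith)
  have e1 : Real.sqrt (1 + cc t) ≤ Real.sqrt 2 := Real.sqrt_le_sqrt (by linarith)
  have e3 : Real.sqrt (1 + m * cc t) ≤ Real.sqrt 2 := Real.sqrt_le_sqrt (by nlinarith)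
  have e2 : Real.sqrt (m + cc t) ≤ Real.sqrt m + Real.pi * (t - 1 / 2) := by
    rw [Real.sqrt_le_left (by positivity)]
    have := Real.sq_sqrt hm.le
    have := b1_cc_le t
    nlinarith [mul_nonneg hs.le hp]
  have p1 : 0 < Real.sqrt (1 + cc t) := Real.sqrt_pos.2 (by linarith)
  have p2 : 0 < Real.sqrt (m + cc t) := Real.sqrt_pos.2 (by linarith)
  have p3 : 0 < Real.sqrt (1 + m * cc t) := Real.sqrt_pos.2 (by nlinarith)
  have h22 : Real.sqrt 2 * Real.sqrt 2 = 2 := Real.mul_self_sqrt (by norm_num)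
  have key : Real.sqrt (1 + cc t) * Real.sqrt (m + cc t) * Real.sqrt (1 + m * cc t) ≤
      2 * (Real.sqrt m + Real.pi * (t - 1 / 2)) := by
    calc Real.sqrt (1 + cc t) * Real.sqrt (m + cc t) * Real.sqrt (1 + m * cc t)
        ≤ Real.sqrt 2 * (Real.sqrt m + Real.pi * (t - 1 / 2)) * Real.sqrt 2 := by
          gcongr
      _ = 2 * (Real.sqrt m + Real.pi * (t - 1 / 2)) := by
          rw [mul_right_comm, h22]
  have h5 : (1 / 2) * (Real.sqrt m + Real.pi * (t - 1 / 2))⁻¹ =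
      (2 * (Real.sqrt m + Real.pi * (t - 1 / 2)))⁻¹ := by
    rw [mul_inv]
    norm_num
  rw [h5]
  exact inv_anti₀ (by positivity) key

lemma b1_upper_pt {m t : ℝ} (hm : 0 < m) (h0' : 0 ≤ t) (h1 : t ≤ 1) :
    b1_gr m t ≤ 2 * (Real.sqrt m + 2 * |t - 1 / 2|)⁻¹ := by
  unfold b1_gr
  have h0 := b1_cc_nonneg t
  have hs : 0 < Real.sqrt m := Real.sqrt_pos.2 hm
  have e1 : 1 ≤ Real.sqrt (1 + cc t) := by
    rw [Real.one_le_sqrt]
    linarith
  have e3 : 1 ≤ Real.sqrt (1 + m * cc t) := by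
    rw [Real.one_le_sqrt]
    nlinarith
  have e2 : (Real.sqrt m + 2 * |t - 1 / 2|) / 2 ≤ Real.sqrt (m + cc t) := by
    apply Real.le_sqrt_of_sq_le
    have h2 := Real.sq_sqrt hm.le
    have h3 := b1_le_cc h0' h1
    have h4 : (2 * (t - 1 / 2)) ^ 2 = (2 * |t - 1 / 2|) ^ 2 := by
      rw [mul_pow, mul_pow, sq_abs]
    rw [h4] at h3
    nlinarith [sq_nonneg (Real.sqrt m - 2 * |t - 1 / 2|), abs_nonneg (t - 1 / 2)]
  have habs := abs_nonneg (t - 1 / 2)
  have key : (Real.sqrt m + 2 * |t - 1 / 2|) / 2 ≤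
      Real.sqrt (1 + cc t) * Real.sqrt (m + cc t) * Real.sqrt (1 + m * cc t) := by
    calc (Real.sqrt m + 2 * |t - 1 / 2|) / 2 ≤ 1 * Real.sqrt (m + cc t) * 1 := by linarith
      _ ≤ _ := by gcongr
  have h5 : 2 * (Real.sqrt m + 2 * |t - 1 / 2|)⁻¹ = ((Real.sqrt m + 2 * |t - 1 / 2|) / 2)⁻¹ := by
    rw [inv_div]
    ring
  rw [h5]
  exact inv_anti₀ (by positivity) key

lemma b1_lower {m : ℝ} (hm : 0 < m) (hm1 : m < 1) :
    -(1 / (4 * Real.pi)) * Real.log m ≤ ‖G1 (m : ℂ)‖ := by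
  have hpi := Real.pi_pos
  have hs : 0 < Real.sqrt m := Real.sqrt_pos.2 hm
  rw [b1_norm hm]
  have hpos : ∀ t ∈ Set.uIcc (1 / 2 : ℝ) 1, 0 < Real.sqrt m + Real.pi * (t - 1 / 2) := by
    intro t ht
    rw [Set.uIcc_of_le (by norm_num)] at ht
    have : 0 ≤ Real.pi * (t - 1 / 2) := mul_nonneg hpi.le (by linarith [ht.1])
    linarith
  have hderiv : ∀ t ∈ Set.uIcc (1 / 2 : ℝ) 1,
      HasDerivAt (fun t => 1 / (2 * Real.pi) * Real.log (Real.sqrt m + Real.pi * (t - 1 / 2)))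
        ((1 / 2) * (Real.sqrt m + Real.pi * (t - 1 / 2))⁻¹) t := by
    intro t ht
    have h1 : HasDerivAt (fun t : ℝ => Real.sqrt m + Real.pi * (t - 1 / 2)) Real.pi t := by
      have := (((hasDerivAt_id t).sub_const (1 / 2)).const_mul Real.pi).const_add (Real.sqrt m)
      simpa using this
    have h2 := (h1.log (hpos t ht).ne').const_mul (1 / (2 * Real.pi))
    refine h2.congr_deriv ?_
    have := (hpos t ht).ne'
    field_simp
  have hint : IntervalIntegrable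
      (fun t => (1 / 2) * (Real.sqrt m + Real.pi * (t - 1 / 2))⁻¹) MeasureTheory.volume (1 / 2) 1 := by
    refine ContinuousOn.intervalIntegrable ?_
    refine continuousOn_const.mul (ContinuousOn.inv₀ (by fun_prop) fun t ht => (hpos t ht).ne')
  have h1 := intervalIntegral.integral_eq_sub_of_hasDerivAt hderiv hint
  have hi1 : IntervalIntegrable (b1_gr m) MeasureTheory.volume 0 (1 / 2) :=
    (b1_gr_cont hm).intervalIntegrable _ _
  have hi2 : IntervalIntegrable (b1_gr m) MeasureTheory.volume (1 / 2) 1 :=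
    (b1_gr_cont hm).intervalIntegrable _ _
  have h2 : ∫ t in (1 / 2 : ℝ)..1, (1 / 2) * (Real.sqrt m + Real.pi * (t - 1 / 2))⁻¹ ≤
      ∫ t in (1 / 2 : ℝ)..1, b1_gr m t :=
    intervalIntegral.integral_mono_on (by norm_num) hint hi2 fun t ht =>
      b1_lower_pt hm hm1 ht.1
  have h3 : 0 ≤ ∫ t in (0 : ℝ)..(1 / 2), b1_gr m t :=
    intervalIntegral.integral_nonneg (by norm_num) fun t _ => b1_gr_nonneg m t
  have h4 := intervalIntegral.integral_add_adjacent_intervals hi1 hi2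
  have h5 : 0 ≤ Real.log (Real.sqrt m + Real.pi * (1 - 1 / 2)) := by
    refine Real.log_nonneg ?_
    have := Real.pi_gt_three
    linarith
  have h6 : Real.log (Real.sqrt m + Real.pi * (1 / 2 - 1 / 2)) = Real.log m / 2 := by
    rw [sub_self, mul_zero, add_zero, Real.log_sqrt hm.le]
  rw [h1, h6] at h2
  have h7 : 0 ≤ 1 / (2 * Real.pi) * Real.log (Real.sqrt m + Real.pi * (1 - 1 / 2)) :=
    mul_nonneg (by positivity) h5
  have h8 : -(1 / (4 * Real.pi)) * Real.log m = - (1 / (2 * Real.pi) * (Real.log m / 2)) := by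
    field_simp
    ring
  linarith

-- T6 (file Bounds1)
theorem G1_lower : Tendsto (fun m : ℝ => ‖G1 m‖) (𝓝[>] 0) atTop := by
  have h1 : Tendsto (fun m : ℝ => -(1 / (4 * Real.pi)) * Real.log m) (𝓝[>] 0) atTop := by
    have hneg : -(1 / (4 * Real.pi)) < 0 := by
      have := Real.pi_pos
      have : 0 < 1 / (4 * Real.pi) := by positivity
      linarith
    exact Real.tendsto_log_nhdsGT_zero.const_mul_atBot_of_neg hneg
  refine tendsto_atTop_mono' _ ?_ h1
  have h2 : ∀ᶠ m : ℝ in 𝓝[>] 0, m < 1 :=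
    (eventually_lt_nhds (by norm_num)).filter_mono nhdsWithin_le_nhds
  filter_upwards [self_mem_nhdsWithin, h2] with m hm hm1
  exact b1_lower hm hm1

theorem G1_upper : ∃ C : ℝ, ∀ m : ℝ, 0 < m → m < 1 / 2 → ‖G1 m‖ ≤ C * (1 + Real.log (1 / m)) := by
  refine ⟨2, fun m hm hm1 => ?_⟩
  have hs : 0 < Real.sqrt m := Real.sqrt_pos.2 hm
  rw [b1_norm hm]
  have hi1 : IntervalIntegrable (b1_gr m) MeasureTheory.volume 0 (1 / 2) :=
    (b1_gr_cont hm).intervalIntegrable _ _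
  have hi2 : IntervalIntegrable (b1_gr m) MeasureTheory.volume (1 / 2) 1 :=
    (b1_gr_cont hm).intervalIntegrable _ _
  have h4 := intervalIntegral.integral_add_adjacent_intervals hi1 hi2
  -- right half
  have hpos : ∀ t ∈ Set.uIcc (1 / 2 : ℝ) 1, 0 < Real.sqrt m + 2 * (t - 1 / 2) := by
    intro t ht
    rw [Set.uIcc_of_le (by norm_num)] at ht
    linarith [ht.1]
  have hderiv : ∀ t ∈ Set.uIcc (1 / 2 : ℝ) 1,
      HasDerivAt (fun t => Real.log (Real.sqrt m + 2 * (t - 1 / 2)))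
        (2 * (Real.sqrt m + 2 * (t - 1 / 2))⁻¹) t := by
    intro t ht
    have h1 : HasDerivAt (fun t : ℝ => Real.sqrt m + 2 * (t - 1 / 2)) 2 t := by
      have := (((hasDerivAt_id t).sub_const (1 / 2)).const_mul 2).const_add (Real.sqrt m)
      simpa using this
    refine (h1.log (hpos t ht).ne').congr_deriv ?_
    rw [div_eq_mul_inv]
  have hint : IntervalIntegrable
      (fun t => 2 * (Real.sqrt m + 2 * (t - 1 / 2))⁻¹) MeasureTheory.volume (1 / 2) 1 := by
    refine ContinuousOn.intervalIntegrable ?_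
    refine continuousOn_const.mul (ContinuousOn.inv₀ (by fun_prop) fun t ht => (hpos t ht).ne')
  have h1 := intervalIntegral.integral_eq_sub_of_hasDerivAt hderiv hint
  have h2 : ∫ t in (1 / 2 : ℝ)..1, b1_gr m t ≤
      ∫ t in (1 / 2 : ℝ)..1, 2 * (Real.sqrt m + 2 * (t - 1 / 2))⁻¹ := by
    refine intervalIntegral.integral_mono_on (by norm_num) hi2 hint fun t ht => ?_
    have h := b1_upper_pt (t := t) hm (by linarith [ht.1]) ht.2
    rwa [abs_of_nonneg (by linarith [ht.1])] at h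
  -- left half
  have hpos' : ∀ t ∈ Set.uIcc (0 : ℝ) (1 / 2), 0 < Real.sqrt m + 2 * (1 / 2 - t) := by
    intro t ht
    rw [Set.uIcc_of_le (by norm_num)] at ht
    linarith [ht.2]
  have hderiv' : ∀ t ∈ Set.uIcc (0 : ℝ) (1 / 2),
      HasDerivAt (fun t => -Real.log (Real.sqrt m + 2 * (1 / 2 - t)))
        (2 * (Real.sqrt m + 2 * (1 / 2 - t))⁻¹) t := by
    intro t ht
    have h1 : HasDerivAt (fun t : ℝ => Real.sqrt m + 2 * (1 / 2 - t)) (2 * (-1)) t := by
      have := (((hasDerivAt_id t).const_sub (1 / 2)).const_mul 2).const_add (Real.sqrt m)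
      simpa using this
    refine ((h1.log (hpos' t ht).ne').neg).congr_deriv ?_
    rw [div_eq_mul_inv]
    ring
  have hint' : IntervalIntegrable
      (fun t => 2 * (Real.sqrt m + 2 * (1 / 2 - t))⁻¹) MeasureTheory.volume 0 (1 / 2) := by
    refine ContinuousOn.intervalIntegrable ?_
    refine continuousOn_const.mul (ContinuousOn.inv₀ (by fun_prop) fun t ht => (hpos' t ht).ne')
  have h1' := intervalIntegral.integral_eq_sub_of_hasDerivAt hderiv' hint'
  have h2' : ∫ t in (0 : ℝ)..(1 / 2), b1_gr m t ≤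
      ∫ t in (0 : ℝ)..(1 / 2), 2 * (Real.sqrt m + 2 * (1 / 2 - t))⁻¹ := by
    refine intervalIntegral.integral_mono_on (by norm_num) hi1 hint' fun t ht => ?_
    have h := b1_upper_pt (t := t) hm ht.1 (by linarith [ht.2])
    rwa [abs_sub_comm, abs_of_nonneg (by linarith [ht.2])] at h
  rw [h1] at h2
  rw [h1'] at h2'
  have hm2 : Real.log m < 0 := Real.log_neg hm (by linarith)
  have hlog : Real.log (Real.sqrt m + 1) ≤ 1 := by
    have h5 : Real.sqrt m ≤ 1 := by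
      rw [Real.sqrt_le_one]
      linarith
    have h6 : Real.log (Real.sqrt m + 1) ≤ Real.sqrt m + 1 - 1 :=
      Real.log_le_sub_one_of_pos (by positivity)
    linarith
  have hls : Real.log (Real.sqrt m) = Real.log m / 2 := Real.log_sqrt hm.le
  have e1 : Real.sqrt m + 2 * (1 - 1 / 2) = Real.sqrt m + 1 := by ring
  have e2 : Real.sqrt m + 2 * (1 / 2 - 1 / 2) = Real.sqrt m := by ring
  have e3 : Real.sqrt m + 2 * (1 / 2 - 0) = Real.sqrt m + 1 := by ring
  rw [e1, e2, hls] at h2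
  rw [e2, e3, hls] at h2'
  have e4 : Real.log (1 / m) = - Real.log m := by
    rw [one_div, Real.log_inv]
  rw [e4]
  linarith

end Pool.Agent.AO
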