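import Pool.Agent.Lib.MP_779fbc_ag.Base
import Pool.Agent.Lib.MP_779fbc_ag.Bounds1

/-! # Bounds2: elementary bounds for the three cut integrals -/

open Set Topology Filter

noncomputable section

namespace Pool.Agent.AO

theorem b2_cc_nonneg (t : ℝ) : 0 ≤ cc t := sq_nonneg _

theorem b2_cc_le (t : ℝ) : cc t ≤ 1 := Real.cos_sq_le_one _

theorem b2_cc_cont : Continuous cc := by
  unfold cc
  fun_prop

theorem b2_csq {r : ℝ} (hr : 0 ≤ r) : csq (r : ℂ) = ((Real.sqrt r : ℝ) : ℂ) := by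
  unfold csq
  rw [Real.sqrt_eq_rpow, Complex.ofReal_cpow hr]
  norm_num

/-- the products under the roots -/
def b2_D1 (m c : ℝ) : ℝ := (1 + c) * (m + c) * (1 + m * c)
/-- the products under the roots -/
def b2_D2 (m c : ℝ) : ℝ := (1 + m * c) * (1 - m * c) * (1 - m ^ 2 * c)
/-- the products under the roots -/
def b2_D3 (m c : ℝ) : ℝ := (1 + (m + (1 - m) * c)) * (m + (1 - m) * c) * (1 - m * (m + (1 - m) * c))

theorem b2_D1_pos {m c : ℝ} (hm : 0 < m) (hc : 0 ≤ c) : 0 < b2_D1 m c := by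
  unfold b2_D1
  positivity

theorem b2_mc {m c : ℝ} (hm : 0 < m) (hc : 0 ≤ c) (hc1 : c ≤ 1) : 0 ≤ m * c ∧ m * c ≤ m :=
  ⟨by positivity, mul_le_of_le_one_right hm.le hc1⟩

theorem b2_D2_pos {m c : ℝ} (hm : 0 < m) (hm1 : m < 1) (hc : 0 ≤ c) (hc1 : c ≤ 1) :
    0 < b2_D2 m c := by
  have h1 := b2_mc hm hc hc1
  have h2 : m ^ 2 * c ≤ m := by nlinarith
  unfold b2_D2
  have a1 : 0 < 1 + m * c := by linarith
  have a2 : 0 < 1 - m * c := by linarith
  have a3 : 0 < 1 - m ^ 2 * c := by linarith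
  positivity

theorem b2_w {m c : ℝ} (hm1 : m < 1) (hc : 0 ≤ c) (hc1 : c ≤ 1) :
    m ≤ m + (1 - m) * c ∧ m + (1 - m) * c ≤ 1 := by
  have h1 : 0 ≤ (1 - m) * c := mul_nonneg (by linarith) hc
  have h2 : (1 - m) * c ≤ 1 - m := mul_le_of_le_one_right (by linarith) hc1
  constructor <;> linarith

theorem b2_D3_pos {m c : ℝ} (hm : 0 < m) (hm1 : m < 1) (hc : 0 ≤ c) (hc1 : c ≤ 1) :
    0 < b2_D3 m c := by
  obtain ⟨h1, h2⟩ := b2_w hm1 hc hc1
  unfold b2_D3
  set w := m + (1 - m) * c with hw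
  have h3 : m * w ≤ m := mul_le_of_le_one_right hm.le h2
  have a1 : 0 < 1 + w := by linarith
  have a2 : 0 < w := by linarith
  have a3 : 0 < 1 - m * w := by linarith
  positivity

theorem b2_G1 {m : ℝ} (hm : 0 < m) :
    G1 m = ((∫ t in (0 : ℝ)..1, (Real.sqrt (b2_D1 m (cc t)))⁻¹ : ℝ) : ℂ) := by
  unfold G1
  rw [← intervalIntegral.integral_ofReal]
  congr 1
  funext t
  have hc := b2_cc_nonneg t
  have e1 : (1 + (cc t : ℂ)) = ((1 + cc t : ℝ) : ℂ) := by push_cast; ring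
  have e2 : ((m : ℂ) + (cc t : ℂ)) = ((m + cc t : ℝ) : ℂ) := by push_cast; ring
  have e3 : (1 + (m : ℂ) * (cc t : ℂ)) = ((1 + m * cc t : ℝ) : ℂ) := by push_cast; ring
  rw [e1, e2, e3, b2_csq (by positivity), b2_csq (by positivity), b2_csq (by positivity)]
  unfold b2_D1
  rw [Real.sqrt_mul (by positivity), Real.sqrt_mul (by positivity)]
  push_cast
  ring

theorem b2_G2 {m : ℝ} (hm : 0 < m) (hm1 : m < 1) :
    G2 m = ((∫ t in (0 : ℝ)..1, (Real.sqrt (b2_D2 m (cc t)))⁻¹ : ℝ) : ℂ) := by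
  unfold G2
  rw [← intervalIntegral.integral_ofReal]
  congr 1
  funext t
  have hc := b2_cc_nonneg t
  have hc1 := b2_cc_le t
  have h1 := b2_mc hm hc hc1
  have h2 : m ^ 2 * cc t ≤ m := by nlinarith
  have a1 : 0 ≤ 1 + m * cc t := by linarith
  have a2 : 0 ≤ 1 - m * cc t := by linarith
  have a3 : 0 ≤ 1 - m ^ 2 * cc t := by linarith
  have e1 : (1 + (m : ℂ) * (cc t : ℂ)) = ((1 + m * cc t : ℝ) : ℂ) := by push_cast; ring
  have e2 : (1 - (m : ℂ) * (cc t : ℂ)) = ((1 - m * cc t : ℝ) : ℂ) := by push_cast; ring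
  have e3 : (1 - (m : ℂ) ^ 2 * (cc t : ℂ)) = ((1 - m ^ 2 * cc t : ℝ) : ℂ) := by push_cast; ring
  rw [e1, e2, e3, b2_csq a1, b2_csq a2, b2_csq a3]
  unfold b2_D2
  rw [Real.sqrt_mul (by positivity), Real.sqrt_mul a1]
  push_cast
  ring

theorem b2_G3 {m : ℝ} (hm : 0 < m) (hm1 : m < 1) :
    G3 m = ((∫ t in (0 : ℝ)..1, (Real.sqrt (b2_D3 m (cc t)))⁻¹ : ℝ) : ℂ) := by
  unfold G3
  rw [← intervalIntegral.integral_ofReal]
  congr 1
  funext t
  have hc := b2_cc_nonneg t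
  have hc1 := b2_cc_le t
  obtain ⟨h1, h2⟩ := b2_w hm1 hc hc1
  have h3 : m * (m + (1 - m) * cc t) ≤ m := mul_le_of_le_one_right hm.le h2
  have a1 : 0 ≤ 1 + (m + (1 - m) * cc t) := by linarith
  have a2 : 0 ≤ m + (1 - m) * cc t := by linarith
  have a3 : 0 ≤ 1 - m * (m + (1 - m) * cc t) := by linarith
  have e1 : (1 + ((m : ℂ) + (1 - (m : ℂ)) * (cc t : ℂ))) =
      ((1 + (m + (1 - m) * cc t) : ℝ) : ℂ) := by push_cast; ring
  have e2 : ((m : ℂ) + (1 - (m : ℂ)) * (cc t : ℂ)) = ((m + (1 - m) * cc t : ℝ) : ℂ) := by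
    push_cast; ring
  have e3 : (1 - (m : ℂ) * ((m : ℂ) + (1 - (m : ℂ)) * (cc t : ℂ))) =
      ((1 - m * (m + (1 - m) * cc t) : ℝ) : ℂ) := by push_cast; ring
  rw [e1, e3, e2, b2_csq a1, b2_csq a2, b2_csq a3]
  unfold b2_D3
  rw [Real.sqrt_mul (by positivity), Real.sqrt_mul a1]
  push_cast
  ring

theorem b2_cont1 {m : ℝ} (hm : 0 < m) :
    Continuous fun t => (Real.sqrt (b2_D1 m (cc t)))⁻¹ := by
  have hc := b2_cc_cont
  refine Continuous.inv₀ ?_ (fun t => (Real.sqrt_pos.2 (b2_D1_pos hm (b2_cc_nonneg t))).ne')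
  unfold b2_D1
  fun_prop

theorem b2_cont2 {m : ℝ} (hm : 0 < m) (hm1 : m < 1) :
    Continuous fun t => (Real.sqrt (b2_D2 m (cc t)))⁻¹ := by
  have hc := b2_cc_cont
  refine Continuous.inv₀ ?_
    (fun t => (Real.sqrt_pos.2 (b2_D2_pos hm hm1 (b2_cc_nonneg t) (b2_cc_le t))).ne')
  unfold b2_D2
  fun_prop

theorem b2_cont3 {m : ℝ} (hm : 0 < m) (hm1 : m < 1) :
    Continuous fun t => (Real.sqrt (b2_D3 m (cc t)))⁻¹ := by
  have hc := b2_cc_cont
  refine Continuous.inv₀ ?_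
    (fun t => (Real.sqrt_pos.2 (b2_D3_pos hm hm1 (b2_cc_nonneg t) (b2_cc_le t))).ne')
  unfold b2_D3
  fun_prop

theorem G2_bounds : ∀ m : ℝ, 0 < m → m < 1 / 2 → 1 ≤ ‖G2 m‖ ∧ ‖G2 m‖ ≤ 2 := by
  intro m hm hm2
  have hm1 : m < 1 := by linarith
  rw [b2_G2 hm hm1, Complex.norm_real, Real.norm_eq_abs]
  have hpt : ∀ t, 1 ≤ (Real.sqrt (b2_D2 m (cc t)))⁻¹ ∧ (Real.sqrt (b2_D2 m (cc t)))⁻¹ ≤ 2 := by
    intro t
    have hc := b2_cc_nonneg t
    have hc1 := b2_cc_le t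
    have hD := b2_D2_pos hm hm1 hc hc1
    have h1 := b2_mc hm hc hc1
    have h2 : 0 ≤ m ^ 2 * cc t := by positivity
    have h3 : m ^ 2 * cc t ≤ 1 / 4 := by nlinarith
    have h4 : (m * cc t) ^ 2 ≤ 1 / 4 := by nlinarith
    have e : b2_D2 m (cc t) = (1 - (m * cc t) ^ 2) * (1 - m ^ 2 * cc t) := by
      unfold b2_D2; ring
    have hle : b2_D2 m (cc t) ≤ 1 := by
      rw [e]
      nlinarith [sq_nonneg (m * cc t)]
    have hge : 1 / 4 ≤ b2_D2 m (cc t) := by
      rw [e]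
      nlinarith [sq_nonneg (m * cc t)]
    have hs := Real.sqrt_pos.2 hD
    constructor
    · rw [one_le_inv₀ hs]
      exact Real.sqrt_le_one.2 hle
    · rw [inv_le_comm₀ hs (by norm_num)]
      exact Real.le_sqrt_of_sq_le (by norm_num; linarith)
  have hint := (b2_cont2 hm hm1).intervalIntegrable (μ := MeasureTheory.volume) 0 1
  have hlow : (1 : ℝ) ≤ ∫ t in (0 : ℝ)..1, (Real.sqrt (b2_D2 m (cc t)))⁻¹ := by
    have := intervalIntegral.integral_mono_on (a := 0) (b := 1) (μ := MeasureTheory.volume)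
      (by norm_num) (continuous_const.intervalIntegrable (μ := MeasureTheory.volume) 0 1) hint
      (f := fun _ => (1 : ℝ)) (fun t _ => (hpt t).1)
    simpa using this
  have hup : ∫ t in (0 : ℝ)..1, (Real.sqrt (b2_D2 m (cc t)))⁻¹ ≤ 2 := by
    have := intervalIntegral.integral_mono_on (a := 0) (b := 1) (μ := MeasureTheory.volume)
      (by norm_num) hint (continuous_const.intervalIntegrable (μ := MeasureTheory.volume) 0 1)
      (g := fun _ => (2 : ℝ)) (fun t _ => (hpt t).2)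
    simpa using this
  rw [abs_of_nonneg (by linarith)]
  exact ⟨hlow, hup⟩

theorem b2_cmp {m c : ℝ} (hm : 0 < m) (hm2 : m < 1 / 2) (hc : 0 ≤ c) (hc1 : c ≤ 1) :
    |(Real.sqrt (b2_D3 m c))⁻¹ - (Real.sqrt (b2_D1 m c))⁻¹| ≤
      4 * m * (Real.sqrt (b2_D1 m c))⁻¹ := by
  have hm1 : m < 1 := by linarith
  have h1 := b2_D1_pos hm hc
  have h3 := b2_D3_pos hm hm1 hc hc1
  obtain ⟨w1, w2⟩ := b2_w hm1 hc hc1
  have mc := b2_mc hm hc hc1
  set w := m + (1 - m) * c with hw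
  -- the three factors
  have f1 : (1 - m) * (m + c) ≤ w := by
    rw [hw]; nlinarith
  have f1' : w ≤ m + c := by
    rw [hw]; nlinarith
  have f2 : 1 + c ≤ 1 + w := by
    rw [hw]; nlinarith
  have f2' : 1 + w ≤ (1 + m) * (1 + c) := by
    rw [hw]; nlinarith
  have mw : m * w ≤ m := mul_le_of_le_one_right hm.le w2
  have mw0 : 0 ≤ m * w := by
    have : 0 ≤ w := by linarith
    positivity
  have f3 : (1 - m) * (1 + m * c) ≤ (1 + m) * (1 - m * w) := by nlinarith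
  have f3' : 1 - m * w ≤ 1 + m * c := by linarith
  have hD3 : b2_D3 m c = (1 + w) * w * (1 - m * w) := rfl
  have hD1 : b2_D1 m c = (1 + c) * (m + c) * (1 + m * c) := rfl
  have p0 : 0 ≤ 1 + c := by linarith
  have p1 : 0 ≤ m + c := by linarith
  have p2 : 0 ≤ 1 + m * c := by linarith
  have p3 : 0 ≤ 1 - m * w := by linarith
  have p4 : 0 ≤ w := by linarith
  have p5 : 0 ≤ 1 - m := by linarith
  have up : b2_D3 m c ≤ (1 + m) * b2_D1 m c := by
    rw [hD3, hD1]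
    calc (1 + w) * w * (1 - m * w) ≤ ((1 + m) * (1 + c)) * (m + c) * (1 + m * c) := by gcongr
      _ = _ := by ring
  have lo : (1 - m) ^ 2 * b2_D1 m c ≤ (1 + m) * b2_D3 m c := by
    rw [hD3, hD1]
    calc (1 - m) ^ 2 * ((1 + c) * (m + c) * (1 + m * c))
        = (1 + c) * ((1 - m) * (m + c)) * ((1 - m) * (1 + m * c)) := by ring
      _ ≤ (1 + w) * w * ((1 + m) * (1 - m * w)) := by gcongr
      _ = _ := by ring
  set a := Real.sqrt (b2_D1 m c) with ha
  set b := Real.sqrt (b2_D3 m c) with hb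
  have ha0 : 0 < a := Real.sqrt_pos.2 h1
  have hb0 : 0 < b := Real.sqrt_pos.2 h3
  have ha2 : a ^ 2 = b2_D1 m c := Real.sq_sqrt h1.le
  have hb2 : b ^ 2 = b2_D3 m c := Real.sq_sqrt h3.le
  rw [← ha2, ← hb2] at up lo
  -- `b ≤ (1 + m) a`
  have hba : b ≤ (1 + m) * a := by
    refine le_of_sq_le_sq ?_ (by positivity)
    nlinarith [sq_nonneg a]
  -- `a ≤ (1 + 4 m) b`
  have hab : a ≤ (1 + 4 * m) * b := by
    refine le_of_sq_le_sq ?_ (by positivity)
    have k1 : 1 + m ≤ (1 + 4 * m) * (1 - m) := by nlinarith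
    have k2 : (1 + m) ^ 2 ≤ ((1 + 4 * m) * (1 - m)) ^ 2 := by
      apply pow_le_pow_left₀ (by linarith) k1
    have k3 : (1 + m) * ((1 - m) ^ 2 * a ^ 2) ≤ (1 + m) * ((1 - m) ^ 2 * ((1 + 4 * m) * b) ^ 2) := by
      calc (1 + m) * ((1 - m) ^ 2 * a ^ 2) ≤ (1 + m) * ((1 + m) * b ^ 2) := by gcongr
        _ = (1 + m) ^ 2 * b ^ 2 := by ring
        _ ≤ ((1 + 4 * m) * (1 - m)) ^ 2 * b ^ 2 := by gcongr
        _ = 1 * ((1 - m) ^ 2 * ((1 + 4 * m) * b) ^ 2) := by ring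
        _ ≤ (1 + m) * ((1 - m) ^ 2 * ((1 + 4 * m) * b) ^ 2) := by
            gcongr
            linarith
    have k4 : 0 < (1 + m) * (1 - m) ^ 2 := by
      have : 0 < 1 - m := by linarith
      positivity
    have k5 : ((1 + m) * (1 - m) ^ 2) * a ^ 2 ≤ ((1 + m) * (1 - m) ^ 2) * ((1 + 4 * m) * b) ^ 2 := by
      linarith
    exact le_of_mul_le_mul_left k5 k4
  rw [abs_le]
  constructor
  · -- `(1 - 4 m) / a ≤ 1 / b`
    have : (1 - 4 * m) * b ≤ a := by
      rcases le_total (1 - 4 * m) 0 with h | h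
      · nlinarith
      · calc (1 - 4 * m) * b ≤ (1 - 4 * m) * ((1 + m) * a) := by gcongr
          _ = (1 - 3 * m - 4 * m ^ 2) * a := by ring
          _ ≤ 1 * a := by
              gcongr
              nlinarith
          _ = a := one_mul a
    have h5 : (1 - 4 * m) * a⁻¹ ≤ b⁻¹ := by
      rw [← div_eq_mul_inv, div_le_iff₀ ha0, inv_mul_eq_div, le_div_iff₀ hb0]
      exact this
    linarith
  · have h5 : b⁻¹ ≤ (1 + 4 * m) * a⁻¹ := by
      rw [← div_eq_mul_inv, le_div_iff₀ ha0, inv_mul_eq_div, div_le_iff₀ hb0]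
      exact hab
    linarith

theorem G3_sub_G1 : ∃ C : ℝ, ∀ m : ℝ, 0 < m → m < 1 / 2 → ‖G3 m - G1 m‖ ≤ C * m * ‖G1 m‖ := by
  refine ⟨4, fun m hm hm2 => ?_⟩
  have hm1 : m < 1 := by linarith
  rw [b2_G1 hm, b2_G3 hm hm1, ← Complex.ofReal_sub, Complex.norm_real, Complex.norm_real,
    Real.norm_eq_abs, Real.norm_eq_abs]
  have i1 := (b2_cont1 hm).intervalIntegrable (μ := MeasureTheory.volume) 0 1
  have i3 := (b2_cont3 hm hm1).intervalIntegrable (μ := MeasureTheory.volume) 0 1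
  rw [← intervalIntegral.integral_sub i3 i1]
  have hpos : 0 ≤ ∫ t in (0 : ℝ)..1, (Real.sqrt (b2_D1 m (cc t)))⁻¹ :=
    intervalIntegral.integral_nonneg (by norm_num) (fun t _ => by positivity)
  rw [abs_of_nonneg hpos, ← intervalIntegral.integral_const_mul]
  refine (intervalIntegral.abs_integral_le_integral_abs (by norm_num)).trans ?_
  refine intervalIntegral.integral_mono_on (by norm_num) (i3.sub i1).abs (i1.const_mul _) ?_
  intro t _
  exact b2_cmp hm hm2 (b2_cc_nonneg t) (b2_cc_le t)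

theorem G3_ne_G1 : G3 ((9 / 10 : ℝ) : ℂ) ≠ G1 ((9 / 10 : ℝ) : ℂ) := by
  have hm : (0 : ℝ) < 9 / 10 := by norm_num
  have hm1 : (9 / 10 : ℝ) < 1 := by norm_num
  rw [b2_G1 hm, b2_G3 hm hm1]
  intro h
  have h' := Complex.ofReal_injective h
  have i1 := (b2_cont1 hm).intervalIntegrable (μ := MeasureTheory.volume) 0 1
  have i3 := (b2_cont3 hm hm1).intervalIntegrable (μ := MeasureTheory.volume) 0 1
  have hlow : (3 / 2 : ℝ) ≤ ∫ t in (0 : ℝ)..1, (Real.sqrt (b2_D3 (9 / 10) (cc t)))⁻¹ := by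
    have := intervalIntegral.integral_mono_on (a := 0) (b := 1) (μ := MeasureTheory.volume)
      (by norm_num) (continuous_const.intervalIntegrable (μ := MeasureTheory.volume) 0 1) i3
      (f := fun _ => (3 / 2 : ℝ)) (fun t _ => by
        have hc := b2_cc_nonneg t
        have hc1 := b2_cc_le t
        obtain ⟨w1, w2⟩ := b2_w hm1 hc hc1
        have hD := b2_D3_pos hm hm1 hc hc1
        have hle : b2_D3 (9 / 10) (cc t) ≤ 4 / 9 := by
          unfold b2_D3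
          set w := (9 / 10 : ℝ) + (1 - 9 / 10) * cc t with hw
          have q1 : (1 + w) * w ≤ 2 := by nlinarith
          have q2 : 1 - 9 / 10 * w ≤ 19 / 100 := by linarith
          have q3 : 0 ≤ 1 - 9 / 10 * w := by linarith
          have q4 : 0 ≤ (1 + w) * w := by positivity
          nlinarith
        have hs := Real.sqrt_pos.2 hD
        rw [le_inv_comm₀ (by norm_num) hs]
        refine Real.sqrt_le_iff.2 ⟨by norm_num, ?_⟩
        norm_num
        linarith)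
    simpa using this
  have hup : ∫ t in (0 : ℝ)..1, (Real.sqrt (b2_D1 (9 / 10) (cc t)))⁻¹ ≤ 5 / 4 := by
    have := intervalIntegral.integral_mono_on (a := 0) (b := 1) (μ := MeasureTheory.volume)
      (by norm_num) i1 (continuous_const.intervalIntegrable (μ := MeasureTheory.volume) 0 1)
      (g := fun _ => (5 / 4 : ℝ)) (fun t _ => by
        have hc := b2_cc_nonneg t
        have hD := b2_D1_pos hm hc
        have hge : 16 / 25 ≤ b2_D1 (9 / 10) (cc t) := by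
          unfold b2_D1
          have q1 : 9 / 10 ≤ (1 + cc t) * (9 / 10 + cc t) := by nlinarith
          have q2 : 1 ≤ 1 + 9 / 10 * cc t := by linarith
          nlinarith
        have hs := Real.sqrt_pos.2 hD
        rw [inv_le_comm₀ hs (by norm_num)]
        refine Real.le_sqrt_of_sq_le ?_
        norm_num
        linarith)
    simpa using this
  rw [h'] at hlow
  linarith

end Pool.Agent.AO
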