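import Pool.Agent.Lib.MP_779fbc_ag.Base

/-! # T4: evaluation of the cut integrals at real points of the family -/

open Set Topology Filter

noncomputable section

namespace Pool.Agent.AO

theorem cutEval_csq {x : ℝ} (hx : 0 ≤ x) : csq (x : ℂ) = ((Real.sqrt x : ℝ) : ℂ) := by
  unfold csq
  rw [Real.sqrt_eq_rpow, Complex.ofReal_cpow hx]
  norm_num

theorem cutEval_seg (p q t : ℝ) :
    segx (p : ℂ) (q : ℂ) (t : ℂ) = ((p + (q - p) * cc t : ℝ) : ℂ) := by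
  unfold segx cc
  have h : Complex.cos (2 * Real.pi * t) = ((Real.cos (2 * (Real.pi * t)) : ℝ) : ℂ) := by
    rw [Complex.ofReal_cos]
    congr 1
    push_cast
    ring
  rw [h, Real.cos_two_mul]
  push_cast
  ring

theorem cutEval_cc0 (t : ℝ) : 0 ≤ cc t := sq_nonneg _

theorem cutEval_cc1 (t : ℝ) : cc t ≤ 1 := by
  unfold cc
  exact Real.cos_sq_le_one _

theorem cutEval_sqrt {ρ y : ℝ} (hρ : 0 < ρ) : Real.sqrt (ρ ^ 2 * y) = ρ * Real.sqrt y := by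
  rw [Real.sqrt_mul (by positivity), Real.sqrt_sq hρ.le]

/-- the common computation -/
theorem cutEval_main {m ρ : ℝ} (hm : 0 < m) (hρ : 0 < ρ) {s : Fin 3 → ℝ} {p q : ℝ}
    {b : Fin 3 → ℂ} {y0 y1 y2 : ℝ → ℝ} (h0 : ∀ t, 0 ≤ y0 t) (h1 : ∀ t, 0 ≤ y1 t)
    (h2 : ∀ t, 0 ≤ y2 t)
    (e0 : ∀ t, (s 0 : ℂ) * (((p + (q - p) * cc t : ℝ) : ℂ) - b 0) = ((ρ ^ 2 * y0 t : ℝ) : ℂ))
    (e1 : ∀ t, (s 1 : ℂ) * (((p + (q - p) * cc t : ℝ) : ℂ) - b 1) = ((ρ ^ 2 * y1 t : ℝ) : ℂ))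
    (e2 : ∀ t, (s 2 : ℂ) * (((p + (q - p) * cc t : ℝ) : ℂ) - b 2) =
      ((ρ ^ 2 * (y2 t / m) : ℝ) : ℂ)) :
    cutInt s (p : ℂ) (q : ℂ) b = ((Real.sqrt m / ρ ^ 3 : ℝ) : ℂ) *
      ∫ t in (0 : ℝ)..1, (csq (y0 t : ℝ) * csq (y1 t : ℝ) * csq (y2 t : ℝ))⁻¹ := by
  unfold cutInt
  rw [← intervalIntegral.integral_const_mul]
  congr 1
  funext t
  have hd : (Real.sqrt m : ℂ) ≠ 0 := by
    exact_mod_cast (Real.sqrt_pos.2 hm).ne'
  have hρ' : (ρ : ℂ) ≠ 0 := by exact_mod_cast hρ.ne'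
  rw [Fin.prod_univ_three, cutEval_seg, e0, e1, e2,
    cutEval_csq (mul_nonneg (sq_nonneg ρ) (h0 t)), cutEval_csq (mul_nonneg (sq_nonneg ρ) (h1 t)),
    cutEval_csq (mul_nonneg (sq_nonneg ρ) (div_nonneg (h2 t) hm.le)), cutEval_csq (h0 t),
    cutEval_csq (h1 t), cutEval_csq (h2 t), cutEval_sqrt hρ, cutEval_sqrt hρ, cutEval_sqrt hρ,
    Real.sqrt_div (h2 t)]
  push_cast
  simp only [div_eq_mul_inv, mul_inv, inv_inv]
  ring

-- T4 (file CutEval)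
theorem cut_eval1 {m ρ h : ℝ} (hm : 0 < m) (hm1 : m < 1) (hρ : 0 < ρ) :
    cutInt ![-1, -1, -1] ((ρ ^ 2 * (0 - h) : ℝ) : ℂ) ((ρ ^ 2 * (-1 - h) : ℝ) : ℂ)
      ![((ρ ^ 2 * (m - h) : ℝ) : ℂ), ((ρ ^ 2 * (1 - h) : ℝ) : ℂ), ((ρ ^ 2 * (1 / m - h) : ℝ) : ℂ)]
      = ((Real.sqrt m / ρ ^ 3 : ℝ) : ℂ) * G1 m := by
  have hmc : (m : ℂ) ≠ 0 := by exact_mod_cast hm.ne'
  rw [cutEval_main hm hρ (y0 := fun t => m + cc t) (y1 := fun t => 1 + cc t)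
    (y2 := fun t => 1 + m * cc t) (fun t => add_nonneg hm.le (cutEval_cc0 t))
    (fun t => add_nonneg zero_le_one (cutEval_cc0 t))
    (fun t => add_nonneg zero_le_one (mul_nonneg hm.le (cutEval_cc0 t)))]
  · unfold G1
    congr 2
    funext t
    push_cast
    ring
  · intro t
    simp
    ring
  · intro t
    simp
    ring
  · intro t
    simp
    field_simp
    ring

theorem cut_eval2 {m ρ h : ℝ} (hm : 0 < m) (hm1 : m < 1) (hρ : 0 < ρ) :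
    cutInt ![1, -1, -1] ((ρ ^ 2 * (0 - h) : ℝ) : ℂ) ((ρ ^ 2 * (m - h) : ℝ) : ℂ)
      ![((ρ ^ 2 * (-1 - h) : ℝ) : ℂ), ((ρ ^ 2 * (1 - h) : ℝ) : ℂ), ((ρ ^ 2 * (1 / m - h) : ℝ) : ℂ)]
      = ((Real.sqrt m / ρ ^ 3 : ℝ) : ℂ) * G2 m := by
  have hmc : (m : ℂ) ≠ 0 := by exact_mod_cast hm.ne'
  have hmt : ∀ t, m * cc t ≤ 1 := fun t => by
    calc m * cc t ≤ 1 * 1 := mul_le_mul hm1.le (cutEval_cc1 t) (cutEval_cc0 t) zero_le_one
      _ = 1 := one_mul 1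
  rw [cutEval_main hm hρ (y0 := fun t => 1 + m * cc t) (y1 := fun t => 1 - m * cc t)
    (y2 := fun t => 1 - m ^ 2 * cc t) (fun t => add_nonneg zero_le_one
      (mul_nonneg hm.le (cutEval_cc0 t)))
    (fun t => sub_nonneg.2 (hmt t))
    (fun t => by
      have := mul_le_mul hm1.le (hmt t) (mul_nonneg hm.le (cutEval_cc0 t)) zero_le_one
      have e : m * (m * cc t) = m ^ 2 * cc t := by ring
      rw [e] at this
      linarith)]
  · unfold G2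
    congr 2
    funext t
    push_cast
    ring
  · intro t
    simp
    ring
  · intro t
    simp
    ring
  · intro t
    simp
    field_simp
    ring

theorem cut_eval3 {m ρ h : ℝ} (hm : 0 < m) (hm1 : m < 1) (hρ : 0 < ρ) :
    cutInt ![1, 1, -1] ((ρ ^ 2 * (m - h) : ℝ) : ℂ) ((ρ ^ 2 * (1 - h) : ℝ) : ℂ)
      ![((ρ ^ 2 * (-1 - h) : ℝ) : ℂ), ((ρ ^ 2 * (0 - h) : ℝ) : ℂ), ((ρ ^ 2 * (1 / m - h) : ℝ) : ℂ)]
      = ((Real.sqrt m / ρ ^ 3 : ℝ) : ℂ) * G3 m := by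
  have hmc : (m : ℂ) ≠ 0 := by exact_mod_cast hm.ne'
  have h0 : ∀ t, 0 ≤ m + (1 - m) * cc t := fun t =>
    add_nonneg hm.le (mul_nonneg (by linarith) (cutEval_cc0 t))
  have h1 : ∀ t, m + (1 - m) * cc t ≤ 1 := fun t => by
    have := mul_le_mul_of_nonneg_left (cutEval_cc1 t) (sub_nonneg.2 hm1.le)
    linarith
  rw [cutEval_main hm hρ (y0 := fun t => 1 + (m + (1 - m) * cc t))
    (y1 := fun t => m + (1 - m) * cc t)
    (y2 := fun t => 1 - m * (m + (1 - m) * cc t)) (fun t => add_nonneg zero_le_one (h0 t)) h0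
    (fun t => by
      have := mul_le_mul hm1.le (h1 t) (h0 t) zero_le_one
      linarith)]
  · unfold G3
    congr 2
    funext t
    push_cast
    ring
  · intro t
    simp
    ring
  · intro t
    simp
    ring
  · intro t
    simp
    field_simp
    ring

end Pool.Agent.AO
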