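import Pool.Agent.Lib.MP_779fbc_ag.Shift

/-! # T3 CutFamily: an explicit flat family of loops around a cut -/

open Set Topology Filter

noncomputable section

namespace Pool.Agent.AO


theorem cutf_csq_sq (z : ℂ) : csq z ^ 2 = z := by
  unfold csq
  rw [← Complex.cpow_nat_mul]
  norm_num

theorem cutf_csq_ne {z : ℂ} (hz : 0 < z.re) : csq z ≠ 0 := by
  intro h
  have h2 := cutf_csq_sq z
  rw [h] at h2
  rw [← h2] at hz
  norm_num at hz

theorem cutf_csq_cont {z : ℂ} (hz : 0 < z.re) : ContinuousAt csq z := by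
  have hs : z ∈ Complex.slitPlane := Or.inl hz
  have : ContinuousAt (fun w : ℂ => w ^ (1 / 2 : ℂ)) z :=
    ContinuousAt.cpow continuousAt_id continuousAt_const hs
  exact this

theorem cutf_segx_add (p q ζ : ℂ) : segx p q (ζ + 1) = segx p q ζ := by
  unfold segx
  have : (2 * Real.pi * (ζ + 1) : ℂ) = 2 * Real.pi * ζ + 2 * Real.pi := by ring
  rw [this, Complex.cos_add_two_pi]

theorem cutf_sin_ne {t δ : ℝ} (hδ : 0 < δ) :
    Complex.sin (2 * Real.pi * (t + δ * Complex.I)) ≠ 0 := by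
  intro h
  rw [Complex.sin_eq_zero_iff] at h
  obtain ⟨k, hk⟩ := h
  have := congrArg Complex.im hk
  simp [Complex.add_im, Complex.mul_im] at this
  exact hδ.ne' this

/-- `(x - p) (x - q) = - ((q - p) / 2)² sin²` -/
theorem cutf_pq (p q ζ : ℂ) : (segx p q ζ - p) * (segx p q ζ - q)
    = -((q - p) / 2 * Complex.sin (2 * Real.pi * ζ)) ^ 2 := by
  have h := Complex.sin_sq_add_cos_sq (2 * Real.pi * ζ)
  unfold segx
  have h2 : Complex.sin (2 * Real.pi * ζ) ^ 2 = 1 - Complex.cos (2 * Real.pi * ζ) ^ 2 := by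
    rw [← h]; ring
  rw [mul_pow, h2]
  ring

theorem cutf_prod (a : Fin 4 → ℂ) (e : Fin 5 → ℂ) (hf : ∀ x, quintic a x = ∏ j, (x - e j))
    (σ : Equiv.Perm (Fin 5)) (x : ℂ) :
    quintic a x = (x - e (σ 0)) * (x - e (σ 1)) * ∏ j : Fin 3, (x - e (σ (Fin.natAdd 2 j))) := by
  rw [hf x, ← Equiv.prod_comp σ (fun j => x - e j)]
  rw [Fin.prod_univ_five, Fin.prod_univ_three]
  simp only [Fin.natAdd]
  have h2 : (⟨2 + ((0 : Fin 3) : ℕ), by norm_num⟩ : Fin 5) = 2 := rfl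
  have h3 : (⟨2 + ((1 : Fin 3) : ℕ), by norm_num⟩ : Fin 5) = 3 := rfl
  have h4 : (⟨2 + ((2 : Fin 3) : ℕ), by norm_num⟩ : Fin 5) = 4 := rfl
  rw [h2, h3, h4]
  ring

theorem cutf_hasDeriv (p q : ℂ) (δ t : ℝ) :
    HasDerivAt (fun t : ℝ => segx p q (t + δ * Complex.I))
      (-(2 * Real.pi * ((q - p) / 2) * Complex.sin (2 * Real.pi * (t + δ * Complex.I)))) t := by
  have h1 : HasDerivAt (fun t : ℝ => (2 * Real.pi * ((t : ℂ) + δ * Complex.I) : ℂ)) (2 * Real.pi) t := by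
    have h0 : HasDerivAt (fun t : ℝ => ((t : ℂ) + δ * Complex.I)) 1 t :=
      (Complex.ofRealCLM.hasDerivAt (x := t)).add_const _
    have := h0.const_mul (2 * Real.pi : ℂ)
    simpa using this
  have h2 := (Complex.hasDerivAt_cos (2 * Real.pi * ((t : ℂ) + δ * Complex.I))).comp t h1
  have h3 := (h2.const_mul ((q - p) / 2)).const_add ((p + q) / 2)
  unfold segx
  refine h3.congr_deriv ?_
  ring

theorem cutf_pos {a₀ : Fin 4 → ℂ} {U : Set (Fin 4 → ℂ)} (hU : U ∈ 𝓝 a₀)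
    {e : (Fin 4 → ℂ) → Fin 5 → ℂ} (he : ContinuousOn e U)
    {r : Fin 5 → ℝ} (hr : ∀ j, e a₀ j = r j)
    (σ : Equiv.Perm (Fin 5)) (s : Fin 3 → ℝ)
    (h0 : ∀ j : Fin 3, 0 < s j * (r (σ 0) - r (σ (Fin.natAdd 2 j))))
    (h1 : ∀ j : Fin 3, 0 < s j * (r (σ 1) - r (σ (Fin.natAdd 2 j)))) :
    ∃ δ : ℝ, 0 < δ ∧ ∀ᶠ a in 𝓝 a₀, ∀ (t y : ℝ), |y| ≤ |δ| → ∀ j : Fin 3,
      0 < (s j * (segx (e a (σ 0)) (e a (σ 1)) (t + y * Complex.I)
        - e a (σ (Fin.natAdd 2 j)))).re := by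
  have hea : ContinuousAt e a₀ := he.continuousAt hU
  have heaj : ∀ j, ContinuousAt (fun a => e a j) a₀ := fun j => (continuousAt_apply j _).comp hea
  have key : ∀ᶠ z : (Fin 4 → ℂ) × ℝ in 𝓝 (a₀, 0), ∀ t ∈ Icc (0 : ℝ) 1, ∀ j : Fin 3,
      0 < (s j * (segx (e z.1 (σ 0)) (e z.1 (σ 1)) (t + z.2 * Complex.I)
        - e z.1 (σ (Fin.natAdd 2 j)))).re := by
    refine IsCompact.eventually_forall_of_forall_eventually isCompact_Icc ?_
    intro t ht
    rw [eventually_all]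
    intro j
    have hc : ContinuousAt (fun z : ((Fin 4 → ℂ) × ℝ) × ℝ =>
        (s j * (segx (e z.1.1 (σ 0)) (e z.1.1 (σ 1)) (z.2 + z.1.2 * Complex.I)
        - e z.1.1 (σ (Fin.natAdd 2 j)))).re) ((a₀, 0), t) := by
      have hj : ∀ j, ContinuousAt (fun z : ((Fin 4 → ℂ) × ℝ) × ℝ => e z.1.1 j) ((a₀, 0), t) := by
        intro j
        have hfst : ContinuousAt (fun z : ((Fin 4 → ℂ) × ℝ) × ℝ => z.1.1) ((a₀, 0), t) := by fun_prop
        exact ContinuousAt.comp (g := fun a => e a j) (heaj j) hfst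
      have hcos : ContinuousAt (fun z : ((Fin 4 → ℂ) × ℝ) × ℝ =>
          Complex.cos (2 * Real.pi * ((z.2 : ℂ) + z.1.2 * Complex.I))) ((a₀, 0), t) := by fun_prop
      unfold segx
      exact Complex.continuous_re.continuousAt.comp
        (continuousAt_const.mul (((((hj _).add (hj _)).div_const _).add
          ((((hj _).sub (hj _)).div_const _).mul hcos)).sub (hj _)))
    refine hc.eventually (lt_mem_nhds ?_)
    simp only [hr]
    have hcosr : Complex.cos (2 * Real.pi * ((t : ℂ) + ((0 : ℝ) : ℂ) * Complex.I))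
        = ((Real.cos (2 * Real.pi * t) : ℝ) : ℂ) := by
      push_cast
      congr 1
      ring
    have hval : (s j * (segx (r (σ 0)) (r (σ 1)) ((t : ℂ) + ((0 : ℝ) : ℂ) * Complex.I)
        - r (σ (Fin.natAdd 2 j))) : ℂ)
        = (((1 + Real.cos (2 * Real.pi * t)) / 2 * (s j * (r (σ 1) - r (σ (Fin.natAdd 2 j))))
          + (1 - Real.cos (2 * Real.pi * t)) / 2 * (s j * (r (σ 0) - r (σ (Fin.natAdd 2 j)))) : ℝ) : ℂ) := by
      unfold segx
      rw [hcosr]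
      push_cast
      ring
    rw [hval, Complex.ofReal_re]
    have hb1 := Real.neg_one_le_cos (2 * Real.pi * t)
    have hb2 := Real.cos_le_one (2 * Real.pi * t)
    have := h0 j
    have := h1 j
    rcases le_or_gt 0 (Real.cos (2 * Real.pi * t)) with hc | hc
    · have e1 : 0 < (1 + Real.cos (2 * Real.pi * t)) / 2 * (s j * (r (σ 1) - r (σ (Fin.natAdd 2 j)))) :=
        mul_pos (by linarith) (h1 j)
      have e2 : 0 ≤ (1 - Real.cos (2 * Real.pi * t)) / 2 * (s j * (r (σ 0) - r (σ (Fin.natAdd 2 j)))) :=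
        mul_nonneg (by linarith) (h0 j).le
      linarith
    · have e1 : 0 ≤ (1 + Real.cos (2 * Real.pi * t)) / 2 * (s j * (r (σ 1) - r (σ (Fin.natAdd 2 j)))) :=
        mul_nonneg (by linarith) (h1 j).le
      have e2 : 0 < (1 - Real.cos (2 * Real.pi * t)) / 2 * (s j * (r (σ 0) - r (σ (Fin.natAdd 2 j)))) :=
        mul_pos (by linarith) (h0 j)
      linarith
  rw [nhds_prod_eq, eventually_prod_iff] at key
  obtain ⟨pa, hpa, pb, hpb, hab⟩ := key
  rw [Metric.eventually_nhds_iff] at hpb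
  obtain ⟨ε, hε, hpb⟩ := hpb
  refine ⟨ε / 2, by positivity, ?_⟩
  filter_upwards [hpa] with a ha t y hy j
  have hy' : pb y := hpb (by
    rw [Real.dist_eq, sub_zero]
    rw [abs_of_pos (by positivity : 0 < ε / 2)] at hy
    linarith)
  have h2 := hab ha hy' (Int.fract t) ⟨Int.fract_nonneg t, (Int.fract_lt_one t).le⟩ j
  have hper : ∀ (n : ℤ) (ζ : ℂ), segx (e a (σ 0)) (e a (σ 1)) (ζ + n)
      = segx (e a (σ 0)) (e a (σ 1)) ζ := by
    intro n ζ
    unfold segx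
    have : (2 * Real.pi * (ζ + n) : ℂ) = 2 * Real.pi * ζ + n * (2 * Real.pi) := by ring
    rw [this, Complex.cos_add_int_mul_two_pi]
  have h3 : (t : ℂ) + y * Complex.I = ((Int.fract t : ℝ) : ℂ) + y * Complex.I + (⌊t⌋ : ℤ) := by
    have := Int.fract_add_floor t
    have h4 : (t : ℂ) = ((Int.fract t + ⌊t⌋ : ℝ) : ℂ) := by rw [this]
    rw [h4]
    push_cast
    ring
  rw [h3, hper]
  exact h2

-- T3 (file CutFamily)
theorem cut_family {a₀ : Fin 4 → ℂ} {U : Set (Fin 4 → ℂ)} (hU : U ∈ 𝓝 a₀)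
    {e : (Fin 4 → ℂ) → Fin 5 → ℂ} (he : ContinuousOn e U)
    (hf : ∀ a ∈ U, ∀ x, quintic a x = ∏ j, (x - e a j)) {r : Fin 5 → ℝ} (hr : ∀ j, e a₀ j = r j)
    (σ : Equiv.Perm (Fin 5)) (hσ : r (σ 0) ≠ r (σ 1)) (s : Fin 3 → ℝ) (hs : ∀ j, s j = 1 ∨ s j = -1)
    (h0 : ∀ j : Fin 3, 0 < s j * (r (σ 0) - r (σ (Fin.natAdd 2 j))))
    (h1 : ∀ j : Fin 3, 0 < s j * (r (σ 1) - r (σ (Fin.natAdd 2 j)))) :
    ∃ (P : (Fin 4 → ℂ) → ℂ) (C : ℂ), C ≠ 0 ∧ IsLocalPeriod a₀ P ∧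
      ∀ᶠ a in 𝓝 a₀, P a = C * cutInt s (e a (σ 0)) (e a (σ 1)) (fun j => e a (σ (Fin.natAdd 2 j))) := by
  obtain ⟨δ, hδ, hpos⟩ := cutf_pos hU he hr σ s h0 h1
  have hea : ContinuousAt e a₀ := he.continuousAt hU
  have heaj : ∀ j, ContinuousAt (fun a => e a j) a₀ := fun j => (continuousAt_apply j _).comp hea
  have hne : ∀ᶠ a in 𝓝 a₀, e a (σ 1) - e a (σ 0) ≠ 0 := by
    have hc : ContinuousAt (fun a => e a (σ 1) - e a (σ 0)) a₀ := (heaj _).sub (heaj _)
    refine hc.eventually_ne ?_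
    simp only [hr]
    rw [sub_ne_zero]
    intro h
    exact hσ (by exact_mod_cast h.symm)
  -- the constant
  have hprod : (∏ j : Fin 3, (s j : ℂ)) ^ 2 = 1 := by
    rw [← Finset.prod_pow]
    refine Finset.prod_eq_one ?_
    intro j _
    rcases hs j with h | h <;> rw [h] <;> norm_num
  obtain ⟨κ, hκ⟩ : ∃ κ : ℂ, κ ^ 2 = -∏ j : Fin 3, (s j : ℂ) :=
    ⟨csq (-∏ j : Fin 3, (s j : ℂ)), cutf_csq_sq _⟩
  have hκ0 : κ ≠ 0 := by
    intro h
    rw [h] at hκ
    have h2 : (∏ j : Fin 3, (s j : ℂ)) = 0 := by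
      have : (0 : ℂ) = -∏ j : Fin 3, (s j : ℂ) := by rw [← hκ]; norm_num
      have h3 := congrArg Neg.neg this
      simpa using h3.symm
    rw [h2] at hprod
    norm_num at hprod
  -- the family
  set x : (Fin 4 → ℂ) → ℝ → ℂ := fun a t =>
    segx (e a (σ 0)) (e a (σ 1)) (t + δ * Complex.I) with hx
  set y : (Fin 4 → ℂ) → ℝ → ℂ := fun a t =>
    κ * ((e a (σ 1) - e a (σ 0)) / 2) * Complex.sin (2 * Real.pi * (t + δ * Complex.I)) *
      ∏ j : Fin 3, csq (s j * (x a t - e a (σ (Fin.natAdd 2 j)))) with hy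
  have hgood : ∀ᶠ a in 𝓝 a₀, a ∈ U ∧ e a (σ 1) - e a (σ 0) ≠ 0 ∧ ∀ (t y : ℝ), |y| ≤ |δ| →
      ∀ j : Fin 3, 0 < (s j * (segx (e a (σ 0)) (e a (σ 1)) (t + y * Complex.I)
        - e a (σ (Fin.natAdd 2 j)))).re := by
    filter_upwards [hU, hne, hpos] with a h1 h2 h3
    exact ⟨h1, h2, h3⟩
  set V : Set (Fin 4 → ℂ) := {a | a ∈ U ∧ e a (σ 1) - e a (σ 0) ≠ 0 ∧ ∀ (t y : ℝ), |y| ≤ |δ| →
      ∀ j : Fin 3, 0 < (s j * (segx (e a (σ 0)) (e a (σ 1)) (t + y * Complex.I)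
        - e a (σ (Fin.natAdd 2 j)))).re} with hV
  have hVn : V ∈ 𝓝 a₀ := hgood
  have hVU : V ⊆ U := fun a ha => ha.1
  have hejV : ∀ j, ContinuousOn (fun q : (Fin 4 → ℂ) × ℝ => e q.1 j) (V ×ˢ univ) := by
    intro j
    have h1 : ContinuousOn (fun a => e a j) V :=
      ((continuous_apply j).comp_continuousOn he).mono hVU
    exact h1.comp continuousOn_fst (fun q hq => hq.1)
  have hcosV : ContinuousOn (fun q : (Fin 4 → ℂ) × ℝ =>
      Complex.cos (2 * Real.pi * ((q.2 : ℂ) + δ * Complex.I))) (V ×ˢ univ) := by fun_prop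
  have hsinV : ContinuousOn (fun q : (Fin 4 → ℂ) × ℝ =>
      Complex.sin (2 * Real.pi * ((q.2 : ℂ) + δ * Complex.I))) (V ×ˢ univ) := by fun_prop
  have hxV : ContinuousOn (fun q : (Fin 4 → ℂ) × ℝ => x q.1 q.2) (V ×ˢ univ) := by
    simp only [hx]
    unfold segx
    exact (((hejV _).add (hejV _)).div_const _).add
      ((((hejV _).sub (hejV _)).div_const _).mul hcosV)
  have hyV : ContinuousOn (fun q : (Fin 4 → ℂ) × ℝ => y q.1 q.2) (V ×ˢ univ) := by
    simp only [hy]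
    refine ((continuousOn_const.mul (((hejV _).sub (hejV _)).div_const _)).mul hsinV).mul ?_
    refine continuousOn_finsetProd _ ?_
    intro j _
    intro q hq
    have hqc : ContinuousWithinAt (fun q : (Fin 4 → ℂ) × ℝ =>
        (s j * (x q.1 q.2 - e q.1 (σ (Fin.natAdd 2 j))) : ℂ)) (V ×ˢ univ) q :=
      (continuousOn_const.mul (hxV.sub (hejV _))) q hq
    have hcq : ContinuousAt csq (s j * (x q.1 q.2 - e q.1 (σ (Fin.natAdd 2 j)))) :=
      cutf_csq_cont (hq.1.2.2 q.2 δ le_rfl j)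
    exact ContinuousAt.comp_continuousWithinAt (f := fun q : (Fin 4 → ℂ) × ℝ =>
      (s j * (x q.1 q.2 - e q.1 (σ (Fin.natAdd 2 j))) : ℂ)) hcq hqc
  have hloop : ∀ a ∈ V, IsLoop a (x a) (y a) := by
    intro a ha
    refine ⟨?_, ?_, ?_, ?_, ?_⟩
    · simp only [hx]
      unfold segx
      refine contDiff_const.add (contDiff_const.mul ?_)
      refine (Complex.contDiff_cos (n := 1)).restrict_scalars ℝ |>.comp ?_
      exact contDiff_const.mul (Complex.ofRealCLM.contDiff.add contDiff_const)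
    · have hc : Continuous (fun t : ℝ => (a, t)) := by fun_prop
      have := hyV.comp_continuous hc (fun t => ⟨ha, mem_univ _⟩)
      exact this
    · intro t
      rw [cutf_prod a (e a) (hf a ha.1) σ, cutf_pq]
      simp only [hy]
      rw [mul_pow, mul_pow, mul_pow, hκ, ← Finset.prod_pow]
      simp only [cutf_csq_sq]
      rw [Finset.prod_mul_distrib]
      have : ∀ A B D E : ℂ, A ^ 2 = 1 → -A * B ^ 2 * D ^ 2 * (A * E) = -(B * D) ^ 2 * E := by
        intro A B D E hA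
        linear_combination (-(B ^ 2 * D ^ 2 * E)) * hA
      exact this _ _ _ _ hprod
    · intro t
      simp only [hy]
      refine mul_ne_zero (mul_ne_zero (mul_ne_zero hκ0 (div_ne_zero ha.2.1 (by norm_num)))
        (cutf_sin_ne hδ)) ?_
      rw [Finset.prod_ne_zero_iff]
      intro j _
      exact cutf_csq_ne (ha.2.2 t δ le_rfl j)
    · have hx1 : x a 1 = x a 0 := by
        simp only [hx]
        have : ((1 : ℝ) : ℂ) + δ * Complex.I = (((0 : ℝ) : ℂ) + δ * Complex.I) + 1 := by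
          push_cast; ring
        rw [this, cutf_segx_add]
      refine ⟨hx1, ?_⟩
      simp only [hy]
      rw [hx1]
      have : (2 * Real.pi * (((1 : ℝ) : ℂ) + δ * Complex.I) : ℂ)
          = 2 * Real.pi * (((0 : ℝ) : ℂ) + δ * Complex.I) + 2 * Real.pi := by
        push_cast; ring
      rw [this, Complex.sin_add_two_pi]
  refine ⟨fun a => period (x a) (y a), -(2 * Real.pi / κ), ?_, ⟨V, hVn, x, y, hxV, hyV, ?_⟩, ?_⟩
  · refine neg_ne_zero.mpr (div_ne_zero ?_ hκ0)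
    simp [Real.pi_ne_zero]
  · intro a ha
    exact ⟨hloop a ha, rfl⟩
  · filter_upwards [hVn] with a ha
    have hcs := cut_shift s (e a (σ 0)) (e a (σ 1)) (fun j => e a (σ (Fin.natAdd 2 j))) δ ha.2.2
    rw [← hcs]
    unfold period
    rw [← intervalIntegral.integral_const_mul]
    refine intervalIntegral.integral_congr ?_
    intro t _
    simp only
    have hd : deriv (x a) t = -(2 * Real.pi * ((e a (σ 1) - e a (σ 0)) / 2) *
        Complex.sin (2 * Real.pi * (t + δ * Complex.I))) := (cutf_hasDeriv _ _ δ t).deriv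
    rw [hd]
    have hyt : y a t = κ * ((e a (σ 1) - e a (σ 0)) / 2) *
      Complex.sin (2 * Real.pi * (t + δ * Complex.I)) *
      ∏ j : Fin 3, csq (s j * (segx (e a (σ 0)) (e a (σ 1)) (t + δ * Complex.I)
        - e a (σ (Fin.natAdd 2 j)))) := rfl
    rw [hyt]
    have hS := cutf_sin_ne (t := t) hδ
    have hD := ha.2.1
    have hPi : (∏ j : Fin 3, csq (s j * (segx (e a (σ 0)) (e a (σ 1)) (t + δ * Complex.I)
        - e a (σ (Fin.natAdd 2 j))))) ≠ 0 := by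
      rw [Finset.prod_ne_zero_iff]
      intro j _
      exact cutf_csq_ne (ha.2.2 t δ le_rfl j)
    have : ∀ A B D E : ℂ, B ≠ 0 → D ≠ 0 → E ≠ 0 →
        -(A * (D / 2) * E) / (κ * (D / 2) * E * B) = -(A / κ) * B⁻¹ := by
      intro A B D E hB hD hE
      field_simp
    exact this _ _ _ _ hPi hD hS

end Pool.Agent.AO
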