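import Mathlib

/-!
# The stratum `S_(2)` of abelian differentials of genus two with one double zero

Every pair `(C, [ω])` with `C` a curve of genus two and `ω` a holomorphic one-form with a double zero is
isomorphic to `(y² = f(x), [dx / y])` for a squarefree monic centred quintic
`f = x⁵ + a₀ x³ + a₁ x² + a₂ x + a₃` (the zero of `ω` is the point at infinity), and `a` is unique up
to the weighted scaling `a_i ↦ l ^ (i + 2) a_i`, `l ≠ 0`. So `S_(2)` is the quotient of the open subset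
`{a | SquareFree a}` of `ℂ⁴` by this action of `ℂˣ`, and its closed irreducible subvarieties are the
invariant closed irreducible subsets of `{a | SquareFree a}`.
-/

open Set Topology

noncomputable section

namespace Pool.Agent.AO

/-- The monic centred quintic `x⁵ + a₀ x³ + a₁ x² + a₂ x + a₃`. -/
def quintic (a : Fin 4 → ℂ) (x : ℂ) : ℂ := x ^ 5 + a 0 * x ^ 3 + a 1 * x ^ 2 + a 2 * x + a 3

/-- The derivative of `quintic a`. -/
def quintic' (a : Fin 4 → ℂ) (x : ℂ) : ℂ := 5 * x ^ 4 + 3 * a 0 * x ^ 2 + 2 * a 1 * x + a 2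

/-- The quintic has no multiple root: `y² = quintic a x` is a (smooth) curve of genus two. -/
def SquareFree (a : Fin 4 → ℂ) : Prop := ∀ x, quintic a x = 0 → quintic' a x ≠ 0

/-- The weighted scaling `a_i ↦ l ^ (i + 2) a_i`. -/
def scale (l : ℂ) (a : Fin 4 → ℂ) : Fin 4 → ℂ := fun i => l ^ (i.val + 2) * a i

/-- A closed curve `t ↦ (x t, y t)`, `0 ≤ t ≤ 1`, on `y² = quintic a x`, avoiding the Weierstrass
points (the five points with `y = 0` and the point at infinity). -/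
structure IsLoop (a : Fin 4 → ℂ) (x y : ℝ → ℂ) : Prop where
  smooth : ContDiff ℝ 1 x
  cont : Continuous y
  curve : ∀ t, y t ^ 2 = quintic a (x t)
  ne : ∀ t, y t ≠ 0
  closed : x 1 = x 0 ∧ y 1 = y 0

/-- The period `∫_γ dx / y`. -/
def period (x y : ℝ → ℂ) : ℂ := ∫ t in (0 : ℝ)..1, deriv x t / y t

/-- The point of `S_(2)` given by `a` is arithmetic: `(C, [ω])` is defined over the algebraic numbers,
and all periods of `ω` are algebraic multiples of one number. -/
def IsArithmetic (a : Fin 4 → ℂ) : Prop :=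
  (∃ l : ℂ, l ≠ 0 ∧ ∀ i, IsAlgebraic ℚ (scale l a i)) ∧
    ∃ p : ℂ, ∀ x y, IsLoop a x y → ∃ b : ℂ, IsAlgebraic ℚ b ∧ period x y = b * p

/-- `W` is (the preimage of) a closed irreducible algebraic subvariety of `S_(2)`. -/
structure IsSubvariety (W : Set (Fin 4 → ℂ)) : Prop where
  nonempty : W.Nonempty
  closed : ∃ I : Set (MvPolynomial (Fin 4) ℂ),
    W = {a | SquareFree a ∧ ∀ g ∈ I, MvPolynomial.eval a g = 0}
  irreducible : ∀ f g : MvPolynomial (Fin 4) ℂ,
    (∀ a ∈ W, MvPolynomial.eval a f * MvPolynomial.eval a g = 0) →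
      (∀ a ∈ W, MvPolynomial.eval a f = 0) ∨ ∀ a ∈ W, MvPolynomial.eval a g = 0
  invariant : ∀ l : ℂ, l ≠ 0 → ∀ a ∈ W, scale l a ∈ W

/-- The arithmetic points of `W` are Zariski dense in `W`. -/
def ArithmeticDense (W : Set (Fin 4 → ℂ)) : Prop :=
  ∀ g : MvPolynomial (Fin 4) ℂ, (∀ a ∈ W, IsArithmetic a → MvPolynomial.eval a g = 0) →
    ∀ a ∈ W, MvPolynomial.eval a g = 0

/-- `W ⊆ ℂ⁴` has dimension at most `k`: any `k + 1` polynomial functions are algebraically dependent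
on `W`. -/
def DimLE (W : Set (Fin 4 → ℂ)) (k : ℕ) : Prop :=
  ∀ g : Fin (k + 1) → MvPolynomial (Fin 4) ℂ, ∃ F : MvPolynomial (Fin (k + 1)) ℂ, F ≠ 0 ∧
    ∀ a ∈ W, MvPolynomial.eval (fun i => MvPolynomial.eval a (g i)) F = 0

/-- `P` is a period coordinate near `a₀`: `P a = ∫_{γ_a} dx / y`, where the closed curve `γ_a` on
`y² = quintic a x` depends continuously on `a` (so that its homology class is transported flatly). -/
def IsLocalPeriod (a₀ : Fin 4 → ℂ) (P : (Fin 4 → ℂ) → ℂ) : Prop :=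
  ∃ U ∈ 𝓝 a₀, ∃ x y : (Fin 4 → ℂ) → ℝ → ℂ,
    ContinuousOn (fun q : (Fin 4 → ℂ) × ℝ => x q.1 q.2) (U ×ˢ univ) ∧
    ContinuousOn (fun q : (Fin 4 → ℂ) × ℝ => y q.1 q.2) (U ×ˢ univ) ∧
    ∀ a ∈ U, IsLoop a (x a) (y a) ∧ P a = period (x a) (y a)

/-- `W` is bi-algebraic: it is algebraic in the period charts, that is, if `dim W ≤ k` then near every
point of `W` any `k + 1` period coordinates are algebraically dependent over `ℂ` on `W`. -/
def IsBialgebraic (W : Set (Fin 4 → ℂ)) : Prop :=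
  ∀ k : ℕ, DimLE W k → ∀ a₀ ∈ W, ∀ P : Fin (k + 1) → (Fin 4 → ℂ) → ℂ,
    (∀ i, IsLocalPeriod a₀ (P i)) → ∃ F : MvPolynomial (Fin (k + 1)) ℂ, F ≠ 0 ∧
      ∀ᶠ a in 𝓝[W] a₀, MvPolynomial.eval (fun i => P i a) F = 0

end Pool.Agent.AO
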