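import Pool.Agent.Lib.MP_779fbc_ag.Liou
import Pool.Agent.Lib.MP_779fbc_ag.Inj


open Set Topology Filter

noncomputable section

namespace Pool.Agent.AO

theorem elp_hasDerivAt_weierstrassP (L : PeriodPair) {z : ℂ} (hz : z ∉ L.lattice) :
    HasDerivAt L.weierstrassP (L.derivWeierstrassP z) z := by
  have h1 : DifferentiableAt ℂ L.weierstrassP z :=
    L.differentiableOn_weierstrassP.differentiableAt
      (L.isClosed_lattice.isOpen_compl.mem_nhds hz)
  have h2 := h1.hasDerivAt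
  rwa [L.deriv_weierstrassP] at h2

/-- near a lattice point `‖℘‖` is large -/
theorem elp_large (L : PeriodPair) {l : ℂ} (hl : l ∈ L.lattice) (M : ℝ) :
    ∀ᶠ ζ in 𝓝 l, ζ ≠ l → M < ‖L.weierstrassP ζ‖ := by
  have h1 : Tendsto L.weierstrassP (𝓝[≠] l) (Bornology.cobounded ℂ) :=
    tendsto_cobounded_of_meromorphicOrderAt_neg (by rw [L.order_weierstrassP l hl]; decide)
  have h2 := (tendsto_norm_atTop_iff_cobounded.mpr h1).eventually_gt_atTop M
  have h3 := eventually_nhdsWithin_iff.mp h2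
  filter_upwards [h3] with ζ hζ hne using hζ hne

/-- the vector field -/
def elp_field (g : ℂ) (z : ℝ → ℂ) (t : ℝ) (y : ℂ × ℂ) : ℂ × ℂ :=
  (z t * y.2, z t * (6 * y.1 ^ 2 - g))

theorem elp_field_lip (g : ℂ) {z : ℝ → ℂ} (hz : Continuous z) (t₀ : ℝ) (y₀ : ℂ × ℂ) :
    ∃ K : NNReal, ∀ᶠ t in 𝓝 t₀, LipschitzOnWith K (elp_field g z t) (Metric.ball y₀ 1) := by
  set M : ℝ := ‖z t₀‖ + 1 with hM
  set R : ℝ := ‖y₀‖ + 1 with hR
  have hM0 : 0 ≤ M := by positivity
  have hR1 : 1 ≤ R := by simp [hR]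
  refine ⟨⟨M * (12 * R), by positivity⟩, ?_⟩
  have h1 : ∀ᶠ t in 𝓝 t₀, ‖z t‖ < M :=
    (hz.norm.continuousAt (x := t₀)).eventually_lt_const (by simp [hM])
  filter_upwards [h1] with t ht
  refine LipschitzOnWith.of_dist_le_mul fun x hx y hy => ?_
  have hx1 : ‖x‖ ≤ R := by
    have : ‖x - y₀‖ < 1 := by simpa [dist_eq_norm] using hx
    calc ‖x‖ = ‖(x - y₀) + y₀‖ := by simp
      _ ≤ ‖x - y₀‖ + ‖y₀‖ := norm_add_le _ _
      _ ≤ R := by rw [hR]; linarith
  have hy1 : ‖y‖ ≤ R := by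
    have : ‖y - y₀‖ < 1 := by simpa [dist_eq_norm] using hy
    calc ‖y‖ = ‖(y - y₀) + y₀‖ := by simp
      _ ≤ ‖y - y₀‖ + ‖y₀‖ := norm_add_le _ _
      _ ≤ R := by rw [hR]; linarith
  have hx11 : ‖x.1‖ ≤ R := (norm_fst_le x).trans hx1
  have hy11 : ‖y.1‖ ≤ R := (norm_fst_le y).trans hy1
  have hd1 : ‖x.1 - y.1‖ ≤ ‖x - y‖ := norm_fst_le (x - y)
  have hd2 : ‖x.2 - y.2‖ ≤ ‖x - y‖ := norm_snd_le (x - y)
  rw [dist_eq_norm, dist_eq_norm]
  change ‖elp_field g z t x - elp_field g z t y‖ ≤ (M * (12 * R)) * ‖x - y‖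
  have hnn : 0 ≤ ‖x - y‖ := norm_nonneg _
  have hzt : ‖z t‖ ≤ M := ht.le
  rw [Prod.norm_def]
  refine max_le ?_ ?_
  · have e1 : (elp_field g z t x - elp_field g z t y).1 = z t * (x.2 - y.2) := by
      simp only [elp_field, Prod.fst_sub]; ring
    rw [e1, norm_mul]
    calc ‖z t‖ * ‖x.2 - y.2‖ ≤ M * ‖x - y‖ := by gcongr
      _ ≤ (M * (12 * R)) * ‖x - y‖ := by
        apply mul_le_mul_of_nonneg_right _ hnn
        nlinarith
  · have e1 : (elp_field g z t x - elp_field g z t y).2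
        = z t * (6 * ((x.1 + y.1) * (x.1 - y.1))) := by
      simp only [elp_field, Prod.snd_sub]; ring
    rw [e1, norm_mul, norm_mul, norm_mul]
    have h6 : ‖(6 : ℂ)‖ = 6 := by norm_num
    have hs : ‖x.1 + y.1‖ ≤ R + R := (norm_add_le _ _).trans (add_le_add hx11 hy11)
    rw [h6]
    calc ‖z t‖ * (6 * (‖x.1 + y.1‖ * ‖x.1 - y.1‖)) ≤ M * (6 * ((R + R) * ‖x - y‖)) := by gcongr
      _ = (M * (12 * R)) * ‖x - y‖ := by ring

theorem eloop_period (L : PeriodPair) {u v z : ℝ → ℂ} (h : ELoop L.g₂ L.g₃ u v z) :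
    (∫ t in (0 : ℝ)..1, z t) ∈ L.lattice := by
  obtain ⟨z₀, hz₀, hu0, hv0⟩ := exists_weierstrass L (h.curve 0)
  set Z : ℝ → ℂ := fun t => z₀ + ∫ s in (0 : ℝ)..t, z s with hZ
  have hZd : ∀ t, HasDerivAt Z (z t) t := by
    intro t
    have h1 : HasDerivAt (fun t => ∫ s in (0 : ℝ)..t, z s) (z t) t :=
      intervalIntegral.integral_hasDerivAt_right (h.hz.intervalIntegrable _ _)
        (h.hz.stronglyMeasurableAtFilter _ _) h.hz.continuousAt
    exact h1.const_add z₀
  have hZc : Continuous Z := continuous_iff_continuousAt.mpr fun t => (hZd t).continuousAt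
  have huc : Continuous u := continuous_iff_continuousAt.mpr fun t => (h.hu t).continuousAt
  have hvc : Continuous v := continuous_iff_continuousAt.mpr fun t => (h.hv t).continuousAt
  set S : Set ℝ := {t | Z t ∉ L.lattice ∧ L.weierstrassP (Z t) = u t ∧
    L.derivWeierstrassP (Z t) = v t} with hS
  have hopen : IsOpen ((L.lattice : Set ℂ)ᶜ) := L.isClosed_lattice.isOpen_compl
  -- S is closed
  have hScl : IsClosed S := by
    rw [← closure_subset_iff_isClosed]
    intro t ht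
    have hfr : ∃ᶠ s in 𝓝 t, s ∈ S := mem_closure_iff_frequently.mp ht
    by_cases hZt : Z t ∈ L.lattice
    · exfalso
      have h1 := hZc.continuousAt.eventually (elp_large L hZt (‖u t‖ + 1))
      have h2 : ∀ᶠ s in 𝓝 t, ‖u s‖ < ‖u t‖ + 1 :=
        (huc.norm.continuousAt (x := t)).eventually_lt_const (by simp)
      obtain ⟨s, ⟨hs1, hs2, -⟩, hs4, hs5⟩ := (hfr.and_eventually (h1.and h2)).exists
      have hne : Z s ≠ Z t := fun e => hs1 (by rw [e]; exact hZt)
      have := hs4 hne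
      rw [hs2] at this
      linarith
    · have c1 : ContinuousAt (fun s => L.weierstrassP (Z s)) t :=
        (elp_hasDerivAt_weierstrassP L hZt).continuousAt.comp (f := Z) hZc.continuousAt
      have c2 : ContinuousAt (fun s => L.derivWeierstrassP (Z s)) t :=
        (hasDerivAt_derivWeierstrassP L hZt).continuousAt.comp (f := Z) hZc.continuousAt
      refine ⟨hZt, ?_, ?_⟩
      · exact tendsto_nhds_unique_of_frequently_eq c1 huc.continuousAt (hfr.mono fun s hs => hs.2.1)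
      · exact tendsto_nhds_unique_of_frequently_eq c2 hvc.continuousAt (hfr.mono fun s hs => hs.2.2)
  -- S is open
  have hSop : IsOpen S := by
    rw [isOpen_iff_mem_nhds]
    intro t ht
    obtain ⟨ht1, ht2, ht3⟩ := ht
    obtain ⟨K, hK⟩ := elp_field_lip (L.g₂ / 2) h.hz t (u t, v t)
    have hZn : ∀ᶠ s in 𝓝 t, Z s ∉ L.lattice := hZc.continuousAt.eventually (hopen.mem_nhds ht1)
    have hf : ∀ᶠ s in 𝓝 t, HasDerivAt (fun s => (u s, v s))
        (elp_field (L.g₂ / 2) z s (u s, v s)) s ∧ (u s, v s) ∈ Metric.ball (u t, v t) 1 := by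
      have hc : ContinuousAt (fun s => (u s, v s)) t := (huc.prodMk hvc).continuousAt
      have h3 := hc.eventually (Metric.ball_mem_nhds (u t, v t) one_pos)
      filter_upwards [h3] with s hs
      refine ⟨?_, hs⟩
      exact (h.hu s).prodMk (h.hv s)
    have hg : ∀ᶠ s in 𝓝 t, HasDerivAt (fun s => (L.weierstrassP (Z s), L.derivWeierstrassP (Z s)))
        (elp_field (L.g₂ / 2) z s (L.weierstrassP (Z s), L.derivWeierstrassP (Z s))) s ∧
          (L.weierstrassP (Z s), L.derivWeierstrassP (Z s)) ∈ Metric.ball (u t, v t) 1 := by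
      have c1 : ContinuousAt (fun s => L.weierstrassP (Z s)) t :=
        (elp_hasDerivAt_weierstrassP L ht1).continuousAt.comp (f := Z) hZc.continuousAt
      have c2 : ContinuousAt (fun s => L.derivWeierstrassP (Z s)) t :=
        (hasDerivAt_derivWeierstrassP L ht1).continuousAt.comp (f := Z) hZc.continuousAt
      have hc := c1.prodMk c2
      have e0 : (L.weierstrassP (Z t), L.derivWeierstrassP (Z t)) = (u t, v t) := by
        rw [ht2, ht3]
      have h3 : ∀ᶠ s in 𝓝 t, (L.weierstrassP (Z s), L.derivWeierstrassP (Z s)) ∈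
          Metric.ball (u t, v t) 1 := by
        apply hc.eventually
        rw [← e0]
        exact Metric.ball_mem_nhds _ one_pos
      filter_upwards [h3, hZn] with s hs hs'
      refine ⟨?_, hs⟩
      have d1 := (elp_hasDerivAt_weierstrassP L hs').comp_of_eq s (hZd s) rfl
      have d2 := (hasDerivAt_derivWeierstrassP L hs').comp_of_eq s (hZd s) rfl
      have d3 := d1.prodMk d2
      have e1 : elp_field (L.g₂ / 2) z s (L.weierstrassP (Z s), L.derivWeierstrassP (Z s)) =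
          (L.derivWeierstrassP (Z s) * z s, (6 * L.weierstrassP (Z s) ^ 2 - L.g₂ / 2) * z s) := by
        simp only [elp_field, Prod.mk.injEq]
        constructor <;> ring
      rw [e1]
      exact d3
    have heq := ODE_solution_unique_of_eventually hK hf hg (by simp only [ht2, ht3])
    filter_upwards [heq, hZn] with s hs hs'
    have := Prod.mk.inj hs
    exact ⟨hs', this.1.symm, this.2.symm⟩
  have h0 : (0 : ℝ) ∈ S := by
    refine ⟨?_, ?_, ?_⟩ <;> simp [hZ, hz₀, hu0, hv0]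
  have huniv : S = univ := IsClopen.eq_univ ⟨hScl, hSop⟩ ⟨0, h0⟩
  have h1 : (1 : ℝ) ∈ S := by rw [huniv]; trivial
  obtain ⟨k1, k2, k3⟩ := h1
  have hfin := weierstrass_inj L k1 hz₀ (by rw [k2, hu0, h.closed.1]) (by rw [k3, hv0, h.closed.2])
  simpa [hZ] using hfin

end Pool.Agent.AO
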