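import Pool.Agent.Lib.MP_779fbc_ag.FamW

/-! # Piece A4: density of the arithmetic points -/

open Set Topology Filter

noncomputable section

namespace Pool.Agent.AO

theorem dense_aux_eval (f : Fin 4 → Polynomial ℂ) (g : MvPolynomial (Fin 4) ℂ) (x : ℂ) :
    Polynomial.eval x (MvPolynomial.aeval f g) =
      MvPolynomial.eval (fun i => Polynomial.eval x (f i)) g := by
  have h : (Polynomial.aeval x : Polynomial ℂ →ₐ[ℂ] ℂ).comp (MvPolynomial.aeval f)
      = MvPolynomial.aeval (fun i => Polynomial.eval x (f i)) := by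
    apply MvPolynomial.algHom_ext
    intro i
    simp
  have h2 := DFunLike.congr_fun h g
  simpa [MvPolynomial.aeval_eq_eval, Polynomial.coe_aeval_eq_eval] using h2

/-- the family as a polynomial in `h` -/
def dense_aux_polyH (l : ℂ) : Fin 4 → Polynomial ℂ :=
  fun i => Polynomial.C (l ^ (i.val + 2)) *
    (![-10 * Polynomial.X ^ 2, 5 * Polynomial.X - 20 * Polynomial.X ^ 3,
      -1 + 10 * Polynomial.X ^ 2 - 15 * Polynomial.X ^ 4,
      -Polynomial.X + 5 * Polynomial.X ^ 3 - 4 * Polynomial.X ^ 5] i)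

theorem dense_aux_polyH_eval (l h : ℂ) :
    (fun i => Polynomial.eval h (dense_aux_polyH l i)) = scale l (fam h) := by
  funext i
  fin_cases i <;> simp [dense_aux_polyH, scale, fam]

theorem famW_dense {H : Set ℂ} (hH : H.Infinite) (hs : ∀ h ∈ H, 25 * h ^ 2 ≠ 4)
    (hA : ∀ h ∈ H, ∀ l : ℂ, l ≠ 0 → IsArithmetic (scale l (fam h))) : ArithmeticDense famW := by
  intro g hg
  have h1 : ∀ l : ℂ, l ≠ 0 → ∀ h : ℂ, MvPolynomial.eval (scale l (fam h)) g = 0 := by
    intro l hl
    have hzero : MvPolynomial.aeval (dense_aux_polyH l) g = 0 := by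
      apply Polynomial.eq_zero_of_infinite_isRoot
      apply hH.mono
      intro h hh
      rw [Set.mem_ofPred_eq, Polynomial.IsRoot.def, dense_aux_eval, dense_aux_polyH_eval]
      exact hg _ (mem_famW hl (hs h hh)) (hA h hh l hl)
    intro h
    rw [← dense_aux_polyH_eval, ← dense_aux_eval, hzero, Polynomial.eval_zero]
  have h2 : ∀ l h : ℂ, MvPolynomial.eval (scale l (fam h)) g = 0 := by
    intro l h
    have he : ∀ l : ℂ, (fun i => Polynomial.eval l ((fun i : Fin 4 =>
        Polynomial.X ^ (i.val + 2) * Polynomial.C (fam h i)) i)) = scale l (fam h) := by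
      intro l
      funext i
      simp only [scale, Polynomial.eval_mul, Polynomial.eval_pow, Polynomial.eval_X, Polynomial.eval_C]
    have hzero : MvPolynomial.aeval (fun i : Fin 4 =>
        (Polynomial.X ^ (i.val + 2) * Polynomial.C (fam h i) : Polynomial ℂ)) g = 0 := by
      apply Polynomial.eq_zero_of_infinite_isRoot
      apply (Set.infinite_univ.sdiff (Set.finite_singleton (0 : ℂ))).mono
      intro l hl
      rw [Set.mem_ofPred_eq, Polynomial.IsRoot.def, dense_aux_eval, he]
      exact h1 l hl.2 h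
    rw [← he, ← dense_aux_eval, hzero, Polynomial.eval_zero]
  intro a ha
  exact ha.2 g h2

end Pool.Agent.AO
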