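import Pool.Agent.Lib.MP_779fbc_ag.FamW

/-! # A3: the dimension of the family -/

open Set Topology

noncomputable section

namespace Pool.Agent.AO

/-- the coordinates of `scale l (fam h)` as polynomials in `(l, h)` -/
def famDim_coord : Fin 4 → MvPolynomial (Fin 2) ℂ :=
  ![MvPolynomial.X 0 ^ 2 * (MvPolynomial.C (-10) * MvPolynomial.X 1 ^ 2),
    MvPolynomial.X 0 ^ 3 * (MvPolynomial.C 5 * MvPolynomial.X 1
      - MvPolynomial.C 20 * MvPolynomial.X 1 ^ 3),
    MvPolynomial.X 0 ^ 4 * (MvPolynomial.C (-1) + MvPolynomial.C 10 * MvPolynomial.X 1 ^ 2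
      - MvPolynomial.C 15 * MvPolynomial.X 1 ^ 4),
    MvPolynomial.X 0 ^ 5 * (-MvPolynomial.X 1 + MvPolynomial.C 5 * MvPolynomial.X 1 ^ 3
      - MvPolynomial.C 4 * MvPolynomial.X 1 ^ 5)]

theorem famDim_coord_eval (l h : ℂ) (i : Fin 4) :
    MvPolynomial.eval ![l, h] (famDim_coord i) = scale l (fam h) i := by
  fin_cases i <;> simp [famDim_coord, scale, fam]

/-- substitution of the family -/
def famDim_sub : MvPolynomial (Fin 4) ℂ →ₐ[ℂ] MvPolynomial (Fin 2) ℂ :=
  MvPolynomial.aeval famDim_coord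

theorem famDim_sub_eval (l h : ℂ) (g : MvPolynomial (Fin 4) ℂ) :
    MvPolynomial.eval ![l, h] (famDim_sub g) = MvPolynomial.eval (scale l (fam h)) g := by
  unfold famDim_sub
  rw [MvPolynomial.aeval_def, MvPolynomial.eval_eval₂]
  have h1 : (MvPolynomial.eval ![l, h]).comp (algebraMap ℂ (MvPolynomial (Fin 2) ℂ))
      = RingHom.id ℂ := by
    ext z
    simp [MvPolynomial.algebraMap_eq]
  rw [h1]
  have h2 : (fun i => MvPolynomial.eval ![l, h] (famDim_coord i)) = scale l (fam h) :=
    funext fun i => famDim_coord_eval l h i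
  rw [h2]
  rfl

/-- three polynomials in two variables are algebraically dependent -/
theorem famDim_dep (g : Fin 3 → MvPolynomial (Fin 2) ℂ) :
    ∃ F : MvPolynomial (Fin 3) ℂ, F ≠ 0 ∧ MvPolynomial.aeval g F = 0 := by
  by_contra hcon
  push Not at hcon
  have hind : AlgebraicIndependent ℂ g := by
    rw [algebraicIndependent_iff]
    intro F hF
    by_contra hne
    exact hcon F hne hF
  have h1 := hind.cardinalMk_le_trdeg
  rw [MvPolynomial.trdeg_of_isDomain] at h1
  simp only [Cardinal.mk_fintype, Fintype.card_fin, Cardinal.lift_natCast] at h1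
  have h2 : (3 : ℕ) ≤ 2 := by exact_mod_cast h1
  omega

-- A3
theorem famW_dim : DimLE famW 2 := by
  intro g
  obtain ⟨F, hF, h0⟩ := famDim_dep (fun i => famDim_sub (g i))
  refine ⟨F, hF, fun a ha => ?_⟩
  have h1 : MvPolynomial.eval a (MvPolynomial.aeval g F) = 0 := by
    refine ha.2 _ fun l h => ?_
    rw [← famDim_sub_eval]
    have h2 : famDim_sub (MvPolynomial.aeval g F)
        = MvPolynomial.aeval (fun i => famDim_sub (g i)) F := by
      have := MvPolynomial.comp_aeval_apply g famDim_sub F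
      exact this
    rw [h2, h0, map_zero]
  have h3 : MvPolynomial.eval a (MvPolynomial.aeval g F)
      = MvPolynomial.eval (fun i => MvPolynomial.eval a (g i)) F := by
    rw [MvPolynomial.aeval_def, MvPolynomial.eval_eval₂]
    have h4 : (MvPolynomial.eval a).comp (algebraMap ℂ (MvPolynomial (Fin 4) ℂ)) = RingHom.id ℂ := by
      ext z
      simp [MvPolynomial.algebraMap_eq]
    rw [h4]
    rfl
  rw [← h3, h1]

end Pool.Agent.AO
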