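import Pool.Agent.Lib.MP_779fbc_ag.Fam

/-! # The closure of the family is a subvariety -/

open Set Topology Filter

noncomputable section

namespace Pool.Agent.AO

/-- the coordinates of the family as polynomials in `l = X 0`, `h = X 1` -/
def famP : Fin 4 → MvPolynomial (Fin 2) ℂ := fun i =>
  (MvPolynomial.X 0) ^ (i.val + 2) *
    ![MvPolynomial.C (-10) * (MvPolynomial.X 1) ^ 2,
      MvPolynomial.C 5 * MvPolynomial.X 1 - MvPolynomial.C 20 * (MvPolynomial.X 1) ^ 3,
      MvPolynomial.C (-1) + MvPolynomial.C 10 * (MvPolynomial.X 1) ^ 2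
        - MvPolynomial.C 15 * (MvPolynomial.X 1) ^ 4,
      - MvPolynomial.X 1 + MvPolynomial.C 5 * (MvPolynomial.X 1) ^ 3
        - MvPolynomial.C 4 * (MvPolynomial.X 1) ^ 5] i

/-- substitution of the family -/
def famSub : MvPolynomial (Fin 4) ℂ →ₐ[ℂ] MvPolynomial (Fin 2) ℂ := MvPolynomial.aeval famP

theorem famSub_eval (g : MvPolynomial (Fin 4) ℂ) (v : Fin 2 → ℂ) :
    MvPolynomial.eval v (famSub g) = MvPolynomial.eval (scale (v 0) (fam (v 1))) g := by
  have : (MvPolynomial.aeval v).comp famSub = MvPolynomial.aeval (scale (v 0) (fam (v 1))) := by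
    apply MvPolynomial.algHom_ext
    intro i
    simp only [famSub, AlgHom.comp_apply, MvPolynomial.aeval_X, famP, map_mul, map_pow, scale]
    congr 1
    fin_cases i <;> simp [fam]
  have h3 := congrArg (fun f => f g) this
  simpa [MvPolynomial.coe_aeval_eq_eval] using h3

/-- a polynomial vanishing at the smooth points of the family vanishes identically on it -/
theorem famSub_eq_zero {G : MvPolynomial (Fin 2) ℂ}
    (h : ∀ v : Fin 2 → ℂ, v 0 ≠ 0 → 25 * (v 1) ^ 2 ≠ 4 → MvPolynomial.eval v G = 0) : G = 0 := by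
  have h1 : G * (MvPolynomial.X 0 * (MvPolynomial.C 25 * (MvPolynomial.X 1) ^ 2 - MvPolynomial.C 4)) = 0 := by
    apply MvPolynomial.funext
    intro v
    simp only [map_mul, map_sub, map_pow, MvPolynomial.eval_X, MvPolynomial.eval_C, map_zero]
    by_cases hv : v 0 = 0
    · rw [hv]; ring
    by_cases hw : 25 * (v 1) ^ 2 = 4
    · rw [hw]; ring
    rw [h v hv hw]; ring
  rcases mul_eq_zero.1 h1 with h2 | h2
  · exact h2
  · exfalso
    have h3 := congrArg (MvPolynomial.eval ![(1 : ℂ), 0]) h2
    simp at h3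

theorem famSub_eq_zero' {g : MvPolynomial (Fin 4) ℂ} (h : ∀ a ∈ famW, MvPolynomial.eval a g = 0) :
    famSub g = 0 := by
  apply famSub_eq_zero
  intro v hv hw
  rw [famSub_eval]
  exact h _ (mem_famW hv hw)

theorem famW_of_famSub {g : MvPolynomial (Fin 4) ℂ} (h : famSub g = 0) :
    ∀ a ∈ famW, MvPolynomial.eval a g = 0 := by
  intro a ha
  apply ha.2
  intro l h'
  have := famSub_eval g ![l, h']
  rw [h] at this
  simpa using this.symm

theorem famW_subvariety : IsSubvariety famW := by
  refine ⟨⟨scale 1 (fam 0), mem_famW one_ne_zero (by norm_num)⟩, ?_, ?_, ?_⟩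
  · refine ⟨{g | ∀ l h : ℂ, MvPolynomial.eval (scale l (fam h)) g = 0}, ?_⟩
    ext a
    rfl
  · intro f g hfg
    have h1 : famSub (f * g) = 0 := famSub_eq_zero' (by
      intro a ha
      rw [map_mul]
      exact hfg a ha)
    rw [map_mul] at h1
    rcases mul_eq_zero.1 h1 with h2 | h2
    · exact Or.inl (famW_of_famSub h2)
    · exact Or.inr (famW_of_famSub h2)
  · intro l hl a ha
    refine ⟨squareFree_scale hl ha.1, ?_⟩
    intro g hg
    -- g ∘ scale l
    let φ : MvPolynomial (Fin 4) ℂ →ₐ[ℂ] MvPolynomial (Fin 4) ℂ :=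
      MvPolynomial.aeval (fun i : Fin 4 => MvPolynomial.C (l ^ (i.val + 2)) * MvPolynomial.X i)
    have hφ : ∀ (b : Fin 4 → ℂ), MvPolynomial.eval b (φ g) = MvPolynomial.eval (scale l b) g := by
      intro b
      have : (MvPolynomial.aeval b).comp φ = MvPolynomial.aeval (scale l b) := by
        apply MvPolynomial.algHom_ext
        intro i
        simp [φ, scale]
      have h3 := congrArg (fun f => f g) this
      simpa [MvPolynomial.coe_aeval_eq_eval] using h3
    rw [← hφ]
    apply ha.2
    intro l' h'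
    rw [hφ, scale_scale]
    exact hg _ _

end Pool.Agent.AO
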