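import Pool.Agent.Lib.MP_779fbc_ag.Holo
import Pool.Agent.Lib.MP_779fbc_ag.Bounds1
import Pool.Agent.Lib.MP_779fbc_ag.Bounds2

open Set Topology Filter

noncomputable section

namespace Pool.Agent.AO


/-- the strip -/
def indep_strip : Set ℂ := {m | 0 < m.re ∧ m.re < 1}

theorem indep_strip_open : IsOpen indep_strip :=
  (isOpen_lt continuous_const Complex.continuous_re).inter
    (isOpen_lt Complex.continuous_re continuous_const)

theorem indep_strip_preconnected : IsPreconnected indep_strip := by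
  apply Convex.isPreconnected
  have h1 : Convex ℝ {z : ℂ | 0 < z.re} := convex_halfSpace_re_gt 0
  have h2 : Convex ℝ {z : ℂ | z.re < 1} := convex_halfSpace_re_lt 1
  exact h1.inter h2

theorem indep_mem {m : ℝ} (h0 : 0 < m) (h1 : m < 1) : (m : ℂ) ∈ indep_strip := by
  refine ⟨?_, ?_⟩
  · rw [Complex.ofReal_re]; exact h0
  · rw [Complex.ofReal_re]; exact h1

/-- the three functions -/
def indep_G (m : ℂ) : Fin 3 → ℂ := ![G1 m, G2 m, G3 m]

theorem indep_diff (F : MvPolynomial (Fin 3) ℂ) :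
    DifferentiableOn ℂ (fun m => MvPolynomial.eval (indep_G m) F) indep_strip := by
  induction F using MvPolynomial.induction_on with
  | C a =>
    simp only [MvPolynomial.eval_C]
    exact differentiableOn_const _
  | add p q hp hq =>
    simp only [map_add]
    exact hp.add hq
  | mul_X p i hp =>
    simp only [map_mul, MvPolynomial.eval_X]
    refine hp.mul ?_
    obtain ⟨h1, h2, h3⟩ := G_holo
    fin_cases i
    · exact h1
    · exact h2
    · exact h3

theorem indep_eval_smul {E : MvPolynomial (Fin 3) ℂ} {d : ℕ} (hE : E.IsHomogeneous d) (c : ℂ)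
    (x : Fin 3 → ℂ) :
    MvPolynomial.eval (fun i => c * x i) E = c ^ d * MvPolynomial.eval x E := by
  rw [MvPolynomial.eval_eq', MvPolynomial.eval_eq', Finset.mul_sum]
  apply Finset.sum_congr rfl
  intro m hm
  have hd : m.degree = d := by
    by_contra hne
    exact MvPolynomial.mem_support_iff.1 hm (hE.coeff_eq_zero hne)
  have h1 : ∏ i, (c * x i) ^ m i = c ^ d * ∏ i, x i ^ m i := by
    simp only [mul_pow]
    rw [Finset.prod_mul_distrib, Finset.prod_pow_eq_pow_sum, ← hd, Finsupp.degree_eq_sum]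
  rw [h1]
  ring

/-- from a relation near `(m₀, 1)` to the homogeneous components -/
theorem indep_component {F : MvPolynomial (Fin 3) ℂ} {g : Fin 3 → ℂ}
    (h : ∀ᶠ r : ℝ in 𝓝 1, MvPolynomial.eval (fun i => (r : ℂ) * g i) F = 0) (d : ℕ) :
    MvPolynomial.eval g (MvPolynomial.homogeneousComponent d F) = 0 := by
  by_cases hd : F.totalDegree < d
  · rw [MvPolynomial.homogeneousComponent_eq_zero _ _ hd, map_zero]
  push Not at hd
  set P : Polynomial ℂ := ∑ i ∈ Finset.range (F.totalDegree + 1),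
    Polynomial.C (MvPolynomial.eval g (MvPolynomial.homogeneousComponent i F)) *
      Polynomial.X ^ i with hP
  have heval : ∀ r : ℂ, P.eval r = MvPolynomial.eval (fun i => r * g i) F := by
    intro r
    conv_rhs => rw [← MvPolynomial.sum_homogeneousComponent F]
    rw [hP, Polynomial.eval_finsetSum, map_sum]
    apply Finset.sum_congr rfl
    intro i _
    rw [indep_eval_smul (MvPolynomial.homogeneousComponent_isHomogeneous i F),
      Polynomial.eval_mul, Polynomial.eval_C, Polynomial.eval_pow, Polynomial.eval_X, mul_comm]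
  have hP0 : P = 0 := by
    apply Polynomial.eq_zero_of_infinite_isRoot
    have h1 : Set.Infinite {r : ℝ | MvPolynomial.eval (fun i => (r : ℂ) * g i) F = 0} :=
      infinite_of_mem_nhds 1 h
    refine (h1.image (f := fun r : ℝ => (r : ℂ)) Complex.ofReal_injective.injOn).mono ?_
    rintro _ ⟨r, hr, rfl⟩
    change P.eval (r : ℂ) = 0
    rw [heval]
    exact hr
  have hcoeff : P.coeff d = MvPolynomial.eval g (MvPolynomial.homogeneousComponent d F) := by
    rw [hP, Polynomial.finsetSum_coeff]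
    simp only [Polynomial.coeff_C_mul_X_pow]
    rw [Finset.sum_ite_eq]
    rw [if_pos (Finset.mem_range.2 (by omega))]
  rw [← hcoeff, hP0, Polynomial.coeff_zero]

theorem indep_identity {f : ℂ → ℂ} (hf : DifferentiableOn ℂ f indep_strip) {m₀ : ℝ}
    (h0 : 0 < m₀) (h1 : m₀ < 1) (h : ∀ᶠ m : ℝ in 𝓝 m₀, f m = 0) :
    ∀ z ∈ indep_strip, f z = 0 := by
  have hA : AnalyticOnNhd ℂ f indep_strip := hf.analyticOnNhd indep_strip_open
  have h2 : ∃ᶠ z in 𝓝[≠] (m₀ : ℂ), f z = 0 := by
    have h3 : Tendsto (fun x : ℝ => (x : ℂ)) (𝓝[≠] m₀) (𝓝[≠] (m₀ : ℂ)) := by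
      apply tendsto_nhdsWithin_of_tendsto_nhds_of_eventually_within
      · exact (Complex.continuous_ofReal.tendsto m₀).mono_left nhdsWithin_le_nhds
      · filter_upwards [self_mem_nhdsWithin] with x hx
        intro hx'
        exact hx (Complex.ofReal_injective hx')
    have h4 : ∀ᶠ x : ℝ in 𝓝[≠] m₀, f x = 0 := h.filter_mono nhdsWithin_le_nhds
    exact h3.frequently h4.frequently
  intro z hz
  have h5 := hA.eqOn_of_preconnected_of_frequently_eq (g := fun _ => 0) (fun z _ => analyticAt_const)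
    indep_strip_preconnected (indep_mem h0 h1) h2
  exact h5 hz

theorem indep_log (k : ℕ) :
    Tendsto (fun m : ℝ => m * (1 + Real.log (1 / m)) ^ k) (𝓝[>] 0) (𝓝 0) := by
  have h1 : (fun u : ℝ => 1 + Real.log u) =O[atTop] Real.log := by
    apply Asymptotics.IsBigO.add
    · apply Asymptotics.IsLittleO.isBigO
      rw [Asymptotics.isLittleO_const_left]
      right
      exact tendsto_norm_atTop_atTop.comp Real.tendsto_log_atTop
    · exact Asymptotics.isBigO_refl _ _
  have h2 : (fun u : ℝ => (1 + Real.log u) ^ k) =o[atTop] id :=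
    (h1.pow k).trans_isLittleO Real.isLittleO_pow_log_id_atTop
  have h3 := h2.tendsto_div_nhds_zero.comp (tendsto_inv_nhdsGT_zero (𝕜 := ℝ))
  refine h3.congr' ?_
  filter_upwards [self_mem_nhdsWithin] with m hm
  have hm' : (m : ℝ) ≠ 0 := (ne_of_gt hm)
  simp only [Function.comp_apply, id_eq, one_div, div_inv_eq_mul]
  ring

/-- `G₁ / G₂` -/
def indep_T (m : ℝ) : ℂ := G1 m / G2 m

/-- `(G₃ - G₁) / G₂` -/
def indep_q (m : ℝ) : ℂ := (G3 m - G1 m) / G2 m

theorem indep_small : ∀ᶠ m : ℝ in 𝓝[>] 0, 0 < m ∧ m < 1 / 2 := by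
  have : Ioo (0 : ℝ) (1 / 2) ∈ 𝓝[>] 0 := Ioo_mem_nhdsGT (by norm_num)
  exact this

theorem indep_T_atTop : Tendsto (fun m : ℝ => ‖indep_T m‖) (𝓝[>] 0) atTop := by
  have h1 : Tendsto (fun m : ℝ => ‖G1 m‖ / 2) (𝓝[>] 0) atTop :=
    G1_lower.atTop_div_const (by norm_num)
  refine tendsto_atTop_mono' _ ?_ h1
  filter_upwards [indep_small] with m hm
  obtain ⟨h2, h3⟩ := G2_bounds m hm.1 hm.2
  unfold indep_T
  rw [norm_div]
  gcongr

theorem indep_pow (n : ℕ) :
    Tendsto (fun m : ℝ => ‖indep_T m‖ ^ n * ‖indep_q m‖) (𝓝[>] 0) (𝓝 0) := by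
  obtain ⟨C, hC⟩ := G3_sub_G1
  obtain ⟨C', hC'⟩ := G1_upper
  have h1 : Tendsto (fun m : ℝ => |C| * |C'| ^ (n + 1) * (m * (1 + Real.log (1 / m)) ^ (n + 1)))
      (𝓝[>] 0) (𝓝 0) := by
    have := (indep_log (n + 1)).const_mul (|C| * |C'| ^ (n + 1))
    rwa [mul_zero] at this
  refine squeeze_zero' (Eventually.of_forall fun m => by positivity) ?_ h1
  filter_upwards [indep_small] with m hm
  obtain ⟨h2, -⟩ := G2_bounds m hm.1 hm.2
  have h3 : ‖indep_T m‖ ≤ ‖G1 m‖ := by
    unfold indep_T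
    rw [norm_div]
    exact div_le_self (norm_nonneg _) h2
  have h4 : ‖indep_q m‖ ≤ |C| * m * ‖G1 m‖ := by
    unfold indep_q
    rw [norm_div]
    refine (div_le_self (norm_nonneg _) h2).trans ((hC m hm.1 hm.2).trans ?_)
    have := le_abs_self C
    have := hm.1
    gcongr
  have hlog : 0 ≤ Real.log (1 / m) := by
    apply Real.log_nonneg
    rw [le_div_iff₀ hm.1]
    linarith [hm.2]
  have h5 : ‖G1 m‖ ≤ |C'| * (1 + Real.log (1 / m)) := by
    refine (hC' m hm.1 hm.2).trans ?_
    have := le_abs_self C'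
    gcongr
  calc ‖indep_T m‖ ^ n * ‖indep_q m‖ ≤ ‖G1 m‖ ^ n * (|C| * m * ‖G1 m‖) := by gcongr
    _ = |C| * m * ‖G1 m‖ ^ (n + 1) := by ring
    _ ≤ |C| * m * (|C'| * (1 + Real.log (1 / m))) ^ (n + 1) := by
        have := hm.1
        gcongr
    _ = |C| * |C'| ^ (n + 1) * (m * (1 + Real.log (1 / m)) ^ (n + 1)) := by
        rw [mul_pow]; ring

theorem indep_poly (p : Polynomial ℂ) :
    Tendsto (fun m : ℝ => ‖p.eval (indep_T m)‖ * ‖indep_q m‖) (𝓝[>] 0) (𝓝 0) := by
  induction p using Polynomial.induction_on' with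
  | add p q hp hq =>
    have h := hp.add hq
    rw [add_zero] at h
    refine squeeze_zero (fun m => by positivity) (fun m => ?_) h
    rw [Polynomial.eval_add, ← add_mul]
    gcongr
    exact norm_add_le _ _
  | monomial n a =>
    have h := (indep_pow n).const_mul ‖a‖
    rw [mul_zero] at h
    refine h.congr fun m => ?_
    rw [Polynomial.eval_monomial, norm_mul, norm_pow]
    ring

theorem indep_lower {p : Polynomial ℂ} (hp : p ≠ 0) :
    ∃ c > 0, ∀ᶠ m : ℝ in 𝓝[>] 0, c ≤ ‖p.eval (indep_T m)‖ := by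
  by_cases hd : 0 < p.degree
  · exact ⟨1, one_pos, (p.tendsto_norm_atTop hd indep_T_atTop).eventually_ge_atTop 1⟩
  · push Not at hd
    have h1 := Polynomial.eq_C_of_degree_le_zero hd
    have h2 : p.coeff 0 ≠ 0 := by
      intro h
      rw [h, Polynomial.C_0] at h1
      exact hp h1
    refine ⟨‖p.coeff 0‖, norm_pos_iff.2 h2, Eventually.of_forall fun m => ?_⟩
    rw [h1, Polynomial.eval_C, Polynomial.coeff_C_zero]

/-- the dehomogenised polynomial `E(X, 1, X + Y)` -/
def indep_H (E : MvPolynomial (Fin 3) ℂ) : Polynomial (Polynomial ℂ) :=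
  MvPolynomial.eval₂ ((Polynomial.C).comp (Polynomial.C))
    ![Polynomial.C Polynomial.X, 1, Polynomial.C Polynomial.X + Polynomial.X] E

theorem indep_H_eval (E : MvPolynomial (Fin 3) ℂ) (T q : ℂ) :
    ((indep_H E).eval (Polynomial.C q)).eval T = MvPolynomial.eval ![T, 1, T + q] E := by
  unfold indep_H
  induction E using MvPolynomial.induction_on with
  | C a => simp
  | add p q hp hq =>
    simp only [MvPolynomial.eval₂_add, Polynomial.eval_add, map_add]
    rw [hp, hq]
  | mul_X p i hp =>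
    simp only [MvPolynomial.eval₂_mul, MvPolynomial.eval₂_X, Polynomial.eval_mul, map_mul,
      MvPolynomial.eval_X]
    rw [hp]
    congr 1
    fin_cases i <;> simp

theorem indep_H_ne {E : MvPolynomial (Fin 3) ℂ} {d : ℕ} (hE : E.IsHomogeneous d) (h0 : E ≠ 0) :
    indep_H E ≠ 0 := by
  intro hH
  have h1 : ∀ x : Fin 3 → ℂ, x 1 ≠ 0 → MvPolynomial.eval x E = 0 := by
    intro x hx
    have h2 := indep_H_eval E (x 0 / x 1) ((x 2 - x 0) / x 1)
    rw [hH, Polynomial.eval_zero, Polynomial.eval_zero] at h2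
    have h3 := indep_eval_smul hE (x 1) ![x 0 / x 1, 1, x 0 / x 1 + (x 2 - x 0) / x 1]
    rw [← h2, mul_zero] at h3
    have h4 : (fun i => x 1 * (![x 0 / x 1, 1, x 0 / x 1 + (x 2 - x 0) / x 1] : Fin 3 → ℂ) i) = x := by
      funext i
      fin_cases i
      · change x 1 * (x 0 / x 1) = x 0
        field_simp
      · change x 1 * 1 = x 1
        ring
      · change x 1 * (x 0 / x 1 + (x 2 - x 0) / x 1) = x 2
        field_simp
        ring
    rw [h4] at h3
    exact h3
  have h5 : MvPolynomial.X 1 * E = 0 := by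
    apply MvPolynomial.funext
    intro x
    rw [map_mul, MvPolynomial.eval_X, map_zero]
    by_cases hx : x 1 = 0
    · rw [hx, zero_mul]
    · rw [h1 x hx, mul_zero]
  rcases mul_eq_zero.1 h5 with h | h
  · exact MvPolynomial.X_ne_zero _ h
  · exact h0 h

theorem indep_main {h : Polynomial (Polynomial ℂ)} (hh : h ≠ 0)
    (hv : ∀ᶠ m : ℝ in 𝓝[>] 0, (h.eval (Polynomial.C (indep_q m))).eval (indep_T m) = 0)
    (hq : ∃ᶠ m : ℝ in 𝓝[>] 0, indep_q m ≠ 0) : False := by
  set j0 := h.natTrailingDegree with hj0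
  have hc0 : h.coeff j0 ≠ 0 := Polynomial.trailingCoeff_nonzero_iff_nonzero.2 hh
  obtain ⟨c, hc, hcm⟩ := indep_lower hc0
  have hsum : Tendsto (fun m : ℝ => ∑ j ∈ Finset.range (h.natDegree + 1),
      ‖(h.coeff j).eval (indep_T m)‖ * ‖indep_q m‖) (𝓝[>] 0) (𝓝 0) := by
    have := tendsto_finsetSum (Finset.range (h.natDegree + 1))
      (fun j _ => indep_poly (h.coeff j))
    rwa [Finset.sum_const_zero] at this
  have hq1 : ∀ᶠ m : ℝ in 𝓝[>] 0, ‖indep_q m‖ ≤ 1 := by
    have := indep_pow 0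
    simp only [pow_zero, one_mul] at this
    exact this.eventually_le_const one_pos
  have hlt := hsum.eventually_lt_const hc
  obtain ⟨m, hqm, h1, h2, h3, h4⟩ :=
    (hq.and_eventually (hv.and (hcm.and (hq1.and hlt)))).exists
  set T := indep_T m with hT
  set q := indep_q m with hqdef
  have hexp : (h.eval (Polynomial.C q)).eval T =
      ∑ j ∈ Finset.range (h.natDegree + 1), (h.coeff j).eval T * q ^ j := by
    rw [Polynomial.eval_eq_sum_range (p := h) (Polynomial.C q), Polynomial.eval_finsetSum]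
    apply Finset.sum_congr rfl
    intro j _
    rw [Polynomial.eval_mul, Polynomial.eval_pow, Polynomial.eval_C]
  have hmem : j0 ∈ Finset.range (h.natDegree + 1) := by
    rw [Finset.mem_range]
    have := Polynomial.natTrailingDegree_le_natDegree h
    omega
  rw [hexp, ← Finset.add_sum_erase _ _ hmem] at h1
  have h5 : ‖(h.coeff j0).eval T * q ^ j0‖ ≤ ∑ j ∈ (Finset.range (h.natDegree + 1)).erase j0,
      ‖(h.coeff j).eval T‖ * ‖q‖ * ‖q‖ ^ j0 := by
    rw [eq_neg_of_add_eq_zero_left h1, norm_neg]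
    refine (norm_sum_le _ _).trans (Finset.sum_le_sum fun j hj => ?_)
    rw [norm_mul, norm_pow]
    have hjne : j ≠ j0 := Finset.ne_of_mem_erase hj
    rcases Nat.lt_or_ge j j0 with hlt | hge
    · rw [Polynomial.coeff_eq_zero_of_lt_natTrailingDegree hlt]
      simp
    · have h6 : j0 + 1 ≤ j := by omega
      rw [mul_assoc, ← pow_succ']
      exact mul_le_mul_of_nonneg_left (pow_le_pow_of_le_one (norm_nonneg _) h3 h6)
        (norm_nonneg _)
  have hqpos : 0 < ‖q‖ ^ j0 := pow_pos (norm_pos_iff.2 hqm) _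
  rw [norm_mul, norm_pow, ← Finset.sum_mul] at h5
  have h6 := le_of_mul_le_mul_right h5 hqpos
  have h7 : ∑ j ∈ (Finset.range (h.natDegree + 1)).erase j0, ‖(h.coeff j).eval T‖ * ‖q‖ ≤
      ∑ j ∈ Finset.range (h.natDegree + 1), ‖(h.coeff j).eval T‖ * ‖q‖ := by
    apply Finset.sum_le_sum_of_subset_of_nonneg (Finset.erase_subset _ _)
    intro j _ _
    positivity
  linarith

-- T8 (file Indep)
theorem G_indep {F : MvPolynomial (Fin 3) ℂ} (hF : F ≠ 0) {m₀ : ℝ} (h0 : 0 < m₀) (h1 : m₀ < 1) :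
    ¬ ∀ᶠ q : ℝ × ℝ in 𝓝 (m₀, 1),
      MvPolynomial.eval ![(q.2 : ℂ) * G1 q.1, (q.2 : ℂ) * G2 q.1, (q.2 : ℂ) * G3 q.1] F = 0 := by
  intro hev
  -- a nonzero homogeneous component
  obtain ⟨d, hd⟩ : ∃ d, MvPolynomial.homogeneousComponent d F ≠ 0 := by
    by_contra hcon
    push Not at hcon
    apply hF
    rw [← MvPolynomial.sum_homogeneousComponent F]
    exact Finset.sum_eq_zero fun i _ => hcon i
  set E := MvPolynomial.homogeneousComponent d F with hE
  have hEh : E.IsHomogeneous d := MvPolynomial.homogeneousComponent_isHomogeneous d F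
  rw [nhds_prod_eq] at hev
  have hcurry := hev.curry
  have h2 : ∀ᶠ m : ℝ in 𝓝 m₀, MvPolynomial.eval (indep_G m) E = 0 := by
    filter_upwards [hcurry] with m hm
    apply indep_component
    filter_upwards [hm] with r hr
    have h3 : (fun i => (r : ℂ) * indep_G m i) = ![(r : ℂ) * G1 m, (r : ℂ) * G2 m, (r : ℂ) * G3 m] := by
      funext i
      fin_cases i <;> rfl
    rw [h3]
    exact hr
  have h3 := indep_identity (indep_diff E) h0 h1 h2
  -- the dehomogenised relation
  have hv : ∀ᶠ m : ℝ in 𝓝[>] 0,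
      ((indep_H E).eval (Polynomial.C (indep_q m))).eval (indep_T m) = 0 := by
    filter_upwards [indep_small] with m hm
    rw [indep_H_eval]
    have hG2 : G2 m ≠ 0 := by
      intro h
      have := (G2_bounds m hm.1 hm.2).1
      rw [h, norm_zero] at this
      linarith
    have h4 := h3 m (indep_mem hm.1 (by linarith [hm.2]))
    have h5 := indep_eval_smul hEh (G2 m) ![indep_T m, 1, indep_T m + indep_q m]
    have h6 : (fun i => G2 m * (![indep_T m, 1, indep_T m + indep_q m] : Fin 3 → ℂ) i) =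
        indep_G m := by
      funext i
      fin_cases i
      · change G2 m * (G1 m / G2 m) = G1 m
        field_simp
      · change G2 m * 1 = G2 m
        ring
      · change G2 m * (G1 m / G2 m + (G3 m - G1 m) / G2 m) = G3 m
        field_simp
        ring
    rw [h6, h4] at h5
    exact (mul_eq_zero.1 h5.symm).resolve_left (pow_ne_zero _ hG2)
  have hq : ∃ᶠ m : ℝ in 𝓝[>] 0, indep_q m ≠ 0 := by
    intro hcon
    have hz : ∀ᶠ m : ℝ in 𝓝[>] 0, G3 m - G1 m = 0 := by
      filter_upwards [hcon, indep_small] with m hm hm'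
      by_contra hne
      apply hm
      unfold indep_q
      apply div_ne_zero hne
      intro h
      have := (G2_bounds m hm'.1 hm'.2).1
      rw [h, norm_zero] at this
      linarith
    obtain ⟨ε, hε, hsub⟩ := (mem_nhdsGT_iff_exists_Ioo_subset).1 hz
    have hε' : (0 : ℝ) < min ε (1 / 2) := lt_min hε (by norm_num)
    set m₁ := min ε (1 / 2) / 2 with hm₁
    have hm₁0 : 0 < m₁ := by positivity
    have hm₁ε : m₁ < ε := by
      have := min_le_left ε (1 / 2 : ℝ)
      linarith
    have hm₁1 : m₁ < 1 := by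
      have := min_le_right ε (1 / 2 : ℝ)
      linarith
    have hev' : ∀ᶠ m : ℝ in 𝓝 m₁, G3 m - G1 m = 0 := by
      filter_upwards [Ioo_mem_nhds hm₁0 hm₁ε] with m hm
      exact hsub hm
    obtain ⟨hh1, -, hh3⟩ := G_holo
    have hfin := indep_identity (f := fun z => G3 z - G1 z) (hh3.sub hh1) hm₁0 hm₁1 hev'
      ((9 / 10 : ℝ) : ℂ) (indep_mem (by norm_num) (by norm_num))
    exact G3_ne_G1 (sub_eq_zero.1 hfin)
  exact indep_main (indep_H_ne hEh hd) hv hq

end Pool.Agent.AO
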