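import Pool.Agent.Lib.MP_779fbc_ag.Base

/-! # T1: continuity of simple roots (MP_779fbc_ag) -/

open Set Topology Filter

noncomputable section

namespace Pool.Agent.AO

theorem roots_aux_fin {K : Type*} [Field K] [IsAlgClosed K] {n : ℕ} {p : Polynomial K}
    (hp : p.Monic) (hn : p.natDegree = n) :
    ∃ c : Fin n → K, p = ∏ j, (Polynomial.X - Polynomial.C (c j)) := by
  have hs : p.Splits := IsAlgClosed.splits p
  have h1 : p.roots.toList.length = n := by
    rw [Multiset.length_toList, ← hn]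
    exact (Polynomial.splits_iff_card_roots.1 hs)
  subst h1
  refine ⟨fun j => p.roots.toList.get j, ?_⟩
  have h2 : (p.roots.map (fun a => Polynomial.X - Polynomial.C a)).prod = p := by
    apply Polynomial.prod_multiset_X_sub_C_of_monic_of_roots_card_eq hp
    exact (Polynomial.splits_iff_card_roots.1 hs)
  conv_lhs => rw [← h2, ← Multiset.coe_toList p.roots]
  rw [Multiset.map_coe, Multiset.prod_coe, ← List.prod_ofFn]
  congr 1
  apply List.ext_get
  · simp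
  · intro i h1 h2
    simp

theorem roots_aux_split (a : Fin 4 → ℂ) :
    ∃ c : Fin 5 → ℂ, ∀ x, quintic a x = ∏ j, (x - c j) := by
  set p : Polynomial ℂ := Polynomial.X ^ 5 + (Polynomial.C (a 0) * Polynomial.X ^ 3
    + Polynomial.C (a 1) * Polynomial.X ^ 2 + Polynomial.C (a 2) * Polynomial.X
    + Polynomial.C (a 3)) with hp
  have hn : p.natDegree = 5 := by
    rw [hp]
    compute_degree!
  have hm : p.Monic := by
    rw [hp]
    monicity!
  obtain ⟨c, hc⟩ := roots_aux_fin hm hn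
  refine ⟨c, fun x => ?_⟩
  have h := congrArg (Polynomial.eval x) hc
  rw [Polynomial.eval_prod] at h
  simp only [Polynomial.eval_sub, Polynomial.eval_X, Polynomial.eval_C] at h
  rw [← h, hp]
  simp only [Polynomial.eval_add, Polynomial.eval_mul, Polynomial.eval_pow, Polynomial.eval_X,
    Polynomial.eval_C, quintic]
  ring

theorem roots_aux_sep {r : Fin 5 → ℂ} (hr : Function.Injective r) :
    ∃ ε : ℝ, 0 < ε ∧ ∀ i j, i ≠ j → 4 * ε ≤ ‖r i - r j‖ := by
  have h : ∀ i j : Fin 5, ∃ ε : ℝ, 0 < ε ∧ (i ≠ j → 4 * ε ≤ ‖r i - r j‖) := by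
    intro i j
    by_cases hij : i = j
    · exact ⟨1, one_pos, fun h => absurd hij h⟩
    · refine ⟨‖r i - r j‖ / 4, ?_, fun _ => by linarith⟩
      have : r i - r j ≠ 0 := sub_ne_zero.2 (fun h => hij (hr h))
      positivity
  choose ε hε hε' using h
  obtain ⟨q₀, -, hq₀⟩ := Finset.exists_min_image (Finset.univ : Finset (Fin 5 × Fin 5))
    (fun q => ε q.1 q.2) ⟨(0, 0), Finset.mem_univ _⟩
  refine ⟨ε q₀.1 q₀.2, hε _ _, ?_⟩
  intro i j hij
  have h1 := hq₀ (i, j) (Finset.mem_univ _)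
  have h2 := hε' i j hij
  simp only at h1
  linarith

theorem roots_aux_close {ε : ℝ} (hε : 0 < ε) {c : Fin 5 → ℂ} {x : ℂ}
    (h : ‖∏ j, (x - c j)‖ < ε ^ 5) : ∃ j, ‖x - c j‖ < ε := by
  by_contra hcon
  push Not at hcon
  have : ε ^ 5 ≤ ‖∏ j, (x - c j)‖ := by
    rw [norm_prod]
    have h1 : ∏ _j : Fin 5, ε ≤ ∏ j, ‖x - c j‖ :=
      Finset.prod_le_prod (fun _ _ => hε.le) (fun j _ => hcon j)
    simpa using h1
  linarith

theorem roots_aux_exists {r : Fin 5 → ℂ} {ε : ℝ} (hε : 0 < ε)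
    (hs : ∀ i j, i ≠ j → 4 * ε ≤ ‖r i - r j‖) {a : Fin 4 → ℂ}
    (ha : ∀ i, ‖quintic a (r i)‖ < ε ^ 5) :
    ∃ b : Fin 5 → ℂ, (∀ j, ‖b j - r j‖ < ε) ∧ ∀ x, quintic a x = ∏ j, (x - b j) := by
  obtain ⟨c, hc⟩ := roots_aux_split a
  have h1 : ∀ i, ∃ j, ‖r i - c j‖ < ε := by
    intro i
    apply roots_aux_close hε
    rw [← hc]
    exact ha i
  choose σ hσ using h1
  have hinj : Function.Injective σ := by
    intro i i' hii
    by_contra hne
    have h2 := hs i i' hne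
    have h3 := hσ i
    have h4 := hσ i'
    rw [← hii] at h4
    have h5 : ‖r i - r i'‖ ≤ ‖r i - c (σ i)‖ + ‖r i' - c (σ i)‖ := by
      have : r i - r i' = (r i - c (σ i)) - (r i' - c (σ i)) := by ring
      rw [this]
      exact norm_sub_le _ _
    linarith
  have hbij : Function.Bijective σ := Finite.injective_iff_bijective.1 hinj
  refine ⟨fun j => c (σ j), fun j => ?_, fun x => ?_⟩
  · rw [norm_sub_rev]
    exact hσ j
  · rw [hc x]
    exact (Fintype.prod_equiv (Equiv.ofBijective σ hbij) _ _ (fun j => rfl)).symm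

theorem roots_aux_lower {r : Fin 5 → ℂ} {ε : ℝ} (hε : 0 < ε)
    (hs : ∀ i j, i ≠ j → 4 * ε ≤ ‖r i - r j‖) {b b' : Fin 5 → ℂ}
    (hb : ∀ j, ‖b j - r j‖ < ε) (hb' : ∀ j, ‖b' j - r j‖ < ε) (j : Fin 5) :
    ε ^ 4 * ‖b j - b' j‖ ≤ ‖∏ i, (b j - b' i)‖ := by
  rw [norm_prod, ← Finset.mul_prod_erase Finset.univ _ (Finset.mem_univ j), mul_comm]
  apply mul_le_mul_of_nonneg_left _ (norm_nonneg _)
  have h1 : ∏ _i ∈ Finset.univ.erase j, ε ≤ ∏ i ∈ Finset.univ.erase j, ‖b j - b' i‖ := by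
    apply Finset.prod_le_prod (fun _ _ => hε.le)
    intro i hi
    have hij : j ≠ i := (Finset.ne_of_mem_erase hi).symm
    have h2 := hs j i hij
    have h3 := hb j
    have h4 := hb' i
    have h5 : ‖r j - r i‖ ≤ ‖b j - b' i‖ + ‖b j - r j‖ + ‖b' i - r i‖ := by
      have : r j - r i = (b j - b' i) - (b j - r j) + (b' i - r i) := by ring
      rw [this]
      exact (norm_add_le _ _).trans (add_le_add (norm_sub_le _ _) le_rfl)
    linarith
  have h2 : ∏ _i ∈ Finset.univ.erase j, ε = ε ^ 4 := by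
    rw [Finset.prod_const, Finset.card_erase_of_mem (Finset.mem_univ j)]
    simp
  rw [← h2]
  exact h1

theorem roots_aux_unique {r : Fin 5 → ℂ} {ε : ℝ} (hε : 0 < ε)
    (hs : ∀ i j, i ≠ j → 4 * ε ≤ ‖r i - r j‖) {a : Fin 4 → ℂ} {b b' : Fin 5 → ℂ}
    (hb : ∀ j, ‖b j - r j‖ < ε) (hb' : ∀ j, ‖b' j - r j‖ < ε)
    (h : ∀ x, quintic a x = ∏ j, (x - b j)) (h' : ∀ x, quintic a x = ∏ j, (x - b' j)) :
    b = b' := by
  funext j
  have h1 := roots_aux_lower hε hs hb hb' j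
  rw [← h' (b j), h (b j)] at h1
  have h2 : ∏ i, (b j - b i) = 0 := Finset.prod_eq_zero (Finset.mem_univ j) (sub_self _)
  rw [h2, norm_zero] at h1
  have h3 : ‖b j - b' j‖ ≤ 0 := by
    have : 0 < ε ^ 4 := by positivity
    by_contra hcon
    push Not at hcon
    have := mul_pos this hcon
    linarith
  exact sub_eq_zero.1 (norm_le_zero_iff.1 h3)

theorem roots_aux_cont (x : ℂ) : Continuous (fun a : Fin 4 → ℂ => quintic a x) := by
  unfold quintic
  fun_prop

-- T1 (file Roots): continuity of simple roots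
theorem local_roots {a₀ : Fin 4 → ℂ} {r : Fin 5 → ℂ} (hr : Function.Injective r)
    (hf : ∀ x, quintic a₀ x = ∏ j, (x - r j)) :
    ∃ (e : (Fin 4 → ℂ) → Fin 5 → ℂ), e a₀ = r ∧ (∃ U ∈ 𝓝 a₀, ContinuousOn e U ∧
      ∀ a ∈ U, ∀ x, quintic a x = ∏ j, (x - e a j)) ∧
      ∃ ε > 0, ∀ᶠ a in 𝓝 a₀, ∀ b : Fin 5 → ℂ, (∀ j, ‖b j - r j‖ < ε) →
        (∀ x, quintic a x = ∏ j, (x - b j)) → e a = b := by
  classical
  obtain ⟨ε, hε, hs⟩ := roots_aux_sep hr
  set U : Set (Fin 4 → ℂ) := {a | ∀ i, ‖quintic a (r i)‖ < ε ^ 5} with hU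
  have hUo : IsOpen U := by
    have : U = ⋂ i, {a | ‖quintic a (r i)‖ < ε ^ 5} := by
      ext a
      simp [hU]
    rw [this]
    apply isOpen_iInter_of_finite
    intro i
    exact isOpen_lt (roots_aux_cont (r i)).norm continuous_const
  have hUa : a₀ ∈ U := by
    intro i
    rw [hf, Finset.prod_eq_zero (Finset.mem_univ i) (sub_self _), norm_zero]
    positivity
  have hex : ∀ a : Fin 4 → ℂ, ∃ b : Fin 5 → ℂ, a ∈ U →
      ((∀ j, ‖b j - r j‖ < ε) ∧ ∀ x, quintic a x = ∏ j, (x - b j)) := by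
    intro a
    by_cases ha : a ∈ U
    · obtain ⟨b, hb⟩ := roots_aux_exists hε hs ha
      exact ⟨b, fun _ => hb⟩
    · exact ⟨r, fun h => absurd h ha⟩
  choose e he using hex
  have hu : ∀ a ∈ U, ∀ b : Fin 5 → ℂ, (∀ j, ‖b j - r j‖ < ε) →
      (∀ x, quintic a x = ∏ j, (x - b j)) → e a = b := by
    intro a ha b hb hb'
    exact roots_aux_unique hε hs (he a ha).1 hb (he a ha).2 hb'
  refine ⟨e, ?_, ⟨U, hUo.mem_nhds hUa, ?_, fun a ha => (he a ha).2⟩, ε, hε, ?_⟩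
  · apply hu a₀ hUa r _ hf
    intro j
    simpa using hε
  · apply continuousOn_pi.2
    intro j a₁ ha₁
    have hε4 : 0 < ε ^ 4 := by positivity
    rw [ContinuousWithinAt, tendsto_iff_norm_sub_tendsto_zero]
    have hlim : Tendsto (fun a => ‖quintic a (e a₁ j)‖ / ε ^ 4) (𝓝[U] a₁) (𝓝 0) := by
      have h1 : Tendsto (fun a => ‖quintic a (e a₁ j)‖ / ε ^ 4) (𝓝 a₁)
          (𝓝 (‖quintic a₁ (e a₁ j)‖ / ε ^ 4)) :=
        (((roots_aux_cont (e a₁ j)).norm.tendsto a₁)).div_const _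
      have h2 : quintic a₁ (e a₁ j) = 0 := by
        rw [(he a₁ ha₁).2, Finset.prod_eq_zero (Finset.mem_univ j) (sub_self _)]
      rw [h2, norm_zero, zero_div] at h1
      exact h1.mono_left nhdsWithin_le_nhds
    refine squeeze_zero' (Eventually.of_forall (fun _ => norm_nonneg _)) ?_ hlim
    filter_upwards [self_mem_nhdsWithin] with a ha
    rw [le_div_iff₀ hε4, (he a ha).2, norm_sub_rev, mul_comm]
    exact roots_aux_lower hε hs (he a₁ ha₁).1 (he a ha).1 j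
  · filter_upwards [hUo.mem_nhds hUa] with a ha
    exact hu a ha

end Pool.Agent.AO
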