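import Pool.Agent.Lib.MP_779fbc_ag.FamW
import Pool.Agent.Lib.MP_779fbc_ag.FamDim
import Pool.Agent.Lib.MP_779fbc_ag.FamDense
import Pool.Agent.Lib.MP_779fbc_ag.Arith
import Pool.Agent.Lib.MP_779fbc_ag.Roots
import Pool.Agent.Lib.MP_779fbc_ag.CutFamily
import Pool.Agent.Lib.MP_779fbc_ag.CutEval
import Pool.Agent.Lib.MP_779fbc_ag.Indep

/-! # Assembly -/

open Set Topology Filter

noncomputable section

namespace Pool.Agent.AO

/-- real roots of the family -/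
def fin_r (m h ρ : ℝ) : Fin 5 → ℝ :=
  ![ρ ^ 2 * (-1 - h), ρ ^ 2 * (0 - h), ρ ^ 2 * (m - h), ρ ^ 2 * (1 - h), ρ ^ 2 * (1 / m - h)]

/-- real parameter -/
def fin_h (m : ℝ) : ℝ := (m + 1 / m) / 5

theorem fin_h_cast (m : ℝ) : ((fin_h m : ℝ) : ℂ) = hh m := by
  simp [fin_h, hh]

/-- the family with real parameters -/
def fin_a (q : ℝ × ℝ) : Fin 4 → ℂ := scale ((q.2 : ℂ) ^ 2) (fam (hh (q.1 : ℂ)))

theorem fin_quintic {m ρ : ℝ} (hm : 0 < m) (hρ : 0 < ρ) (x : ℂ) :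
    quintic (fin_a (m, ρ)) x = ∏ j, (x - (fin_r m (fin_h m) ρ j : ℂ)) := by
  have hρ0 : (ρ : ℂ) ≠ 0 := by exact_mod_cast hρ.ne'
  have hρ' : ((ρ : ℂ) ^ 2) ≠ 0 := pow_ne_zero _ hρ0
  have hm' : (m : ℂ) ≠ 0 := by exact_mod_cast hm.ne'
  obtain ⟨z, rfl⟩ : ∃ z, x = (ρ : ℂ) ^ 2 * z := ⟨x / (ρ : ℂ) ^ 2, by rw [mul_div_cancel₀ _ hρ']⟩
  have h2 : quintic (fin_a (m, ρ)) ((ρ : ℂ) ^ 2 * z) = ((ρ : ℂ) ^ 2) ^ 5 * quintic (fam (hh m)) z :=
    quintic_scale _ _ _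
  rw [h2, quintic_hh hm', Fin.prod_univ_five]
  have h3 := fin_h_cast m
  simp only [fin_r, Matrix.cons_val_zero, Matrix.cons_val_one, Matrix.cons_val]
  push_cast
  rw [h3]
  ring

theorem fin_continuousAt {m₀ : ℝ} (h0 : 0 < m₀) : ContinuousAt fin_a (m₀, 1) := by
  have h : ContinuousAt (fun q : ℝ × ℝ => hh (q.1 : ℂ)) (m₀, 1) := by
    unfold hh
    have : ContinuousAt (fun q : ℝ × ℝ => (q.1 : ℂ)) (m₀, 1) := by fun_prop
    have hne : ((m₀ : ℝ) : ℂ) ≠ 0 := by exact_mod_cast h0.ne'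
    exact (this.add (continuousAt_const.div this hne)).div_const 5
  have hf : Continuous (fun p : ℂ × ℂ => scale p.1 (fam p.2)) := by
    apply continuous_pi
    intro i
    unfold scale fam
    fin_cases i <;> simp <;> fun_prop
  have h2 : ContinuousAt (fun q : ℝ × ℝ => (((q.2 : ℂ) ^ 2, hh (q.1 : ℂ)) : ℂ × ℂ)) (m₀, 1) := by
    refine ContinuousAt.prodMk ?_ h
    fun_prop
  exact ContinuousAt.comp (f := fun q : ℝ × ℝ => (((q.2 : ℂ) ^ 2, hh (q.1 : ℂ)) : ℂ × ℂ))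
    (g := fun p : ℂ × ℂ => scale p.1 (fam p.2)) hf.continuousAt h2

theorem fin_r_continuousAt {m₀ : ℝ} (h0 : 0 < m₀) (j : Fin 5) :
    ContinuousAt (fun q : ℝ × ℝ => fin_r q.1 (fin_h q.1) q.2 j) (m₀, 1) := by
  have h1 : ContinuousAt (fun q : ℝ × ℝ => 1 / q.1) (m₀, 1) :=
    continuousAt_const.div continuousAt_fst h0.ne'
  have h : ContinuousAt (fun q : ℝ × ℝ => fin_h q.1) (m₀, 1) := by
    unfold fin_h
    exact (continuousAt_fst.add h1).div_const 5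
  have h2 : ContinuousAt (fun q : ℝ × ℝ => q.2 ^ 2) (m₀, 1) := by fun_prop
  have h3 : ContinuousAt (fun q : ℝ × ℝ => q.1) (m₀, 1) := by fun_prop
  unfold fin_r
  fin_cases j
  · exact h2.mul (continuousAt_const.sub h)
  · exact h2.mul (continuousAt_const.sub h)
  · exact h2.mul (h3.sub h)
  · exact h2.mul (continuousAt_const.sub h)
  · exact h2.mul (h1.sub h)

theorem fin_hh_ne {m : ℝ} (hm : 0 < m) (hm1 : m < 1) : 25 * (hh (m : ℂ)) ^ 2 ≠ 4 := by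
  rw [← fin_h_cast]
  have h : 2 < 5 * fin_h m := by
    unfold fin_h
    have : 0 < (1 - m) ^ 2 / m := by
      have : 1 - m ≠ 0 := by linarith
      positivity
    have h2 : 5 * ((m + 1 / m) / 5) - 2 = (1 - m) ^ 2 / m := by field_simp; ring
    linarith
  intro h3
  have h4 : 25 * (fin_h m) ^ 2 = 4 := by exact_mod_cast h3
  nlinarith

/-- extracting the relation -/
theorem fin_relation {m₀ : ℝ} (h0 : 0 < m₀) (h1 : m₀ < 1) {P : Fin 3 → (Fin 4 → ℂ) → ℂ} {C : Fin 3 → ℂ}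
    (hC : ∀ i, C i ≠ 0) {F : MvPolynomial (Fin 3) ℂ} (hF : F ≠ 0)
    (hrel : ∀ᶠ a in 𝓝[famW] (fin_a (m₀, 1)), MvPolynomial.eval (fun i => P i a) F = 0)
    (hmem : ∀ᶠ q : ℝ × ℝ in 𝓝 (m₀, 1), fin_a q ∈ famW)
    (hP : ∀ᶠ q : ℝ × ℝ in 𝓝 (m₀, 1), ∀ i, P i (fin_a q)
      = C i * (((Real.sqrt q.1 / q.2 ^ 3 : ℝ) : ℂ) * ![G1 q.1, G2 q.1, G3 q.1] i)) : False := by
  have hs0 : 0 < Real.sqrt m₀ := Real.sqrt_pos.2 h0
  have hcont : Tendsto fin_a (𝓝 (m₀, 1)) (𝓝[famW] (fin_a (m₀, 1))) :=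
    tendsto_nhdsWithin_iff.2 ⟨fin_continuousAt h0, hmem⟩
  have h2 : ∀ᶠ q : ℝ × ℝ in 𝓝 (m₀, 1), MvPolynomial.eval (fun i =>
      C i * (((Real.sqrt q.1 / q.2 ^ 3 : ℝ) : ℂ) * ![G1 q.1, G2 q.1, G3 q.1] i)) F = 0 := by
    filter_upwards [hcont.eventually hrel, hP] with q hq hq'
    rw [← hq]
    congr 2
    funext i
    rw [hq' i]
  -- change of variables
  let c : Fin 3 → ℂ := fun i => C i * (Real.sqrt m₀ : ℝ)
  have hc : ∀ i, c i ≠ 0 := fun i => mul_ne_zero (hC i) (by exact_mod_cast hs0.ne')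
  let φ : MvPolynomial (Fin 3) ℂ →ₐ[ℂ] MvPolynomial (Fin 3) ℂ :=
    MvPolynomial.aeval (fun i => MvPolynomial.C (c i) * MvPolynomial.X i)
  let φ' : MvPolynomial (Fin 3) ℂ →ₐ[ℂ] MvPolynomial (Fin 3) ℂ :=
    MvPolynomial.aeval (fun i => MvPolynomial.C (c i)⁻¹ * MvPolynomial.X i)
  have hφφ : φ'.comp φ = AlgHom.id ℂ _ := by
    apply MvPolynomial.algHom_ext
    intro i
    simp only [φ, φ', AlgHom.comp_apply, MvPolynomial.aeval_X, map_mul, AlgHom.id_apply]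
    rw [MvPolynomial.algHom_C, MvPolynomial.algebraMap_eq, ← mul_assoc, ← MvPolynomial.C_mul,
      mul_inv_cancel₀ (hc i)]
    simp
  have hφ : φ F ≠ 0 := by
    intro h
    apply hF
    have : φ'.comp φ F = 0 := by rw [AlgHom.comp_apply, h, map_zero]
    rwa [hφφ] at this
  have heval : ∀ x : Fin 3 → ℂ, MvPolynomial.eval x (φ F) = MvPolynomial.eval (fun i => c i * x i) F := by
    intro x
    have : (MvPolynomial.aeval x).comp φ = MvPolynomial.aeval (fun i => c i * x i) := by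
      apply MvPolynomial.algHom_ext
      intro i
      simp [φ]
    have h3 := congrArg (fun f => f F) this
    simpa [MvPolynomial.coe_aeval_eq_eval] using h3
  refine G_indep hφ h0 h1 ?_
  -- reparametrization
  let ψ : ℝ × ℝ → ℝ × ℝ := fun q => (q.1, (Real.sqrt q.1 / (Real.sqrt m₀ * q.2)) ^ ((1 : ℝ) / 3))
  have hψ0 : ψ (m₀, 1) = (m₀, 1) := by
    simp [ψ, div_self hs0.ne']
  have hψ : ContinuousAt ψ (m₀, 1) := by
    refine ContinuousAt.prodMk continuousAt_fst ?_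
    refine ContinuousAt.rpow_const ?_ (Or.inl ?_)
    · refine ContinuousAt.div ?_ ?_ ?_
      · exact (Real.continuous_sqrt.comp continuous_fst).continuousAt
      · exact (continuous_const.mul continuous_snd).continuousAt
      · simp [hs0.ne']
    · simp [hs0.ne']
  have hψt : Tendsto ψ (𝓝 (m₀, 1)) (𝓝 (m₀, 1)) := by
    have := hψ.tendsto
    rwa [hψ0] at this
  have hpos : ∀ᶠ q : ℝ × ℝ in 𝓝 (m₀, 1), 0 < q.1 ∧ 0 < q.2 := by
    have e1 : ∀ᶠ q : ℝ × ℝ in 𝓝 (m₀, 1), 0 < q.1 :=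
      (continuous_fst.tendsto (m₀, (1 : ℝ))).eventually (lt_mem_nhds h0)
    have e3 : ∀ᶠ q : ℝ × ℝ in 𝓝 (m₀, 1), 0 < q.2 :=
      (continuous_snd.tendsto (m₀, (1 : ℝ))).eventually (lt_mem_nhds one_pos)
    filter_upwards [e1, e3] with q h1 h3 using ⟨h1, h3⟩
  filter_upwards [hψt.eventually h2, hpos] with q hq hq2
  rw [heval, ← hq]
  congr 2
  funext i
  have hsq : 0 < Real.sqrt q.1 := Real.sqrt_pos.2 hq2.1
  have hb : 0 < Real.sqrt q.1 / (Real.sqrt m₀ * q.2) := div_pos hsq (mul_pos hs0 hq2.2)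
  have h5 : Real.sqrt (ψ q).1 / (ψ q).2 ^ 3 = Real.sqrt m₀ * q.2 := by
    simp only [ψ]
    rw [← Real.rpow_natCast (_ ^ ((1 : ℝ) / 3)) 3, ← Real.rpow_mul hb.le]
    norm_num
    have := hq2.2
    field_simp
  rw [h5]
  have h6 : (ψ q).1 = q.1 := rfl
  rw [h6]
  fin_cases i <;> simp [c] <;> ring

theorem not_bialgebraic : ¬ IsBialgebraic famW := by
  intro hB
  obtain ⟨m₀, h0, h1⟩ : ∃ m : ℝ, 0 < m ∧ m < 1 := ⟨1 / 2, by norm_num, by norm_num⟩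
  have h1' : 1 < 1 / m₀ := by rw [lt_div_iff₀ h0]; linarith
  set a₀ : Fin 4 → ℂ := fin_a (m₀, 1) with ha₀
  set r₀ : Fin 5 → ℝ := fin_r m₀ (fin_h m₀) 1 with hr₀
  have hmem : ∀ q : ℝ × ℝ, 0 < q.1 → q.1 < 1 → 0 < q.2 → fin_a q ∈ famW := by
    intro q h1 h2 h3
    exact mem_famW (pow_ne_zero _ (by exact_mod_cast h3.ne')) (fin_hh_ne h1 h2)
  have hfac : ∀ x, quintic a₀ x = ∏ j, (x - (r₀ j : ℂ)) := fun x => fin_quintic h0 one_pos x
  have hr0 : r₀ 0 = -1 - fin_h m₀ := by simp [hr₀, fin_r]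
  have hr1 : r₀ 1 = 0 - fin_h m₀ := by simp [hr₀, fin_r]
  have hr2 : r₀ 2 = m₀ - fin_h m₀ := by simp [hr₀, fin_r]
  have hr3 : r₀ 3 = 1 - fin_h m₀ := by simp [hr₀, fin_r]
  have hr4 : r₀ 4 = 1 / m₀ - fin_h m₀ := by simp [hr₀, fin_r]
  have hinj : Function.Injective (fun j => (r₀ j : ℂ)) := by
    have hmono : StrictMono r₀ := by
      rw [Fin.strictMono_iff_lt_succ]
      intro i
      fin_cases i
      · change r₀ 0 < r₀ 1
        rw [hr0, hr1]; linarith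
      · change r₀ 1 < r₀ 2
        rw [hr1, hr2]; linarith
      · change r₀ 2 < r₀ 3
        rw [hr2, hr3]; linarith
      · change r₀ 3 < r₀ 4
        rw [hr3, hr4]; linarith
    exact Complex.ofReal_injective.comp hmono.injective
  obtain ⟨e, he0, ⟨U, hU, heU, hfU⟩, ε, hε, huniq⟩ := local_roots hinj hfac
  have her : ∀ j, e a₀ j = r₀ j := fun j => by rw [he0]
  -- three permutations
  obtain ⟨σ₁, s10, s11, s12, s13, s14⟩ : ∃ σ : Equiv.Perm (Fin 5), σ 0 = 1 ∧ σ 1 = 0 ∧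
      σ (Fin.natAdd 2 (0 : Fin 3)) = 2 ∧ σ (Fin.natAdd 2 (1 : Fin 3)) = 3 ∧
      σ (Fin.natAdd 2 (2 : Fin 3)) = 4 := by decide
  obtain ⟨σ₂, s20, s21, s22, s23, s24⟩ : ∃ σ : Equiv.Perm (Fin 5), σ 0 = 1 ∧ σ 1 = 2 ∧
      σ (Fin.natAdd 2 (0 : Fin 3)) = 0 ∧ σ (Fin.natAdd 2 (1 : Fin 3)) = 3 ∧
      σ (Fin.natAdd 2 (2 : Fin 3)) = 4 := by decide
  obtain ⟨σ₃, s30, s31, s32, s33, s34⟩ : ∃ σ : Equiv.Perm (Fin 5), σ 0 = 2 ∧ σ 1 = 3 ∧
      σ (Fin.natAdd 2 (0 : Fin 3)) = 0 ∧ σ (Fin.natAdd 2 (1 : Fin 3)) = 1 ∧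
      σ (Fin.natAdd 2 (2 : Fin 3)) = 4 := by decide
  have key : ∀ a b : ℝ, a < b → 0 < (-1 : ℝ) * (a - b) := fun a b h => by linarith
  have key' : ∀ a b : ℝ, b < a → 0 < (1 : ℝ) * (a - b) := fun a b h => by linarith
  obtain ⟨P₁, C₁, hC₁, hP₁, hE₁⟩ := cut_family hU heU hfU her σ₁
    (by rw [s10, s11, hr0, hr1]; intro h; linarith) ![-1, -1, -1] (by intro j; fin_cases j <;> simp)
    (by
      intro j
      fin_cases j
      · exact key _ _ (by rw [s10]; erw [s12]; rw [hr1, hr2]; linarith)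
      · exact key _ _ (by rw [s10]; erw [s13]; rw [hr1, hr3]; linarith)
      · exact key _ _ (by rw [s10]; erw [s14]; rw [hr1, hr4]; linarith))
    (by
      intro j
      fin_cases j
      · exact key _ _ (by rw [s11]; erw [s12]; rw [hr0, hr2]; linarith)
      · exact key _ _ (by rw [s11]; erw [s13]; rw [hr0, hr3]; linarith)
      · exact key _ _ (by rw [s11]; erw [s14]; rw [hr0, hr4]; linarith))
  obtain ⟨P₂, C₂, hC₂, hP₂, hE₂⟩ := cut_family hU heU hfU her σ₂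
    (by rw [s20, s21, hr1, hr2]; intro h; linarith) ![1, -1, -1] (by intro j; fin_cases j <;> simp)
    (by
      intro j
      fin_cases j
      · exact key' _ _ (by rw [s20]; erw [s22]; rw [hr1, hr0]; linarith)
      · exact key _ _ (by rw [s20]; erw [s23]; rw [hr1, hr3]; linarith)
      · exact key _ _ (by rw [s20]; erw [s24]; rw [hr1, hr4]; linarith))
    (by
      intro j
      fin_cases j
      · exact key' _ _ (by rw [s21]; erw [s22]; rw [hr2, hr0]; linarith)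
      · exact key _ _ (by rw [s21]; erw [s23]; rw [hr2, hr3]; linarith)
      · exact key _ _ (by rw [s21]; erw [s24]; rw [hr2, hr4]; linarith))
  obtain ⟨P₃, C₃, hC₃, hP₃, hE₃⟩ := cut_family hU heU hfU her σ₃
    (by rw [s30, s31, hr2, hr3]; intro h; linarith) ![1, 1, -1] (by intro j; fin_cases j <;> simp)
    (by
      intro j
      fin_cases j
      · exact key' _ _ (by rw [s30]; erw [s32]; rw [hr2, hr0]; linarith)
      · exact key' _ _ (by rw [s30]; erw [s33]; rw [hr2, hr1]; linarith)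
      · exact key _ _ (by rw [s30]; erw [s34]; rw [hr2, hr4]; linarith))
    (by
      intro j
      fin_cases j
      · exact key' _ _ (by rw [s31]; erw [s32]; rw [hr3, hr0]; linarith)
      · exact key' _ _ (by rw [s31]; erw [s33]; rw [hr3, hr1]; linarith)
      · exact key _ _ (by rw [s31]; erw [s34]; rw [hr3, hr4]; linarith))
  -- the relation
  obtain ⟨F, hF, hrel⟩ := hB 2 famW_dim a₀ (hmem _ h0 h1 one_pos) ![P₁, P₂, P₃]
    (by intro i; fin_cases i; exacts [hP₁, hP₂, hP₃])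
  have hcont : Tendsto fin_a (𝓝 (m₀, 1)) (𝓝 a₀) := fin_continuousAt h0
  have hpos : ∀ᶠ q : ℝ × ℝ in 𝓝 (m₀, 1), 0 < q.1 ∧ q.1 < 1 ∧ 0 < q.2 := by
    have e1 : ∀ᶠ q : ℝ × ℝ in 𝓝 (m₀, 1), 0 < q.1 :=
      (continuous_fst.tendsto (m₀, (1 : ℝ))).eventually (lt_mem_nhds h0)
    have e2 : ∀ᶠ q : ℝ × ℝ in 𝓝 (m₀, 1), q.1 < 1 :=
      (continuous_fst.tendsto (m₀, (1 : ℝ))).eventually (gt_mem_nhds h1)
    have e3 : ∀ᶠ q : ℝ × ℝ in 𝓝 (m₀, 1), 0 < q.2 :=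
      (continuous_snd.tendsto (m₀, (1 : ℝ))).eventually (lt_mem_nhds one_pos)
    filter_upwards [e1, e2, e3] with q h1 h2 h3 using ⟨h1, h2, h3⟩
  have hroots : ∀ᶠ q : ℝ × ℝ in 𝓝 (m₀, 1),
      e (fin_a q) = fun j => ((fin_r q.1 (fin_h q.1) q.2 j : ℝ) : ℂ) := by
    have hclose : ∀ᶠ q : ℝ × ℝ in 𝓝 (m₀, 1), ∀ j,
        ‖((fin_r q.1 (fin_h q.1) q.2 j : ℝ) : ℂ) - (r₀ j : ℂ)‖ < ε := by
      rw [eventually_all]
      intro j
      have h2 : ContinuousAt (fun q : ℝ × ℝ =>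
          ‖((fin_r q.1 (fin_h q.1) q.2 j : ℝ) : ℂ) - (r₀ j : ℂ)‖) (m₀, 1) :=
        ((Complex.continuous_ofReal.continuousAt.comp (fin_r_continuousAt h0 j)).sub
          continuousAt_const).norm
      have h3 := h2.tendsto
      have h4 : ‖((fin_r (m₀, (1 : ℝ)).1 (fin_h (m₀, (1 : ℝ)).1) (m₀, (1 : ℝ)).2 j : ℝ) : ℂ)
          - (r₀ j : ℂ)‖ = 0 := by simp [hr₀]
      rw [h4] at h3
      exact h3.eventually (gt_mem_nhds hε)
    filter_upwards [hcont.eventually huniq, hclose, hpos] with q h1 h2 h3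
    exact h1 _ h2 (fun x => fin_quintic h3.1 h3.2.2 x)
  refine fin_relation h0 h1 (P := ![P₁, P₂, P₃]) (C := ![C₁, C₂, C₃])
    (by intro i; fin_cases i; exacts [hC₁, hC₂, hC₃]) hF hrel ?_ ?_
  · filter_upwards [hpos] with q h using hmem q h.1 h.2.1 h.2.2
  · filter_upwards [hpos, hroots, hcont.eventually hE₁, hcont.eventually hE₂, hcont.eventually hE₃]
      with q h hr e1 e2 e3 i
    have f0 : ((fin_r q.1 (fin_h q.1) q.2 0 : ℝ) : ℂ) = ((q.2 ^ 2 * (-1 - fin_h q.1) : ℝ) : ℂ) := by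
      simp [fin_r]
    have f1 : ((fin_r q.1 (fin_h q.1) q.2 1 : ℝ) : ℂ) = ((q.2 ^ 2 * (0 - fin_h q.1) : ℝ) : ℂ) := by
      simp [fin_r]
    have f2 : ((fin_r q.1 (fin_h q.1) q.2 2 : ℝ) : ℂ) = ((q.2 ^ 2 * (q.1 - fin_h q.1) : ℝ) : ℂ) := by
      simp [fin_r]
    have f3 : ((fin_r q.1 (fin_h q.1) q.2 3 : ℝ) : ℂ) = ((q.2 ^ 2 * (1 - fin_h q.1) : ℝ) : ℂ) := by
      simp [fin_r]
    have f4 : ((fin_r q.1 (fin_h q.1) q.2 4 : ℝ) : ℂ) = ((q.2 ^ 2 * (1 / q.1 - fin_h q.1) : ℝ) : ℂ) := by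
      simp [fin_r]
    rw [hr] at e1 e2 e3
    beta_reduce at e1 e2 e3
    fin_cases i
    · change P₁ (fin_a q) = C₁ * (_ * G1 q.1)
      rw [e1, ← cut_eval1 (h := fin_h q.1) h.1 h.2.1 h.2.2, s10, s11, f0, f1]
      congr 2
      funext j
      fin_cases j
      · change ((fin_r q.1 (fin_h q.1) q.2 (σ₁ (Fin.natAdd 2 (0 : Fin 3))) : ℝ) : ℂ) = _
        rw [s12, f2]; rfl
      · change ((fin_r q.1 (fin_h q.1) q.2 (σ₁ (Fin.natAdd 2 (1 : Fin 3))) : ℝ) : ℂ) = _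
        rw [s13, f3]; rfl
      · change ((fin_r q.1 (fin_h q.1) q.2 (σ₁ (Fin.natAdd 2 (2 : Fin 3))) : ℝ) : ℂ) = _
        rw [s14, f4]; rfl
    · change P₂ (fin_a q) = C₂ * (_ * G2 q.1)
      rw [e2, ← cut_eval2 (h := fin_h q.1) h.1 h.2.1 h.2.2, s20, s21, f1, f2]
      congr 2
      funext j
      fin_cases j
      · change ((fin_r q.1 (fin_h q.1) q.2 (σ₂ (Fin.natAdd 2 (0 : Fin 3))) : ℝ) : ℂ) = _
        rw [s22, f0]; rfl
      · change ((fin_r q.1 (fin_h q.1) q.2 (σ₂ (Fin.natAdd 2 (1 : Fin 3))) : ℝ) : ℂ) = _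
        rw [s23, f3]; rfl
      · change ((fin_r q.1 (fin_h q.1) q.2 (σ₂ (Fin.natAdd 2 (2 : Fin 3))) : ℝ) : ℂ) = _
        rw [s24, f4]; rfl
    · change P₃ (fin_a q) = C₃ * (_ * G3 q.1)
      rw [e3, ← cut_eval3 (h := fin_h q.1) h.1 h.2.1 h.2.2, s30, s31, f2, f3]
      congr 2
      funext j
      fin_cases j
      · change ((fin_r q.1 (fin_h q.1) q.2 (σ₃ (Fin.natAdd 2 (0 : Fin 3))) : ℝ) : ℂ) = _
        rw [s32, f0]; rfl
      · change ((fin_r q.1 (fin_h q.1) q.2 (σ₃ (Fin.natAdd 2 (1 : Fin 3))) : ℝ) : ℂ) = _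
        rw [s33, f1]; rfl
      · change ((fin_r q.1 (fin_h q.1) q.2 (σ₃ (Fin.natAdd 2 (2 : Fin 3))) : ℝ) : ℂ) = _
        rw [s34, f4]; rfl

theorem fin_result : ∃ W : Set (Fin 4 → ℂ), IsSubvariety W ∧ ArithmeticDense W ∧ ¬ IsBialgebraic W := by
  obtain ⟨H, h1, h2, h3⟩ := exists_arithmetic
  exact ⟨famW, famW_subvariety, famW_dense h1 h2 h3, not_bialgebraic⟩

end Pool.Agent.AO
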