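import Pool.Agent.Lib.MP_779fbc_ag.Base

/-! # T5: the functions `G1`, `G2`, `G3` are holomorphic on the strip `0 < re m < 1` -/

open Set Topology Filter

noncomputable section

namespace Pool.Agent.AO

/-- differentiation under the integral sign -/
theorem holo_aux_param {U : Set ℂ} (hU : IsOpen U) {F F' : ℂ → ℝ → ℂ}
    (hF : ContinuousOn (fun q : ℂ × ℝ => F q.1 q.2) (U ×ˢ univ))
    (hF' : ContinuousOn (fun q : ℂ × ℝ => F' q.1 q.2) (U ×ˢ univ))
    (hd : ∀ m ∈ U, ∀ t, HasDerivAt (fun m => F m t) (F' m t) m) :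
    DifferentiableOn ℂ (fun m => ∫ t in (0 : ℝ)..1, F m t) U := by
  intro m0 hm0
  obtain ⟨r, hr, hball⟩ := Metric.isOpen_iff.1 hU m0 hm0
  have hr2 : 0 < r / 2 := by positivity
  have hsub : Metric.closedBall m0 (r / 2) ⊆ U := fun z hz =>
    hball (Metric.mem_ball.2 (lt_of_le_of_lt (Metric.mem_closedBall.1 hz) (by linarith)))
  have hK : IsCompact (Metric.closedBall m0 (r / 2) ×ˢ Icc (0 : ℝ) 1) :=
    (isCompact_closedBall _ _).prod isCompact_Icc
  obtain ⟨C, hC⟩ := hK.exists_bound_of_continuousOn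
    (hF'.mono (prod_mono hsub (subset_univ _)))
  have hcontF : ∀ m ∈ U, Continuous (F m) := by
    intro m hm
    have h1 : ContinuousOn (fun t : ℝ => ((m, t) : ℂ × ℝ)) univ := by fun_prop
    have := hF.comp h1 (fun t _ => ⟨hm, mem_univ _⟩)
    exact continuousOn_univ.1 this
  have hcontF' : ∀ m ∈ U, Continuous (F' m) := by
    intro m hm
    have h1 : ContinuousOn (fun t : ℝ => ((m, t) : ℂ × ℝ)) univ := by fun_prop
    have := hF'.comp h1 (fun t _ => ⟨hm, mem_univ _⟩)
    exact continuousOn_univ.1 this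
  have hs : Metric.closedBall m0 (r / 2) ∈ 𝓝 m0 := Metric.closedBall_mem_nhds _ hr2
  have key := intervalIntegral.hasDerivAt_integral_of_dominated_loc_of_deriv_le
    (μ := MeasureTheory.volume) (a := 0) (b := 1) (F := F) (F' := F') (x₀ := m0)
    (s := Metric.closedBall m0 (r / 2)) (bound := fun _ => C) hs
    (by
      filter_upwards [hs] with m hm
      exact (hcontF m (hsub hm)).aestronglyMeasurable)
    ((hcontF m0 hm0).intervalIntegrable _ _)
    ((hcontF' m0 hm0).aestronglyMeasurable)
    (by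
      refine Filter.Eventually.of_forall fun t ht m hm => ?_
      have ht' : t ∈ Icc (0 : ℝ) 1 := by
        rw [uIoc_of_le zero_le_one] at ht
        exact ⟨ht.1.le, ht.2⟩
      exact hC (m, t) ⟨hm, ht'⟩)
    (by simp)
    (by
      refine Filter.Eventually.of_forall fun t ht m hm => ?_
      exact hd m (hsub hm) t)
  exact key.2.differentiableAt.differentiableWithinAt

/-- derivative of the principal square root on the right half plane -/
theorem holo_aux_csq {f : ℂ → ℂ} {f' m : ℂ} (hf : HasDerivAt f f' m) (h : 0 < (f m).re) :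
    HasDerivAt (fun z => csq (f z)) ((1 / 2 : ℂ) * f m ^ ((1 / 2 : ℂ) - 1) * f') m := by
  unfold csq
  exact hf.cpow_const (Or.inl h)

theorem holo_aux_cont {a : ℂ → ℝ → ℂ} {U : Set ℂ} (c : ℂ)
    (ha : Continuous (fun q : ℂ × ℝ => a q.1 q.2)) (hp : ∀ m ∈ U, ∀ t, 0 < (a m t).re) :
    ContinuousOn (fun q : ℂ × ℝ => a q.1 q.2 ^ c) (U ×ˢ univ) := by
  intro q hq
  exact (ha.continuousAt.cpow continuousAt_const
    (Or.inl (hp q.1 hq.1 q.2))).continuousWithinAt

theorem holo_aux_ne {z : ℂ} (h : 0 < z.re) : csq z ≠ 0 := by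
  unfold csq
  rw [Complex.cpow_ne_zero_iff]
  left
  intro h0
  rw [h0] at h
  simp at h

theorem holo_aux_main {U : Set ℂ} (hU : IsOpen U) {a b c a' b' c' : ℂ → ℝ → ℂ}
    (ha : Continuous (fun q : ℂ × ℝ => a q.1 q.2)) (hb : Continuous (fun q : ℂ × ℝ => b q.1 q.2))
    (hc : Continuous (fun q : ℂ × ℝ => c q.1 q.2))
    (ha' : Continuous (fun q : ℂ × ℝ => a' q.1 q.2))
    (hb' : Continuous (fun q : ℂ × ℝ => b' q.1 q.2))
    (hc' : Continuous (fun q : ℂ × ℝ => c' q.1 q.2))
    (da : ∀ m t, HasDerivAt (fun m => a m t) (a' m t) m)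
    (db : ∀ m t, HasDerivAt (fun m => b m t) (b' m t) m)
    (dc : ∀ m t, HasDerivAt (fun m => c m t) (c' m t) m)
    (pa : ∀ m ∈ U, ∀ t, 0 < (a m t).re) (pb : ∀ m ∈ U, ∀ t, 0 < (b m t).re)
    (pc : ∀ m ∈ U, ∀ t, 0 < (c m t).re) :
    DifferentiableOn ℂ
      (fun m => ∫ t in (0 : ℝ)..1, (csq (a m t) * csq (b m t) * csq (c m t))⁻¹) U := by
  have sa := holo_aux_cont (1 / 2 : ℂ) ha pa
  have sb := holo_aux_cont (1 / 2 : ℂ) hb pb
  have sc := holo_aux_cont (1 / 2 : ℂ) hc pc
  have ra := holo_aux_cont ((1 / 2 : ℂ) - 1) ha pa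
  have rb := holo_aux_cont ((1 / 2 : ℂ) - 1) hb pb
  have rc := holo_aux_cont ((1 / 2 : ℂ) - 1) hc pc
  have hP : ContinuousOn (fun q : ℂ × ℝ => csq (a q.1 q.2) * csq (b q.1 q.2) * csq (c q.1 q.2))
      (U ×ˢ univ) := (sa.mul sb).mul sc
  have hne : ∀ m ∈ U, ∀ t : ℝ, csq (a m t) * csq (b m t) * csq (c m t) ≠ 0 := fun m hm t =>
    mul_ne_zero (mul_ne_zero (holo_aux_ne (pa m hm t)) (holo_aux_ne (pb m hm t)))
      (holo_aux_ne (pc m hm t))
  refine holo_aux_param (F' := fun m t => -((((1 / 2 : ℂ) * a m t ^ ((1 / 2 : ℂ) - 1) * a' m t) *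
    csq (b m t) + csq (a m t) * ((1 / 2 : ℂ) * b m t ^ ((1 / 2 : ℂ) - 1) * b' m t)) * csq (c m t)
      + csq (a m t) * csq (b m t) * ((1 / 2 : ℂ) * c m t ^ ((1 / 2 : ℂ) - 1) * c' m t)) /
      (csq (a m t) * csq (b m t) * csq (c m t)) ^ 2) hU ?_ ?_ ?_
  · exact hP.inv₀ (fun q hq => hne q.1 hq.1 q.2)
  · refine ContinuousOn.div (ContinuousOn.neg ?_) (hP.pow 2)
      (fun q hq => pow_ne_zero 2 (hne q.1 hq.1 q.2))
    exact (((((continuousOn_const.mul ra).mul ha'.continuousOn).mul sb).add
      (sa.mul ((continuousOn_const.mul rb).mul hb'.continuousOn))).mul sc).add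
      ((sa.mul sb).mul ((continuousOn_const.mul rc).mul hc'.continuousOn))
  · intro m hm t
    exact (((holo_aux_csq (da m t) (pa m hm t)).fun_mul
      (holo_aux_csq (db m t) (pb m hm t))).fun_mul
      (holo_aux_csq (dc m t) (pc m hm t))).fun_inv (hne m hm t)

theorem holo_aux_cc (t : ℝ) : 0 ≤ cc t ∧ cc t ≤ 1 :=
  ⟨sq_nonneg _, Real.cos_sq_le_one _⟩

theorem holo_aux_ccont : Continuous cc := by unfold cc; fun_prop

-- T5 (file Holo)
theorem G_holo : DifferentiableOn ℂ G1 {m | 0 < m.re ∧ m.re < 1} ∧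
    DifferentiableOn ℂ G2 {m | 0 < m.re ∧ m.re < 1} ∧
    DifferentiableOn ℂ G3 {m | 0 < m.re ∧ m.re < 1} := by
  have hU : IsOpen {m : ℂ | 0 < m.re ∧ m.re < 1} :=
    (isOpen_lt continuous_const Complex.continuous_re).inter
      (isOpen_lt Complex.continuous_re continuous_const)
  have hcc := holo_aux_ccont
  refine ⟨?_, ?_, ?_⟩
  · refine holo_aux_main (a := fun _ t => 1 + cc t) (b := fun m t => m + cc t)
      (c := fun m t => 1 + m * cc t) (a' := fun _ _ => 0) (b' := fun _ _ => 1)
      (c' := fun _ t => cc t) hU (by fun_prop) (by fun_prop) (by fun_prop) (by fun_prop)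
      (by fun_prop) (by fun_prop) ?_ ?_ ?_ ?_ ?_ ?_
    · intro m t; exact hasDerivAt_const _ _
    · intro m t; exact (hasDerivAt_id m).add_const _
    · intro m t; simpa using ((hasDerivAt_id m).mul_const (cc t : ℂ)).const_add 1
    · intro m hm t
      have := holo_aux_cc t
      simp only [Complex.add_re, Complex.one_re, Complex.ofReal_re]
      linarith
    · intro m hm t
      have := holo_aux_cc t
      simp only [Complex.add_re, Complex.ofReal_re]
      linarith [hm.1]
    · intro m hm t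
      have := holo_aux_cc t
      simp only [Complex.add_re, Complex.one_re, Complex.mul_re, Complex.ofReal_re,
        Complex.ofReal_im]
      nlinarith [hm.1]
  · refine holo_aux_main (a := fun m t => 1 + m * cc t) (b := fun m t => 1 - m * cc t)
      (c := fun m t => 1 - m ^ 2 * cc t) (a' := fun _ t => cc t) (b' := fun _ t => -cc t)
      (c' := fun m t => -(2 * m * cc t)) hU (by fun_prop) (by fun_prop) (by fun_prop)
      (by fun_prop) (by fun_prop) (by fun_prop) ?_ ?_ ?_ ?_ ?_ ?_
    · intro m t; simpa using ((hasDerivAt_id m).mul_const (cc t : ℂ)).const_add 1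
    · intro m t; simpa using ((hasDerivAt_id m).mul_const (cc t : ℂ)).const_sub 1
    · intro m t; simpa using ((hasDerivAt_pow 2 m).mul_const (cc t : ℂ)).const_sub 1
    · intro m hm t
      have := holo_aux_cc t
      simp only [Complex.add_re, Complex.one_re, Complex.mul_re, Complex.ofReal_re,
        Complex.ofReal_im]
      nlinarith [hm.1]
    · intro m hm t
      have := holo_aux_cc t
      simp only [Complex.sub_re, Complex.one_re, Complex.mul_re, Complex.ofReal_re,
        Complex.ofReal_im]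
      nlinarith [hm.1, hm.2]
    · intro m hm t
      have := holo_aux_cc t
      simp only [Complex.sub_re, Complex.one_re, Complex.mul_re, Complex.ofReal_re,
        Complex.ofReal_im, pow_two]
      have h1 : m.re * m.re < 1 := by nlinarith [hm.1, hm.2]
      nlinarith [mul_nonneg (mul_self_nonneg m.im) this.1, mul_nonneg this.1 (mul_self_nonneg m.re)]
  · refine holo_aux_main (a := fun m t => 1 + (m + (1 - m) * cc t))
      (b := fun m t => m + (1 - m) * cc t)
      (c := fun m t => 1 - m * (m + (1 - m) * cc t)) (a' := fun _ t => 1 - cc t)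
      (b' := fun _ t => 1 - cc t)
      (c' := fun m t => -((m + (1 - m) * cc t) + m * (1 - cc t))) hU (by fun_prop) (by fun_prop)
      (by fun_prop) (by fun_prop) (by fun_prop) (by fun_prop) ?_ ?_ ?_ ?_ ?_ ?_
    · intro m t
      have h := ((hasDerivAt_id m).add (((hasDerivAt_id m).const_sub 1).mul_const
        (cc t : ℂ))).const_add 1
      refine h.congr_deriv ?_
      ring
    · intro m t
      have h := ((hasDerivAt_id m).add (((hasDerivAt_id m).const_sub 1).mul_const (cc t : ℂ)))
      refine h.congr_deriv ?_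
      ring
    · intro m t
      have h := ((hasDerivAt_id m).mul ((hasDerivAt_id m).add (((hasDerivAt_id m).const_sub
        1).mul_const (cc t : ℂ)))).const_sub 1
      refine h.congr_deriv ?_
      simp only [Pi.add_apply, id]
      ring
    · intro m hm t
      have := holo_aux_cc t
      simp only [Complex.add_re, Complex.one_re, Complex.mul_re, Complex.ofReal_re,
        Complex.ofReal_im, Complex.sub_re, Complex.sub_im]
      nlinarith [hm.1, hm.2]
    · intro m hm t
      have := holo_aux_cc t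
      simp only [Complex.add_re, Complex.one_re, Complex.mul_re, Complex.ofReal_re,
        Complex.ofReal_im, Complex.sub_re, Complex.sub_im]
      nlinarith [hm.1, hm.2]
    · intro m hm t
      have hc := holo_aux_cc t
      simp only [Complex.add_re, Complex.one_re, Complex.mul_re, Complex.ofReal_re,
        Complex.ofReal_im, Complex.sub_re, Complex.sub_im, Complex.add_im, Complex.mul_im,
        Complex.one_im]
      have h1 : 0 < 1 - m.re := by linarith [hm.2]
      have h2 : 0 ≤ m.im ^ 2 * (1 - cc t) := mul_nonneg (sq_nonneg _) (by linarith [hc.2])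
      have h3 : 0 ≤ (1 - m.re) * (m.re * (1 - cc t)) :=
        mul_nonneg h1.le (mul_nonneg hm.1.le (by linarith [hc.2]))
      nlinarith [hm.1, hm.2]

end Pool.Agent.AO
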