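import Pool.Agent.Lib.MP_779fbc_ag.Base

/-! # T2 Shift: shift of the contour for a periodic holomorphic function -/

open Set Topology Filter

noncomputable section

namespace Pool.Agent.AO

theorem shift_aux_csq {z : ℂ} (hz : 0 < z.re) : DifferentiableAt ℂ csq z ∧ csq z ≠ 0 := by
  have hs : z ∈ Complex.slitPlane := Or.inl hz
  have h0 : z ≠ 0 := by
    intro h
    rw [h] at hz
    simp at hz
  constructor
  · have : DifferentiableAt ℂ (fun w : ℂ => w ^ (1 / 2 : ℂ)) z :=
      differentiableAt_id.cpow (differentiableAt_const _) hs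
    exact this
  · unfold csq
    rw [Complex.cpow_def_of_ne_zero h0]
    exact Complex.exp_ne_zero _

theorem shift_aux_diff (s : Fin 3 → ℝ) (p q : ℂ) (b : Fin 3 → ℂ) {ζ : ℂ}
    (h : ∀ j, 0 < (s j * (segx p q ζ - b j)).re) :
    DifferentiableAt ℂ (fun ζ => (∏ j, csq (s j * (segx p q ζ - b j)))⁻¹) ζ := by
  have hseg : DifferentiableAt ℂ (segx p q) ζ := by
    unfold segx
    have : DifferentiableAt ℂ (fun ζ : ℂ => Complex.cos (2 * Real.pi * ζ)) ζ := by fun_prop
    exact (this.const_mul _).const_add _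
  have hj : ∀ j, DifferentiableAt ℂ (fun ζ => csq (s j * (segx p q ζ - b j))) ζ := by
    intro j
    have h1 : DifferentiableAt ℂ (fun ζ => (s j : ℂ) * (segx p q ζ - b j)) ζ :=
      (hseg.sub_const _).const_mul _
    exact (shift_aux_csq (h j)).1.comp ζ h1
  have hprod : DifferentiableAt ℂ (fun ζ => ∏ j, csq (s j * (segx p q ζ - b j))) ζ := by
    simp only [Fin.prod_univ_three]
    exact ((hj 0).mul (hj 1)).mul (hj 2)
  apply hprod.inv
  rw [Finset.prod_ne_zero_iff]
  intro j _
  exact (shift_aux_csq (h j)).2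

theorem shift_aux_periodic (p q ζ : ℂ) : segx p q (1 + ζ) = segx p q ζ := by
  unfold segx
  have : (2 * (Real.pi : ℂ) * (1 + ζ)) = 2 * Real.pi * ζ + 2 * Real.pi := by ring
  rw [this, Complex.cos_add_two_pi]

theorem cut_shift (s : Fin 3 → ℝ) (p q : ℂ) (b : Fin 3 → ℂ) (δ : ℝ)
    (h : ∀ (t y : ℝ), |y| ≤ |δ| → ∀ j, 0 < (s j * (segx p q (t + y * Complex.I) - b j)).re) :
    (∫ t in (0 : ℝ)..1, (∏ j, csq (s j * (segx p q (t + δ * Complex.I) - b j)))⁻¹)
      = cutInt s p q b := by
  have hD : DifferentiableOn ℂ (fun ζ => (∏ j, csq (s j * (segx p q ζ - b j)))⁻¹)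
      (Set.uIcc (0 : ℂ).re ((1 : ℂ) + δ * Complex.I).re ×ℂ
        Set.uIcc (0 : ℂ).im ((1 : ℂ) + δ * Complex.I).im) := by
    intro ζ hζ
    apply DifferentiableAt.differentiableWithinAt
    apply shift_aux_diff
    intro j
    have h2 : ζ.im ∈ Set.uIcc (0 : ℂ).im ((1 : ℂ) + δ * Complex.I).im := hζ.2
    have h3 : |ζ.im| ≤ |δ| := by
      simp only [Complex.zero_im, Complex.add_im, Complex.one_im, Complex.mul_im,
        Complex.ofReal_re, Complex.I_im, mul_one, Complex.ofReal_im, Complex.I_re, mul_zero,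
        add_zero, zero_add] at h2
      have := Set.abs_sub_left_of_mem_uIcc h2
      simpa using this
    have h4 := h ζ.re ζ.im h3 j
    rwa [Complex.re_add_im] at h4
  have key := Complex.integral_boundary_rect_eq_zero_of_differentiableOn _ _ _ hD
  simp only [Complex.zero_im, Complex.zero_re, Complex.add_im, Complex.one_im, Complex.mul_im,
        Complex.ofReal_re, Complex.I_im, mul_one, Complex.ofReal_im, Complex.I_re, mul_zero,
        add_zero, zero_add, Complex.add_re, Complex.one_re, Complex.mul_re, sub_self,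
        Complex.ofReal_zero, zero_mul, Complex.ofReal_one] at key
  have hper : (∫ y in (0 : ℝ)..δ, (∏ j, csq (s j * (segx p q (1 + y * Complex.I) - b j)))⁻¹) =
      ∫ y in (0 : ℝ)..δ, (∏ j, csq (s j * (segx p q (y * Complex.I) - b j)))⁻¹ := by
    simp only [shift_aux_periodic]
  rw [hper] at key
  unfold cutInt
  rw [add_sub_assoc, sub_self, add_zero, sub_eq_zero] at key
  exact key.symm

end Pool.Agent.AO
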